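import Pool.Agent.Lib.MP_bc213e_ag.DC.Mdl
import Pool.Agent.Lib.MP_bc213e_ag.Hyp.ADefs

/-! Base change of a model. -/

namespace Pool.Agent.Lib.MP_bc213e_ag.DC

open MvPolynomial
open scoped TensorProduct

noncomputable section

namespace Mdl

section

variable {k A I J Cc : Type} [CommRing k] [CommRing A] [Algebra k A] [DecidableEq I]
  (M : Mdl k A I J Cc)

/-- The relations that do not involve the fibre coordinate. -/
structure OK0 [Fintype I] : Prop where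
  rel : aeval M.Z M.P = 0
  deg : M.P.totalDegree ≤ M.dd
  num : M.N + M.dd = M.D + Fintype.card I + 1
  sgP : ∀ c, M.sg c * M.Pw ^ M.ix = M.th c ^ M.ix * M.κ
  thD : ∀ c, M.th c ∈ PL k M.Z M.D
  gasg : ∀ j c, M.ga j * M.sg c ∈ M.RR (M.e + M.ix * M.N)
  ga0 : M.ga M.j0 = 1
  κ0 : M.κ ≠ 0
  th0 : M.th M.c0 ≠ 0

/-- The data lie in `O`. -/
structure In (O : Subalgebra k A) : Prop where
  Z : ∀ i, M.Z i ∈ O
  κ : M.κ ∈ O
  th : ∀ c, M.th c ∈ O
  sg : ∀ c, M.sg c ∈ O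
  ga : ∀ j, M.ga j ∈ O

end

end Mdl

variable {L A I I' J Cc : Type} [CommRing L] [Algebra ℂ L] [CommRing A] [Algebra ℂ A]

/-- `h` is an algebra homomorphism on `O` whose linear extension is injective. -/
structure PH (Ω : Type) [Field Ω] [Algebra ℂ Ω] [Algebra Ω A] [IsScalarTower ℂ Ω A]
    (O : Subalgebra ℂ L) (h : L →ₗ[ℂ] A) : Prop where
  one : h 1 = 1
  mul : ∀ f ∈ O, ∀ f' ∈ O, h (f * f') = h f * h f'
  inj : ∀ s ∈ (Subalgebra.toSubmodule O).baseChange Ω, h.liftBaseChange Ω s = 0 → s = 0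

variable [DecidableEq I] [DecidableEq I']

/-- The model in `A`, with fibre coordinate `v`. -/
def Mdl.tr (M : Mdl ℂ L I J Cc) (Ω : Type) [Field Ω] [Algebra ℂ Ω] (h : L →ₗ[ℂ] A) (ε : I ≃ I')
    (v θ : A) : Mdl Ω A I' J Cc where
  o := ε M.o
  Y := Function.update (fun i => h (M.Y (ε.symm i))) (ε M.o) v
  w := h M.w
  P := rename ε (map (algebraMap ℂ Ω) M.P)
  θ := θ
  κ := h M.κ
  th c := h (M.th c)
  sg c := h (M.sg c)
  ga j := h (M.ga j)
  j0 := M.j0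
  c0 := M.c0
  dd := M.dd
  D := M.D
  e := M.e
  N := M.N
  ix := M.ix

variable {Ω : Type} [Field Ω] [Algebra ℂ Ω] [Algebra Ω A] [IsScalarTower ℂ Ω A]
  {O : Subalgebra ℂ L} {h : L →ₗ[ℂ] A} {M : Mdl ℂ L I J Cc} {ε : I ≃ I'} {v θ : A}

section

omit [DecidableEq I] [DecidableEq I']

theorem bc_deg {N : ℕ} {Q : MvPolynomial I ℂ} (hQ : Q.totalDegree ≤ N) (Ω : Type) [Field Ω]
    [Algebra ℂ Ω] (ε : I ≃ I') : (rename ε (map (algebraMap ℂ Ω) Q)).totalDegree ≤ N :=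
  (totalDegree_rename_le _ _).trans
    ((Finset.sup_mono (support_map_subset (algebraMap ℂ Ω) Q)).trans hQ)

theorem bc_aeval_mem {Z : I → L} (hZ : ∀ i, Z i ∈ O) (Q : MvPolynomial I ℂ) : aeval Z Q ∈ O := by
  induction Q using MvPolynomial.induction_on with
  | C a => rw [aeval_C]; exact O.algebraMap_mem a
  | add p q hp hq => rw [map_add]; exact add_mem hp hq
  | mul_X p i hp => rw [map_mul, aeval_X]; exact mul_mem hp (hZ i)

theorem bc_PL_mem {Z : I → L} (hZ : ∀ i, Z i ∈ O) {N : ℕ} {f : L} (hf : f ∈ PL ℂ Z N) : f ∈ O := by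
  obtain ⟨G, -, rfl⟩ := mem_PL.1 hf
  exact bc_aeval_mem hZ G

theorem bc_pow (H : PH Ω O h) {f : L} (hf : f ∈ O) (n : ℕ) : h (f ^ n) = h f ^ n := by
  induction n with
  | zero => rw [pow_zero, pow_zero, H.one]
  | succ n ih => rw [pow_succ, H.mul _ (pow_mem hf n) _ hf, ih, pow_succ]

theorem bc_ind {W : Submodule ℂ L} {P : Ω ⊗[ℂ] L → Prop} (h0 : P 0)
    (h1 : ∀ a, ∀ w ∈ W, P (a ⊗ₜ[ℂ] w)) (h2 : ∀ s s', P s → P s' → P (s + s'))
    {s : Ω ⊗[ℂ] L} (hs : s ∈ W.baseChange Ω) : P s := by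
  obtain ⟨x, rfl⟩ := hs
  induction x using TensorProduct.induction_on with
  | zero => rw [map_zero]; exact h0
  | tmul a w => exact h1 a w w.2
  | add x y hx hy => rw [map_add]; exact h2 _ _ hx hy

theorem bc_lift {W : Submodule ℂ L} {y : A} (hy : y ∈ Submodule.span Ω (h '' W)) :
    ∃ s ∈ W.baseChange Ω, h.liftBaseChange Ω s = y := by
  induction hy using Submodule.span_induction with
  | mem x hx =>
    obtain ⟨w, hw, rfl⟩ := hx
    exact ⟨1 ⊗ₜ w, Submodule.tmul_mem_baseChange_of_mem 1 hw, h.liftBaseChange_one_tmul Ω w⟩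
  | zero => exact ⟨0, zero_mem _, map_zero _⟩
  | add x y _ _ hx hy =>
    obtain ⟨s, hs, rfl⟩ := hx
    obtain ⟨s', hs', rfl⟩ := hy
    exact ⟨s + s', add_mem hs hs', map_add _ _ _⟩
  | smul a x _ hx =>
    obtain ⟨s, hs, rfl⟩ := hx
    exact ⟨a • s, Submodule.smul_mem _ a hs, map_smul _ _ _⟩

theorem bc_mul (H : PH Ω O h) {W : Submodule ℂ L} (hW : ∀ w ∈ W, w ∈ O) {t : L} (ht : t ∈ O)
    {s : Ω ⊗[ℂ] L} (hs : s ∈ W.baseChange Ω) :
    (LinearMap.mulRight ℂ t).baseChange Ω s ∈ (Subalgebra.toSubmodule O).baseChange Ω ∧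
      h.liftBaseChange Ω ((LinearMap.mulRight ℂ t).baseChange Ω s) =
        h.liftBaseChange Ω s * h t := by
  refine bc_ind (P := fun s => (LinearMap.mulRight ℂ t).baseChange Ω s ∈
    (Subalgebra.toSubmodule O).baseChange Ω ∧
      h.liftBaseChange Ω ((LinearMap.mulRight ℂ t).baseChange Ω s) =
        h.liftBaseChange Ω s * h t) ?_ ?_ ?_ hs
  · simp
  · intro a w hw
    rw [LinearMap.baseChange_tmul, LinearMap.mulRight_apply, LinearMap.liftBaseChange_tmul,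
      LinearMap.liftBaseChange_tmul, H.mul _ (hW w hw) _ ht, smul_mul_assoc]
    exact ⟨Submodule.tmul_mem_baseChange_of_mem a (O.mul_mem (hW w hw) ht), rfl⟩
  · rintro s s' ⟨a1, a2⟩ ⟨b1, b2⟩
    rw [map_add, map_add, map_add, a2, b2, add_mul]
    exact ⟨add_mem a1 b1, rfl⟩

theorem bc_co_mem {W : Submodule ℂ L} (l : Ω →ₗ[ℂ] ℂ) {s : Ω ⊗[ℂ] L}
    (hs : s ∈ W.baseChange Ω) : Hyp.co l s ∈ W := by
  refine bc_ind (P := fun s => Hyp.co l s ∈ W) ?_ ?_ ?_ hs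
  · rw [map_zero]
    exact zero_mem _
  · intro a w hw
    rw [Hyp.co_tmul]
    exact W.smul_mem _ hw
  · intro s s' a b
    rw [map_add]
    exact add_mem a b

theorem bc_co_mul (l : Ω →ₗ[ℂ] ℂ) (t : L) (s : Ω ⊗[ℂ] L) :
    Hyp.co l ((LinearMap.mulRight ℂ t).baseChange Ω s) = Hyp.co l s * t := by
  induction s using TensorProduct.induction_on with
  | zero => simp
  | tmul a w =>
    rw [LinearMap.baseChange_tmul, LinearMap.mulRight_apply, Hyp.co_tmul, Hyp.co_tmul,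
      smul_mul_assoc]
  | add x y hx hy => rw [map_add, map_add, map_add, hx, hy, add_mul]

theorem bc_of_co {W : Submodule ℂ L} {s : Ω ⊗[ℂ] L} (hs : ∀ l : Ω →ₗ[ℂ] ℂ, Hyp.co l s ∈ W) :
    s ∈ W.baseChange Ω := by
  classical
  let b := Module.Free.chooseBasis ℂ Ω
  obtain ⟨c, rfl⟩ := TensorProduct.eq_repr_basis_left b s
  refine Submodule.sum_mem _ fun i hi => Submodule.tmul_mem_baseChange_of_mem _ ?_
  have h1 := hs (b.coord i)
  rw [Finsupp.sum, map_sum, Finset.sum_eq_single i] at h1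
  · simpa using h1
  · intro j _ hj
    simp [hj]
  · intro hn
    exact absurd hi hn

end

omit [DecidableEq I] [DecidableEq I'] in
theorem PH.ne (H : PH Ω O h) {f : L} (hf : f ∈ O) (h0 : f ≠ 0) : h f ≠ 0 := by
  intro h1
  have h2 := H.inj (1 ⊗ₜ f) (Submodule.tmul_mem_baseChange_of_mem 1 hf)
    (by rw [LinearMap.liftBaseChange_one_tmul, h1])
  refine h0 (Algebra.TensorProduct.includeRight_injective (R := ℂ) (A := Ω) (B := L)
    (algebraMap ℂ Ω).injective ?_)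
  rw [map_zero]
  exact h2

omit [Algebra Ω A] [IsScalarTower ℂ Ω A] in
theorem tr_Z (i : I') : (M.tr Ω h ε v θ).Z i = h (M.Z (ε.symm i)) := by
  obtain ⟨i, rfl⟩ := ε.surjective i
  by_cases hi : i = M.o
  · simp [Mdl.Z, Mdl.tr, hi]
  · simp [Mdl.Z, Mdl.tr, hi]

omit [DecidableEq I] [Algebra Ω A] [IsScalarTower ℂ Ω A] in
theorem tr_v : (M.tr Ω h ε v θ).v = v := by
  simp [Mdl.v, Mdl.tr]

theorem tr_aeval (H : PH Ω O h) (hM : M.In O) (Q : MvPolynomial I ℂ) :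
    aeval (M.tr Ω h ε v θ).Z (rename ε (map (algebraMap ℂ Ω) Q)) = h (aeval M.Z Q) := by
  induction Q using MvPolynomial.induction_on with
  | C a =>
    rw [map_C, rename_C, aeval_C, aeval_C, ← IsScalarTower.algebraMap_apply,
      Algebra.algebraMap_eq_smul_one (A := L), map_smul, H.one, Algebra.algebraMap_eq_smul_one]
  | add p q hp hq => simp only [map_add, hp, hq]
  | mul_X p i hp =>
    rw [map_mul, map_mul, map_mul, map_mul, hp, map_X, rename_X, aeval_X, aeval_X, tr_Z,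
      Equiv.symm_apply_apply, H.mul _ (bc_aeval_mem hM.Z p) _ (hM.Z i)]

theorem tr_PL (H : PH Ω O h) (hM : M.In O) (N : ℕ) :
    PL Ω (M.tr Ω h ε v θ).Z N = Submodule.span Ω (h '' PL ℂ M.Z N) := by
  refine le_antisymm (fun y hy => ?_) (Submodule.span_le.2 ?_)
  · obtain ⟨G, hG, rfl⟩ := mem_PL.1 hy
    rw [G.as_sum, map_sum]
    refine Submodule.sum_mem _ fun m hm => ?_
    have e : (monomial m (coeff m G) : MvPolynomial I' Ω) = coeff m G •
        rename ε (map (algebraMap ℂ Ω) (rename ε.symm (monomial m (1 : ℂ)))) := by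
      rw [map_rename, rename_rename, Equiv.self_comp_symm, rename_id_apply, map_monomial, map_one,
        smul_monomial, smul_eq_mul, mul_one]
    rw [e, map_smul, tr_aeval H hM]
    refine Submodule.smul_mem _ _ (Submodule.subset_span ⟨_, mem_PL.2 ⟨_, ?_, rfl⟩, rfl⟩)
    exact (totalDegree_rename_le _ _).trans
      ((totalDegree_monomial_le _ _).trans ((le_totalDegree hm).trans hG))
  · rintro _ ⟨f, hf, rfl⟩
    obtain ⟨G, hG, rfl⟩ := mem_PL.1 hf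
    exact mem_PL.2 ⟨_, bc_deg hG Ω ε, tr_aeval H hM G⟩

theorem tr_RR (H : PH Ω O h) (hM : M.In O) {N : ℕ} {f : L} (hf : f ∈ O) (h1 : f ∈ M.RR N) :
    h f ∈ (M.tr Ω h ε v θ).RR N := by
  intro c
  have hs : ∀ b ∈ Submodule.span ℂ (Set.range M.th), b ∈ O ∧
      h b ∈ Submodule.span Ω (Set.range (M.tr Ω h ε v θ).th) := by
    intro b hb
    induction hb using Submodule.span_induction with
    | mem x hx =>
      obtain ⟨c', rfl⟩ := hx
      exact ⟨hM.th c', Submodule.subset_span ⟨c', rfl⟩⟩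
    | zero => exact ⟨zero_mem _, by rw [map_zero]; exact zero_mem _⟩
    | add x y _ _ hx hy => exact ⟨add_mem hx.1 hy.1, by rw [map_add]; exact add_mem hx.2 hy.2⟩
    | smul a x _ hx =>
      exact ⟨O.smul_mem hx.1 a, by rw [map_smul]; exact Submodule.smul_of_tower_mem _ a hx.2⟩
  change h f * h (M.th c) ∈ _
  rw [← H.mul _ hf _ (hM.th c)]
  refine Submodule.mul_induction_on (C := fun x => h x ∈ PL Ω (M.tr Ω h ε v θ).Z N *
    Submodule.span Ω (Set.range (M.tr Ω h ε v θ).th)) (h1 c) (fun a ha b hb => ?_)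
    fun x y hx hy => ?_
  · rw [H.mul _ (bc_PL_mem hM.Z ha) _ (hs b hb).1]
    refine Submodule.mul_mem_mul ?_ (hs b hb).2
    rw [tr_PL H hM]
    exact Submodule.subset_span ⟨a, ha, rfl⟩
  · rw [map_add]
    exact add_mem hx hy

theorem tr_Sc (H : PH Ω O h) (hM : M.In O) {i a : ℕ} {f : L} (hf : f ∈ O) (h1 : f ∈ M.Sc i a) :
    h f ∈ (M.tr Ω h ε v θ).Sc i a := by
  intro j
  change h f * h (M.ga j) ^ i ∈ (M.tr Ω h ε v θ).RR (a + i * M.e)
  rw [← bc_pow H (hM.ga j), ← H.mul _ hf _ (pow_mem (hM.ga j) i)]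
  exact tr_RR H hM (mul_mem hf (pow_mem (hM.ga j) i)) (h1 j)

theorem tr_OK [Fintype I] [Fintype I'] (H : PH Ω O h) (hM : M.In O) (h0 : M.OK0)
    {d : I' → Derivation Ω A A} 
    (jac : θ * Jac d (M.tr Ω h ε v θ).Y ^ M.ix = h M.κ * v ^ (M.ix + 1)) (vu : IsUnit v) :
    (M.tr Ω h ε v θ).OK d := by
  refine ⟨?_, bc_deg h0.deg Ω ε, ?_, ?_, fun c => ?_, fun c => ?_, fun j c => ?_, ?_,
    H.ne hM.κ h0.κ0, H.ne (hM.th _) h0.th0, ?_⟩
  · exact (tr_aeval H hM M.P).trans (by rw [h0.rel, map_zero])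
  · rw [← Fintype.card_congr ε]
    exact h0.num
  · rw [tr_v]
    exact jac
  · have e : (M.tr Ω h ε v θ).Pw = h M.Pw := by
      change aeval _ (pderiv (ε M.o) (rename ε (map (algebraMap ℂ Ω) M.P))) = _
      rw [pderiv_rename ε.injective, pderiv_map, tr_aeval H hM]
      rfl
    rw [e]
    have hP : M.Pw ∈ O := bc_aeval_mem hM.Z _
    change h (M.sg c) * h M.Pw ^ M.ix = h (M.th c) ^ M.ix * h M.κ
    rw [← bc_pow H hP, ← bc_pow H (hM.th c), ← H.mul _ (hM.sg c) _ (pow_mem hP _),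
      ← H.mul _ (pow_mem (hM.th c) _) _ hM.κ]
    exact congrArg h (h0.sgP c)
  · rw [tr_PL H hM]
    exact Submodule.subset_span ⟨_, h0.thD c, rfl⟩
  · change h (M.ga j) * h (M.sg c) ∈ (M.tr Ω h ε v θ).RR (M.e + M.ix * M.N)
    rw [← H.mul _ (hM.ga j) _ (hM.sg c)]
    exact tr_RR H hM (mul_mem (hM.ga j) (hM.sg c)) (h0.gasg j c)
  · change h (M.ga M.j0) = 1
    rw [h0.ga0, H.one]
  · rw [tr_v]
    exact vu

theorem tr_out (H : PH Ω O h) (hM : M.In O) {V : Submodule ℂ L} (hV : ∀ s ∈ V, s ∈ O) {B : Type}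
    {N : ℕ} {t : B → L} (ht : ∀ β, t β ∈ O) {t₀ : L} (ht₀ : t₀ ∈ O)
    (h1 : ∀ y ∈ PL ℂ M.Z N, (∀ β, ∃ z ∈ PL ℂ M.Z N, y * t β = z * t₀) → ∃ s ∈ V, y = s * t₀)
    {y : A} (hy : y ∈ PL Ω (M.tr Ω h ε v θ).Z N)
    (h2 : ∀ β, ∃ z ∈ PL Ω (M.tr Ω h ε v θ).Z N, y * h (t β) = z * h t₀) :
    ∃ s ∈ Submodule.span Ω (h '' V), y = s * h t₀ := by
  have hP : ∀ w ∈ PL ℂ M.Z N, w ∈ O := fun w hw => bc_PL_mem hM.Z hw
  rw [tr_PL H hM] at hy h2
  obtain ⟨s, hs, rfl⟩ := bc_lift hy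
  have h3 : s ∈ (V.map (LinearMap.mulRight ℂ t₀)).baseChange Ω := by
    refine bc_of_co fun l => ?_
    obtain ⟨u, hu, e⟩ := h1 _ (bc_co_mem l hs) fun β => by
      obtain ⟨z, hz, e⟩ := h2 β
      obtain ⟨s', hs', rfl⟩ := bc_lift hz
      obtain ⟨a1, a2⟩ := bc_mul H hP (ht β) hs
      obtain ⟨b1, b2⟩ := bc_mul H hP ht₀ hs'
      have h4 := H.inj _ (sub_mem a1 b1) (by rw [map_sub, a2, b2, e, sub_self])
      refine ⟨_, bc_co_mem l hs', ?_⟩
      rw [← bc_co_mul, ← bc_co_mul, sub_eq_zero.1 h4]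
    exact ⟨u, hu, e.symm⟩
  refine bc_ind (P := fun s => ∃ u ∈ Submodule.span Ω (h '' V),
    h.liftBaseChange Ω s = u * h t₀) ⟨0, zero_mem _, by simp⟩ ?_ ?_ h3
  · rintro a _ ⟨w, hw, rfl⟩
    refine ⟨a • h w, Submodule.smul_mem _ a (Submodule.subset_span ⟨w, hw, rfl⟩), ?_⟩
    rw [LinearMap.liftBaseChange_tmul, LinearMap.mulRight_apply, H.mul _ (hV w hw) _ ht₀,
      smul_mul_assoc]
  · rintro x x' ⟨u, hu, e⟩ ⟨u', hu', e'⟩
    exact ⟨u + u', add_mem hu hu', by rw [map_add, e, e', add_mul]⟩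

end

end Pool.Agent.Lib.MP_bc213e_ag.DC
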