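import Mathlib

/-! Rings with a `p`-basis and their Cartier operator. -/

namespace Pool.Agent.Lib.MP_bc213e_ag.DC

noncomputable section

variable {k A ι : Type} [CommRing k] [CommRing A] [Algebra k A] [Fintype ι] [DecidableEq ι]

/-- The Jacobian determinant. -/
def Jac (d : ι → Derivation k A A) (Y : ι → A) : A := (Matrix.of fun a b => d a (Y b)).det

/-- A `p`-basis `T`, the dual derivations and the Cartier operator on top forms. -/
structure Car (k A ι : Type) (p : ℕ) [CommRing k] [CommRing A] [Algebra k A] [Fintype ι]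
    [DecidableEq ι] where
  der : ι → Derivation k A A
  T : ι → A
  Φ : A →+ A
  der_T : ∀ i j, der i (T j) = if i = j then 1 else 0
  Φ_mul : ∀ f g, Φ (f ^ p * g) = f * Φ g
  Φ_der : ∀ i f, Φ (der i f) = 0
  Φ_T : Φ (∏ i, T i ^ (p - 1)) = 1
  gen : ∃ (B : Type) (_ : Fintype B) (t : B → A), (∀ b, t b ∈ Subring.closure (Set.range T)) ∧
    ∀ f, ∃ g : B → A, f = ∑ b, g b ^ p * t b

theorem car_exp (d : ι → Derivation k A A) (Y : ι → A) (i : ι) (z : A) :
    Jac d (Function.update Y i z) =
      ∑ a, (Matrix.of fun a b => d a (Y b)).adjugate i a * d a z := by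
  have h : Jac d (Function.update Y i z) =
      ((Matrix.of fun a b => d a (Y b)).updateCol i fun a => d a z).det := by
    unfold Jac
    congr 1
    ext a b
    rw [Matrix.of_apply, Matrix.updateCol_apply]
    split_ifs with h
    · rw [h, Function.update_self]
    · rw [Function.update_of_ne h, Matrix.of_apply]
  rw [h, ← Matrix.cramer_apply, Matrix.cramer_eq_adjugate_mulVec]
  rfl

theorem car_exD (d : ι → Derivation k A A) (Y : ι → A) (i : ι) :
    ∃ D : Derivation k A A, ∀ z, Jac d (Function.update Y i z) = D z := by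
  refine ⟨∑ a, (Matrix.of fun a b => d a (Y b)).adjugate i a • d a, fun z => ?_⟩
  have h := congrFun (map_sum Derivation.coeFnAddMonoidHom
    (fun a => (Matrix.of fun a b => d a (Y b)).adjugate i a • d a) Finset.univ) z
  rw [Finset.sum_apply] at h
  exact (car_exp d Y i z).trans h.symm

theorem car_eq (d : ι → Derivation k A A) {Y : ι → A} {i j : ι} (h : i ≠ j) (e : Y i = Y j) :
    Jac d Y = 0 :=
  Matrix.det_zero_of_column_eq h fun a => by rw [Matrix.of_apply, Matrix.of_apply, e]

omit [CommRing A] in
theorem car_ind {T : ι → A} {Q : (ι → A) → Prop} (h0 : ∀ π : ι → ι, Q fun j => T (π j))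
    (h1 : ∀ Y b, (∀ a, Q (Function.update Y b (T a))) → Q Y) (Y : ι → A) : Q Y := by
  have key : ∀ (s : Finset ι) (Y : ι → A), (∀ j ∉ s, ∃ a, T a = Y j) → Q Y := by
    intro s
    induction s using Finset.induction_on with
    | empty =>
      intro Y h
      choose π hπ using fun j => h j (Finset.notMem_empty j)
      exact funext hπ ▸ h0 π
    | insert b s _ ih =>
      intro Y h
      refine h1 Y b fun a => ih _ fun j hj => ?_
      by_cases e : j = b
      · exact ⟨a, by rw [e, Function.update_self]⟩
      · rw [Function.update_of_ne e]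
        exact h j fun h' => (Finset.mem_insert.1 h').elim e hj
  exact key Finset.univ Y fun j hj => absurd (Finset.mem_univ j) hj

open MvPolynomial in
theorem car_chain (D : Derivation k A A) (u : Fin 2 → A) (H : MvPolynomial (Fin 2) ℤ) :
    D (aeval u H) = aeval u (pderiv 0 H) * D (u 0) + aeval u (pderiv 1 H) * D (u 1) := by
  induction H using MvPolynomial.induction_on with
  | C a => simp
  | add f g hf hg => simp only [map_add, hf, hg]; ring
  | mul_X f i hf =>
    rw [map_mul, aeval_X, Derivation.leibniz, hf]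
    fin_cases i <;> simp [Derivation.leibniz] <;> ring

open MvPolynomial in
theorem car_defect (D : Derivation k A A) {p : ℕ} (hp : p.Prime) (f g : A) :
    ∃ h, (f + g) ^ (p - 1) * D (f + g) = f ^ (p - 1) * D f + g ^ (p - 1) * D g + D h := by
  obtain ⟨r, hr⟩ := exists_add_pow_prime_eq hp (X 0 : MvPolynomial (Fin 2) ℤ) (X 1)
  have hp0 : (p : MvPolynomial (Fin 2) ℤ) ≠ 0 := Nat.cast_ne_zero.2 hp.ne_zero
  have key : ∀ i : Fin 2, pderiv i (X 0 * X 1 * r) = (X 0 + X 1) ^ (p - 1) - X i ^ (p - 1) := by
    intro i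
    have h1 := congrArg (pderiv i) hr
    rw [mul_assoc, mul_assoc, ← mul_assoc (X 0), map_add, map_add, ← nsmul_eq_mul, map_nsmul,
      nsmul_eq_mul, pderiv_pow, pderiv_pow, pderiv_pow] at h1
    apply mul_left_cancel₀ hp0
    fin_cases i
    · simp only [Fin.zero_eta, map_add, pderiv_X_self, ne_eq, one_ne_zero, not_false_eq_true,
        pderiv_X_of_ne] at h1 ⊢
      linear_combination -h1
    · simp only [Fin.mk_one, map_add, pderiv_X_self, ne_eq, zero_ne_one, not_false_eq_true,
        pderiv_X_of_ne] at h1 ⊢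
      linear_combination -h1
  refine ⟨aeval ![f, g] (X 0 * X 1 * r), ?_⟩
  rw [car_chain, key, key, map_add]
  simp only [map_sub, map_pow, map_add, aeval_X, Matrix.cons_val_zero, Matrix.cons_val_one]
  ring

theorem Jac_update_add (d : ι → Derivation k A A) (Y : ι → A) (i : ι) (f g : A) :
    Jac d (Function.update Y i (f + g)) =
      Jac d (Function.update Y i f) + Jac d (Function.update Y i g) := by
  obtain ⟨D, hD⟩ := car_exD d Y i
  rw [hD, hD, hD, map_add]

theorem Jac_update_mul (d : ι → Derivation k A A) (Y : ι → A) (i : ι) (f g : A) :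
    Jac d (Function.update Y i (f * g)) =
      f * Jac d (Function.update Y i g) + g * Jac d (Function.update Y i f) := by
  obtain ⟨D, hD⟩ := car_exD d Y i
  rw [hD, hD, hD, Derivation.leibniz, smul_eq_mul, smul_eq_mul]

variable {p : ℕ} [Fact p.Prime] [CharP A p]

omit [Fact p.Prime] in
theorem car_pow (D : Derivation k A A) (g : A) : D (g ^ p) = 0 := by
  rw [Derivation.leibniz_pow, nsmul_eq_mul, CharP.cast_eq_zero, zero_mul]

omit [CharP A p] in
theorem car_gen (c : Car k A ι p) {R : A → Prop} (hp : ∀ g, R (g ^ p)) (hT : ∀ a, R (c.T a))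
    (add : ∀ f g, R f → R g → R (f + g)) (neg : ∀ f, R f → R (-f))
    (mul : ∀ f g, R f → R g → R (f * g)) (f : A) : R f := by
  have h0 : R 0 := by simpa [(Fact.out : p.Prime).ne_zero] using hp 0
  have h1 : R 1 := by simpa using hp 1
  obtain ⟨B, _, t, ht, hg⟩ := c.gen
  obtain ⟨g, rfl⟩ := hg f
  refine Finset.sum_induction _ R add h0 fun b _ => mul _ _ (hp _) ?_
  refine Subring.closure_induction (p := fun x _ => R x) ?_ h0 h1 (fun x y _ _ => add x y)
    (fun x _ => neg x) (fun x y _ _ => mul x y) (ht b)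
  rintro _ ⟨a, rfl⟩
  exact hT a

omit [Fact p.Prime] [CharP A p] in
theorem car_int (c : Car k A ι p) (π : ι → ι) : (Matrix.of fun a b => c.der a (c.T (π b))) =
    (Int.castRingHom A).mapMatrix (Matrix.of fun a b => if a = π b then 1 else 0) := by
  ext a b
  simp [c.der_T]

theorem Car.Φ_Jac (c : Car k A ι p) (Y : ι → A) (b : ι) (h : A) :
    c.Φ (Jac c.der (Function.update Y b h)) = 0 := by
  revert h
  refine car_ind (T := c.T) (Q := fun Y => ∀ h, c.Φ (Jac c.der (Function.update Y b h)) = 0)
    (fun π h => ?_) (fun Y b' ih => ?_) Y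
  · rw [car_exp, car_int, ← RingHom.map_adjugate, map_sum]
    refine Finset.sum_eq_zero fun a _ => ?_
    rw [RingHom.mapMatrix_apply, Matrix.map_apply, eq_intCast, ← zsmul_eq_mul, map_zsmul, c.Φ_der,
      smul_zero]
  by_cases e : b' = b
  · intro h
    have := ih b h
    rwa [e, Function.update_idem] at this
  let J : A → A → A := fun h z => Jac c.der (Function.update (Function.update Y b' z) b h)
  have h1 : ∀ z, ∃ D : Derivation k A A, ∀ h, J h z = D h := fun z => car_exD _ _ _
  have h2 : ∀ h, ∃ D : Derivation k A A, ∀ z, J h z = D z := fun h => by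
    simp only [J, Function.update_comm e]
    exact car_exD _ _ _
  choose D1 h1 using h1
  choose D2 h2 using h2
  have h3 : ∀ t, J t t = 0 := fun t => car_eq _ e (by
    rw [Function.update_of_ne e, Function.update_self, Function.update_self])
  have h4 : ∀ t t', J t t' + J t' t = 0 := fun t t' => by
    have := h3 (t + t')
    rw [h1, map_add, ← h1, ← h1, h2, h2, map_add, map_add, ← h2, ← h2, ← h2, ← h2, h3, h3] at this
    linear_combination this
  have key : ∀ z h, c.Φ (J h z) = 0 := by
    refine car_gen c (fun g h => ?_) ih (fun f g hf hg h => ?_) (fun f hf h => ?_)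
      fun f g hf hg h => ?_
    · rw [h2, car_pow, map_zero]
    · rw [h2, map_add, ← h2, ← h2, map_add, hf, hg, add_zero]
    · rw [h2, map_neg, ← h2, map_neg, hf, neg_zero]
    · have h5 : J h (f * g) = J (f * h) g + J (g * h) f := by
        rw [h2, h1 g, h1 f, Derivation.leibniz, Derivation.leibniz, Derivation.leibniz, ← h2, ← h2,
          ← h1, ← h1]
        simp only [smul_eq_mul, ← h1]
        linear_combination -h * h4 f g
      rw [h5, map_add, hf, hg, add_zero]
  intro h
  have := key (Y b') h
  simpa only [J, Function.update_eq_self] using this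

theorem Car.lcar_zero (c : Car k A ι p) (Y : ι → A) (β : ι → ℕ) {i : ι} (h : ¬ p ∣ β i + 1) :
    c.Φ ((∏ j, Y j ^ β j) * Jac c.der Y) = 0 := by
  obtain ⟨D, hD⟩ := car_exD c.der Y i
  have h1 : D (Y i) = Jac c.der Y := by rw [← hD, Function.update_eq_self]
  have h2 : D (∏ j ∈ Finset.univ.erase i, Y j ^ β j) = 0 := by
    refine Finset.prod_induction _ (fun x => D x = 0) (fun a b ha hb => ?_) D.map_one_eq_zero
      fun j hj => ?_
    · rw [Derivation.leibniz, ha, hb, smul_zero, smul_zero, add_zero]
    · have e := Finset.ne_of_mem_erase hj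
      rw [Derivation.leibniz_pow, ← hD, car_eq _ e (by
        rw [Function.update_of_ne e, Function.update_self]), smul_zero, smul_zero]
  have h3 := c.Φ_Jac Y i (Y i ^ (β i + 1) * ∏ j ∈ Finset.univ.erase i, Y j ^ β j)
  rw [hD, Derivation.leibniz, h2, smul_zero, zero_add, Derivation.leibniz_pow, h1, smul_comm,
    map_nsmul, nsmul_eq_mul, ((CharP.isUnit_natCast_iff Fact.out).2 h).mul_right_eq_zero,
    Nat.add_sub_cancel, smul_eq_mul, smul_eq_mul, ← mul_assoc,
    Finset.prod_erase_mul _ (fun j => Y j ^ β j) (Finset.mem_univ i)] at h3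
  exact h3

theorem Car.lcar_one (c : Car k A ι p) (Y : ι → A) :
    c.Φ ((∏ j, Y j ^ (p - 1)) * Jac c.der Y) = Jac c.der Y := by
  have hp : p.Prime := Fact.out
  have hp1 : p - 1 + 1 = p := Nat.sub_add_cancel hp.pos
  refine car_ind (T := c.T) (Q := fun Y => c.Φ ((∏ j, Y j ^ (p - 1)) * Jac c.der Y) = Jac c.der Y)
    (fun π => ?_) (fun Y b ih => ?_) Y
  · by_cases hπ : Function.Injective π
    · rw [(Finite.injective_iff_bijective.1 hπ).prod_comp fun j => c.T j ^ (p - 1), Jac, car_int,
        ← RingHom.map_det, eq_intCast, mul_comm, ← zsmul_eq_mul, map_zsmul, c.Φ_T, zsmul_eq_mul,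
        mul_one]
    · obtain ⟨i, j, e, hij⟩ := Function.not_injective_iff.1 hπ
      rw [car_eq (Y := fun j => c.T (π j)) _ hij (congrArg c.T e), mul_zero, map_zero]
  obtain ⟨D, hD⟩ := car_exD c.der Y b
  set E := ∏ j ∈ Finset.univ.erase b, Y j ^ (p - 1) with hE
  have h1 : ∀ (z : A) (n : ℕ), ∏ j, Function.update Y b z j ^ Function.update (fun _ => p - 1) b n j =
      E * z ^ n := fun z n => by
    rw [← Finset.prod_erase_mul _ _ (Finset.mem_univ b), Function.update_self, Function.update_self]
    congr 1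
    refine Finset.prod_congr rfl fun j hj => ?_
    rw [Function.update_of_ne (Finset.ne_of_mem_erase hj),
      Function.update_of_ne (Finset.ne_of_mem_erase hj)]
  have h2 : ∀ z : A, ∏ j, Function.update Y b z j ^ (p - 1) = E * z ^ (p - 1) := fun z => by
    have := h1 z (p - 1)
    rwa [Function.update_eq_self_iff.2 rfl] at this
  have h3 : ∀ h, c.Φ (E * D h) = 0 := fun h => by
    have := c.lcar_zero (Function.update Y b h) (Function.update (fun _ => p - 1) b 0) (i := b)
      (by rw [Function.update_self]; exact hp.not_dvd_one)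
    rwa [h1, pow_zero, mul_one, hD] at this
  have key : ∀ z, c.Φ (E * (z ^ (p - 1) * D z)) = D z := by
    refine car_gen c (fun g => ?_) (fun a => ?_) (fun f g hf hg => ?_) (fun f hf => ?_)
      fun f g hf hg => ?_
    · rw [car_pow, mul_zero, mul_zero, map_zero]
    · have := ih a
      rwa [h2, hD, mul_assoc] at this
    · obtain ⟨h, hh⟩ := car_defect D hp f g
      rw [hh, mul_add, mul_add, map_add, map_add, hf, hg, h3, add_zero, map_add]
    · have : E * ((-f) ^ (p - 1) * D (-f)) = (-1) ^ p * (E * (f ^ (p - 1) * D f)) := by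
        rw [map_neg, neg_pow, ← hp1, pow_succ, hp1]
        ring
      rw [this, c.Φ_mul, hf, map_neg, neg_one_mul]
    · have : E * ((f * g) ^ (p - 1) * D (f * g)) =
          f ^ p * (E * (g ^ (p - 1) * D g)) + g ^ p * (E * (f ^ (p - 1) * D f)) := by
        have a1 : ∀ x : A, x ^ p = x ^ (p - 1) * x := fun x => by rw [← pow_succ, hp1]
        rw [Derivation.leibniz, smul_eq_mul, smul_eq_mul, mul_pow, a1 f, a1 g]
        ring
      rw [this, map_add, c.Φ_mul, c.Φ_mul, hf, hg, Derivation.leibniz, smul_eq_mul, smul_eq_mul]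
  have := key (Y b)
  rwa [← mul_assoc, ← h2, ← hD, Function.update_eq_self] at this

end

end Pool.Agent.Lib.MP_bc213e_ag.DC
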