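import Pool.Agent.Lib.MP_bc213e_ag.DC.Car

/-! The Cartier operator on power series. -/

namespace Pool.Agent.Lib.MP_bc213e_ag.DC

open MvPowerSeries

noncomputable section

variable {k A ι σ ρ : Type}

section

variable [CommRing k] [CommRing A] [Algebra k A]

/-- A derivation applied to the coefficients. -/
def mapDer (σ : Type) (δ : Derivation k A A) :
    Derivation k (MvPowerSeries σ A) (MvPowerSeries σ A) where
  toFun f := fun α => δ (coeff α f)
  map_add' f g := by
    ext α
    exact map_add δ _ _
  map_smul' c f := by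
    ext α
    exact δ.map_smul c _
  map_one_eq_zero' := by
    classical
    ext α
    change δ (coeff α 1) = 0
    rw [coeff_one]
    split_ifs
    · exact δ.map_one_eq_zero
    · exact map_zero δ
  leibniz' f g := by
    classical
    ext α
    change δ (coeff α (f * g)) = coeff α (f * _ + g * _)
    rw [map_add, mul_comm g, coeff_mul, coeff_mul, coeff_mul, map_sum, ← Finset.sum_add_distrib]
    refine Finset.sum_congr rfl fun q _ => ?_
    rw [Derivation.leibniz, smul_eq_mul, smul_eq_mul, mul_comm (coeff q.2 g)]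
    rfl

theorem coeff_mapDer (δ : Derivation k A A) (f : MvPowerSeries σ A) (α : σ →₀ ℕ) :
    coeff α (mapDer σ δ f) = δ (coeff α f) := rfl

/-- The derivations of the power series ring: those of the coefficients and the new ones. -/
def psDer (σ : Type) (d : ι → Derivation k A A) :
    ι ⊕ σ → Derivation k (MvPowerSeries σ A) (MvPowerSeries σ A) :=
  Sum.elim (fun i => mapDer σ (d i)) fun s => (pderiv A s).restrictScalars k

instance charP_ps (p : ℕ) [CharP A p] : CharP (MvPowerSeries σ A) p :=
  charP_of_injective_ringHom (f := (C : A →+* MvPowerSeries σ A)) C_injective p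

end

/-- The constant exponent vector. -/
def cst (σ : Type) [Fintype σ] (n : ℕ) : σ →₀ ℕ := Finsupp.equivFunOnFinite.symm fun _ => n

@[simp] theorem cst_apply [Fintype σ] (n : ℕ) (s : σ) : cst σ n s = n := rfl

/-- The exponent `p (α + 1) - 1`. -/
def ex [Fintype σ] (p : ℕ) (α : σ →₀ ℕ) : σ →₀ ℕ := p • α + cst σ (p - 1)

theorem ex_apply [Fintype σ] (p : ℕ) (α : σ →₀ ℕ) (s : σ) : ex p α s = p * α s + (p - 1) := rfl

variable {p : ℕ} [Fact p.Prime]

theorem carps_coeff_pow [CommRing A] [CharP A p] (f : MvPowerSeries σ A) (a : σ →₀ ℕ) :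
    coeff (p • a) (f ^ p) = coeff a f ^ p := by
  have hp : p ≠ 0 := (Fact.out : p.Prime).ne_zero
  rw [← map_frobenius_expand p hp, coeff_map, coeff_expand_smul, frobenius_def]

theorem carps_coeff_pow_zero [CommRing A] [CharP A p] (f : MvPowerSeries σ A) {x : σ →₀ ℕ} {s : σ}
    (h : ¬ p ∣ x s) : coeff x (f ^ p) = 0 := by
  have hp : p ≠ 0 := (Fact.out : p.Prime).ne_zero
  rw [← map_frobenius_expand p hp, coeff_map, coeff_expand_of_not_dvd p hp f h, map_zero]

theorem carps_coeff_pow_mul [CommRing A] [CharP A p] [DecidableEq σ] (f g : MvPowerSeries σ A)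
    (α r : σ →₀ ℕ) (hr : ∀ s, r s < p) :
    coeff (p • α + r) (f ^ p * g) =
      ∑ q ∈ Finset.HasAntidiagonal.antidiagonal α,
        coeff q.1 f ^ p * coeff (p • q.2 + r) g := by
  have hp : 0 < p := (Fact.out : p.Prime).pos
  rw [coeff_mul]
  symm
  refine Finset.sum_of_injOn (fun q => (p • q.1, p • q.2 + r)) ?_ ?_ ?_ ?_
  · intro q _ q' _ h
    simp only [Prod.mk.injEq, add_left_inj] at h
    refine Prod.ext ?_ ?_
    · ext s
      have := DFunLike.congr_fun h.1 s
      simp only [Finsupp.smul_apply, smul_eq_mul] at this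
      exact Nat.eq_of_mul_eq_mul_left hp this
    · ext s
      have := DFunLike.congr_fun h.2 s
      simp only [Finsupp.smul_apply, smul_eq_mul] at this
      exact Nat.eq_of_mul_eq_mul_left hp this
  · intro q hq
    simp only [Finset.mem_coe, Finset.HasAntidiagonal.mem_antidiagonal] at hq ⊢
    rw [← hq, smul_add, add_assoc]
  · intro x hx hn
    by_cases hd : ∀ s, p ∣ x.1 s
    · exfalso
      apply hn
      rw [Finset.HasAntidiagonal.mem_antidiagonal] at hx
      let a : σ →₀ ℕ := x.1.mapRange (· / p) (Nat.zero_div p)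
      have ha : ∀ s, x.1 s = p * a s := fun s => (Nat.mul_div_cancel' (hd s)).symm
      have hx' : ∀ s, p * a s + x.2 s = p * α s + r s := fun s => by
        have := DFunLike.congr_fun hx s
        simp only [Finsupp.add_apply, Finsupp.smul_apply, smul_eq_mul] at this
        rw [← ha s, this]
      have hle : ∀ s, a s ≤ α s := fun s => by
        by_contra hlt
        have h1 : p * (α s + 1) ≤ p * a s := Nat.mul_le_mul_left p (by omega)
        have h2 := hx' s
        have h3 := hr s
        rw [mul_add, mul_one] at h1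
        omega
      refine ⟨(a, α - a), ?_, ?_⟩
      · simp only [Finset.mem_coe, Finset.HasAntidiagonal.mem_antidiagonal]
        ext s
        simp only [Finsupp.add_apply, Finsupp.tsub_apply]
        have := hle s
        omega
      · refine Prod.ext ?_ ?_
        · ext s
          simp only [Finsupp.smul_apply, smul_eq_mul]
          exact (ha s).symm
        · ext s
          simp only [Finsupp.add_apply, Finsupp.smul_apply, smul_eq_mul, Finsupp.tsub_apply]
          obtain ⟨d, hd'⟩ := Nat.exists_eq_add_of_le (hle s)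
          have h2 := hx' s
          rw [hd', mul_add] at h2
          rw [hd', Nat.add_sub_cancel_left]
          omega
    · push Not at hd
      obtain ⟨s, hs⟩ := hd
      rw [carps_coeff_pow_zero f hs, zero_mul]
  · intro q _
    rw [carps_coeff_pow]

/-- The exponent vector of a tuple of residues. -/
def carps_rr [Fintype σ] (r : σ → Fin p) : σ →₀ ℕ :=
  Finsupp.equivFunOnFinite.symm fun s => (r s : ℕ)

omit [Fact p.Prime] in
theorem carps_rr_apply [Fintype σ] (r : σ → Fin p) (s : σ) : carps_rr r s = (r s : ℕ) := rfl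

theorem carps_split [Fintype σ] (γ : σ →₀ ℕ) :
    ∃ (α : σ →₀ ℕ) (r : σ → Fin p), γ = p • α + carps_rr r := by
  have hp : 0 < p := (Fact.out : p.Prime).pos
  refine ⟨γ.mapRange (· / p) (Nat.zero_div p), fun s => ⟨γ s % p, Nat.mod_lt _ hp⟩, ?_⟩
  ext s
  simp only [Finsupp.add_apply, Finsupp.smul_apply, smul_eq_mul, carps_rr_apply,
    Finsupp.mapRange_apply]
  exact (Nat.div_add_mod _ _).symm

omit [Fact p.Prime] in
theorem carps_eq_iff [Fintype σ] (β : σ →₀ ℕ) (r r' : σ → Fin p) :
    p • β + carps_rr r = carps_rr r' ↔ β = 0 ∧ r = r' := by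
  constructor
  · intro h
    have h1 : ∀ s, p * β s + (r s : ℕ) = (r' s : ℕ) := fun s => by
      have := DFunLike.congr_fun h s
      simpa only [Finsupp.add_apply, Finsupp.smul_apply, smul_eq_mul, carps_rr_apply] using this
    have h2 : ∀ s, β s = 0 := fun s => by
      by_contra hne
      have h3 : p * 1 ≤ p * β s := Nat.mul_le_mul_left p (by omega)
      have h4 := h1 s
      have h5 := (r' s).2
      omega
    refine ⟨Finsupp.ext h2, funext fun s => Fin.ext ?_⟩
    have h4 := h1 s
    rw [h2 s] at h4
    omega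
  · rintro ⟨rfl, rfl⟩
    simp

theorem carps_prod_X [CommRing A] [Fintype σ] (e : σ →₀ ℕ) :
    (∏ s, (X s : MvPowerSeries σ A) ^ e s) = monomial e 1 := by
  simp only [X_pow_eq]
  rw [prod_monomial, Finset.prod_const_one, Finsupp.univ_sum_single]

theorem carps_gen_coeff [CommRing A] [CharP A p] [Fintype σ] [DecidableEq σ]
    (g : MvPowerSeries σ A) (t : A) (α : σ →₀ ℕ) (r r' : σ → Fin p) :
    coeff (p • α + carps_rr r) (g ^ p * (C t * monomial (carps_rr r') 1)) =
      if r = r' then coeff α g ^ p * t else 0 := by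
  rw [carps_coeff_pow_mul g _ α _ fun s => (r s).2]
  simp only [coeff_C_mul, coeff_monomial, carps_eq_iff]
  by_cases h : r = r'
  · rw [if_pos h]
    rw [Finset.sum_eq_single (α, 0)]
    · simp [h]
    · intro q hq hne
      rw [Finset.HasAntidiagonal.mem_antidiagonal] at hq
      have : q.2 ≠ 0 := fun h0 => hne (Prod.ext (by simpa [h0] using hq) h0)
      simp [this]
    · intro hn
      exact absurd (by simp) hn
  · simp [h]

theorem exists_ps [CommRing k] [CommRing A] [Algebra k A] [Fintype ι] [DecidableEq ι] [CharP A p]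
    (c : Car k A ι p) (σ : Type) [Fintype σ] [DecidableEq σ] :
    ∃ c' : Car k (MvPowerSeries σ A) (ι ⊕ σ) p, c'.der = psDer σ c.der ∧
      ∀ f α, coeff α (c'.Φ f) = c.Φ (coeff (ex p α) f) := by
  have hp : 0 < p := (Fact.out : p.Prime).pos
  obtain ⟨B, hB, t, ht, hg⟩ := c.gen
  choose G hG using hg
  let Φ' : MvPowerSeries σ A →+ MvPowerSeries σ A :=
    { toFun := fun f α => c.Φ (coeff (ex p α) f)
      map_zero' := by
        ext α
        exact map_zero c.Φ
      map_add' := fun f g => by
        ext α
        exact map_add c.Φ _ _ }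
  have hΦ : ∀ f α, coeff α (Φ' f) = c.Φ (coeff (ex p α) f) := fun _ _ => rfl
  let T' : ι ⊕ σ → MvPowerSeries σ A := Sum.elim (fun i => C (c.T i)) X
  have h1 : ∀ i j, psDer σ c.der i (T' j) = if i = j then 1 else 0 := by
    rintro (i | i) (j | j)
    · ext α
      change c.der i (coeff α (C (c.T j))) = _
      simp only [Sum.inl.injEq, coeff_C]
      by_cases h0 : α = 0
      · rw [if_pos h0, c.der_T]
        split_ifs <;> simp [h0]
      · rw [if_neg h0, map_zero]
        split_ifs <;> simp [coeff_one, h0]
    · ext α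
      change c.der i (coeff α (X j)) = _
      rw [if_neg Sum.inl_ne_inr, coeff_X]
      split_ifs
      · rw [Derivation.map_one_eq_zero, map_zero]
      · rw [map_zero, map_zero]
    · rw [if_neg Sum.inr_ne_inl]
      exact pderiv_C
    · change pderiv A i (X j) = _
      simp only [Sum.inr.injEq]
      split_ifs with h
      · rw [h, pderiv_X_self]
      · exact pderiv_X_of_ne (Ne.symm h)
  have h2 : ∀ f g, Φ' (f ^ p * g) = f * Φ' g := by
    intro f g
    ext α
    rw [hΦ, ex, carps_coeff_pow_mul f g α _ fun s => (by rw [cst_apply]; omega), map_sum,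
      coeff_mul]
    refine Finset.sum_congr rfl fun q _ => ?_
    rw [c.Φ_mul, hΦ, ex]
  have h3 : ∀ i f, Φ' (psDer σ c.der i f) = 0 := by
    rintro (i | s) f
    · ext α
      rw [hΦ, map_zero]
      exact c.Φ_der i _
    · ext α
      rw [hΦ, map_zero]
      change c.Φ (coeff (ex p α) (pderiv A s f)) = 0
      have h0 : ((ex p α s : ℕ) : A) + 1 = 0 := by
        have : ex p α s + 1 = p * (α s + 1) := by
          rw [ex_apply, mul_add]
          omega
        rw [← Nat.cast_succ, Nat.succ_eq_add_one, this, Nat.cast_mul, CharP.cast_eq_zero,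
          zero_mul]
      rw [coeff_pderiv, h0, mul_zero, map_zero]
  have h4 : Φ' (∏ i, T' i ^ (p - 1)) = 1 := by
    ext α
    have e1 : (∏ i, T' i ^ (p - 1)) =
        C (∏ i, c.T i ^ (p - 1)) * monomial (cst σ (p - 1)) 1 := by
      rw [Fintype.prod_sum_type, map_prod, ← carps_prod_X]
      simp only [T', Sum.elim_inl, Sum.elim_inr, map_pow, cst_apply]
    rw [hΦ, e1, coeff_C_mul, coeff_monomial, coeff_one]
    have e2 : ex p α = cst σ (p - 1) ↔ α = 0 := by
      rw [ex, add_eq_right]
      constructor
      · intro h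
        ext s
        have := DFunLike.congr_fun h s
        simp only [Finsupp.smul_apply, smul_eq_mul, Finsupp.coe_zero, Pi.zero_apply,
          mul_eq_zero] at this
        rcases this with h' | h'
        · omega
        · simpa using h'
      · rintro rfl
        simp
    simp only [e2]
    split_ifs
    · rw [mul_one, c.Φ_T]
    · rw [mul_zero, map_zero]
  have h5 : ∀ x : B × (σ → Fin p), (C (t x.1) * monomial (carps_rr x.2) 1 : MvPowerSeries σ A) ∈
      Subring.closure (Set.range T') := by
    rintro ⟨b, r⟩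
    refine Subring.mul_mem _ ?_ ?_
    · have hle : Subring.closure (Set.range c.T) ≤
          (Subring.closure (Set.range T')).comap (C : A →+* MvPowerSeries σ A) := by
        rw [Subring.closure_le]
        rintro _ ⟨i, rfl⟩
        exact Subring.subset_closure ⟨Sum.inl i, rfl⟩
      exact hle (ht b)
    · rw [← carps_prod_X]
      exact Subring.prod_mem _ fun s _ =>
        Subring.pow_mem _ (Subring.subset_closure (s := Set.range T') ⟨Sum.inr s, rfl⟩) _
  have h6 : ∀ f : MvPowerSeries σ A, ∃ g : B × (σ → Fin p) → MvPowerSeries σ A,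
      f = ∑ x, g x ^ p * (C (t x.1) * monomial (carps_rr x.2) 1) := by
    intro f
    let g : B × (σ → Fin p) → MvPowerSeries σ A :=
      fun x α => G (coeff (p • α + carps_rr x.2) f) x.1
    have hg : ∀ x α, coeff α (g x) = G (coeff (p • α + carps_rr x.2) f) x.1 := fun _ _ => rfl
    refine ⟨g, ?_⟩
    ext γ
    obtain ⟨α, r, rfl⟩ := carps_split (p := p) γ
    rw [map_sum, Fintype.sum_prod_type]
    simp only [carps_gen_coeff, Finset.sum_ite_eq, Finset.mem_univ, if_true, hg]
    exact hG _
  exact ⟨⟨psDer σ c.der, T', Φ', h1, h2, h3, h4, B × (σ → Fin p), inferInstance, _, h5, h6⟩,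
    rfl, hΦ⟩

theorem exists_base (k : Type) [Field k] [CharP k p] [PerfectRing k p] (ρ : Type) [Fintype ρ]
    [DecidableEq ρ] : ∃ c : Car k (MvPowerSeries ρ k) ρ p, (c.der = fun i => pderiv k i) ∧
      ∀ f β, coeff β (c.Φ f) ^ p = coeff (ex p β) f := by
  let c0 : Car k k Empty p :=
    { der := fun i => i.elim
      T := fun i => i.elim
      Φ := ((frobeniusEquiv k p).symm : k →+* k)
      der_T := fun i => i.elim
      Φ_mul := fun f g => by
        change (frobeniusEquiv k p).symm (f ^ p * g) = f * (frobeniusEquiv k p).symm g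
        rw [map_mul, frobeniusEquiv_symm_pow]
      Φ_der := fun i => i.elim
      Φ_T := by
        change (frobeniusEquiv k p).symm _ = 1
        simp
      gen := ⟨Unit, inferInstance, fun _ => 1, fun _ => Subring.one_mem _, fun f =>
        ⟨fun _ => (frobeniusEquiv k p).symm f, by simp [frobeniusEquiv_symm_pow_p]⟩⟩ }
  obtain ⟨c, hd, hΦ⟩ := exists_ps c0 ρ
  have hr : Set.range (fun i : ρ => c.T (Sum.inr i)) = Set.range c.T := by
    ext y
    constructor
    · rintro ⟨i, rfl⟩
      exact ⟨_, rfl⟩
    · rintro ⟨i | i, rfl⟩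
      · exact i.elim
      · exact ⟨i, rfl⟩
  refine ⟨⟨fun i => c.der (Sum.inr i), fun i => c.T (Sum.inr i), c.Φ, fun i j => ?_, c.Φ_mul,
    fun i => c.Φ_der _, ?_, ?_⟩, ?_, fun f β => ?_⟩
  · rw [c.der_T]
    simp only [Sum.inr.injEq]
  · have := c.Φ_T
    rw [Fintype.prod_sum_type] at this
    simpa using this
  · rw [hr]
    exact c.gen
  · funext i
    change c.der (Sum.inr i) = _
    rw [hd]
    ext f
    rfl
  · change coeff β (c.Φ f) ^ p = _
    rw [hΦ]
    change (frobeniusEquiv k p).symm _ ^ p = _
    rw [frobeniusEquiv_symm_pow_p]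

end

end Pool.Agent.Lib.MP_bc213e_ag.DC
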