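import Pool.Agent.Lib.MP_bc213e_ag.DC.CarPS

/-! Reduction of power series to positive characteristic. -/

namespace Pool.Agent.Lib.MP_bc213e_ag.DC

open MvPowerSeries Filter

noncomputable section

/-- Power series in two groups of variables. -/
abbrev SS (R ρ σ : Type) : Type := MvPowerSeries σ (MvPowerSeries ρ R)

/-- The derivatives with respect to the variables. -/
def dS (R ρ σ : Type) [CommRing R] : ρ ⊕ σ → Derivation R (SS R ρ σ) (SS R ρ σ) :=
  psDer σ fun i => pderiv R i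

/-- A homomorphism from a subring of `Ω` to a perfect field of positive characteristic. -/
structure Rd (Ω : Type) [Field Ω] where
  Λ : Subring Ω
  k : Type
  [fld : Field k]
  p : ℕ
  [pr : Fact p.Prime]
  [ch : CharP k p]
  [pf : PerfectRing k p]
  ψ : Λ →+* k

attribute [instance] Rd.fld Rd.pr Rd.ch Rd.pf

/-- Reductions that are defined on a large subring. -/
def RF (Ω : Type) [Field Ω] : Filter (Rd Ω) := ⨅ x : Ω, 𝓟 {r | x ∈ r.Λ}

variable {Ω ρ σ ι : Type} [Field Ω]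

theorem ev_mem (x : Ω) : ∀ᶠ r in RF Ω, x ∈ r.Λ := mem_iInf_of_mem x (mem_principal_self _)

/-- The series with coefficients in `Λ`. -/
def IS (Λ : Subring Ω) : Subring (SS Ω ρ σ) := (map (map Λ.subtype)).range

theorem mem_IS {Λ : Subring Ω} {f : SS Ω ρ σ} :
    f ∈ IS Λ ↔ ∀ α β, coeff β (coeff α f) ∈ Λ :=
  ⟨by
    rintro ⟨g, rfl⟩ α β
    exact (coeff β (coeff α g)).2, fun h => ⟨fun α β => ⟨_, h α β⟩, rfl⟩⟩

theorem smul_mem_IS {Λ : Subring Ω} {c : Ω} (hc : c ∈ Λ) {f : SS Ω ρ σ} (hf : f ∈ IS Λ) :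
    c • f ∈ IS Λ := mem_IS.2 fun α β => Λ.mul_mem hc (mem_IS.1 hf α β)

theorem algebraMap_mem_IS {Λ : Subring Ω} {c : Ω} (hc : c ∈ Λ) :
    algebraMap Ω (SS Ω ρ σ) c ∈ IS Λ := by
  rw [Algebra.algebraMap_eq_smul_one]
  exact smul_mem_IS hc (one_mem _)

/-- The series with coefficients in a finitely generated ring. -/
def Good (Ω ρ σ : Type) [Field Ω] : Subalgebra Ω (SS Ω ρ σ) where
  carrier := {f | ∀ᶠ r in RF Ω, f ∈ IS r.Λ}
  mul_mem' := fun hf hg => by
    filter_upwards [hf, hg] with r h1 h2 using mul_mem h1 h2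
  add_mem' := fun hf hg => by
    filter_upwards [hf, hg] with r h1 h2 using add_mem h1 h2
  algebraMap_mem' c := (ev_mem c).mono fun _ h => algebraMap_mem_IS h

theorem mem_Good {f : SS Ω ρ σ} : f ∈ Good Ω ρ σ ↔ ∀ᶠ r in RF Ω, f ∈ IS r.Λ := Iff.rfl

theorem red_pderiv_map {R S τ : Type} [CommRing R] [CommRing S] (φ : R →+* S) (i : τ)
    (f : MvPowerSeries τ R) : pderiv S i (map φ f) = map φ (pderiv R i f) := by
  ext α
  rw [coeff_pderiv, coeff_map, coeff_map, coeff_pderiv, map_mul, map_add, map_natCast, map_one]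

theorem red_dS_map {R S : Type} [CommRing R] [CommRing S] (φ : R →+* S) (i : ρ ⊕ σ)
    (f : SS R ρ σ) : dS S ρ σ i (map (map φ) f) = map (map φ) (dS R ρ σ i f) := by
  rcases i with i | i
  · refine MvPowerSeries.ext fun α => ?_
    exact red_pderiv_map φ i (coeff α f)
  · exact red_pderiv_map (map φ) i f

theorem red_Jac_map {R S : Type} [CommRing R] [CommRing S] (φ : R →+* S) [Fintype ρ]
    [DecidableEq ρ] [Fintype σ] [DecidableEq σ] (Y : ρ ⊕ σ → SS R ρ σ) :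
    Jac (dS S ρ σ) (fun i => map (map φ) (Y i)) = map (map φ) (Jac (dS R ρ σ) Y) := by
  unfold Jac
  rw [RingHom.map_det]
  congr 1
  exact Matrix.ext fun a b => red_dS_map φ a (Y b)

theorem red_JacI_map {R S : Type} [CommRing R] [CommRing S] (φ : R →+* S) [Fintype ρ]
    [DecidableEq ρ] (Y : ρ → MvPowerSeries ρ R) :
    Jac (fun i => pderiv S i) (fun i => map φ (Y i)) = map φ (Jac (fun i => pderiv R i) Y) := by
  unfold Jac
  rw [RingHom.map_det]
  congr 1
  exact Matrix.ext fun a b => red_pderiv_map φ a (Y b)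

theorem red_aeval_map {R S : Type} [CommRing R] [CommRing S] (φ : R →+* S) (Z : ι → SS R ρ σ)
    (Q : MvPolynomial ι R) :
    MvPolynomial.aeval (fun i => map (map φ) (Z i) : ι → SS S ρ σ) (MvPolynomial.map φ Q) =
      map (map φ) (MvPolynomial.aeval Z Q) := by
  induction Q using MvPolynomial.induction_on with
  | C a =>
    rw [MvPolynomial.map_C, MvPolynomial.aeval_C, MvPolynomial.aeval_C]
    rw [MvPowerSeries.algebraMap_apply, MvPowerSeries.algebraMap_apply,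
      MvPowerSeries.algebraMap_apply, MvPowerSeries.algebraMap_apply, map_C, map_C]
    rfl
  | add p q hp hq => rw [map_add, map_add, map_add, map_add, hp, hq]
  | mul_X p i hp =>
    rw [map_mul, map_mul, map_mul, map_mul, hp, MvPolynomial.map_X, MvPolynomial.aeval_X,
      MvPolynomial.aeval_X]

theorem red_liftP {Λ : Subring Ω} {P : MvPolynomial ι Ω} (hP : ∀ m, P.coeff m ∈ Λ) :
    ∃ Q : MvPolynomial ι Λ, MvPolynomial.map Λ.subtype Q = P :=
  MvPolynomial.mem_range_map_iff_coeffs_subset.2 fun a ha => by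
    obtain ⟨m, -, rfl⟩ := MvPolynomial.mem_coeffs_iff.1 ha
    exact ⟨⟨_, hP m⟩, rfl⟩

namespace Rd

variable (r : Rd Ω)

open Classical in
/-- The reduction of a scalar. -/
def sc (x : Ω) : r.k := if h : x ∈ r.Λ then r.ψ ⟨x, h⟩ else 0

/-- The reduction of a series. -/
def red (f : SS Ω ρ σ) : SS r.k ρ σ := fun α β => r.sc (coeff β (coeff α f))

theorem coeff_red (f : SS Ω ρ σ) (α : σ →₀ ℕ) (β : ρ →₀ ℕ) :
    coeff β (coeff α (r.red f)) = r.sc (coeff β (coeff α f)) := rfl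

/-- The reduction of a space of series. -/
def redS (W : Submodule Ω (SS Ω ρ σ)) : Submodule r.k (SS r.k ρ σ) :=
  Submodule.span r.k (r.red '' {f | f ∈ W ∧ f ∈ IS r.Λ})

/-- The reduction of a polynomial. -/
def redP (P : MvPolynomial ι Ω) : MvPolynomial ι r.k :=
  ∑ m ∈ P.support, MvPolynomial.monomial m (r.sc (P.coeff m))

theorem sc_coe (x : r.Λ) : r.sc x = r.ψ x := dif_pos x.2

theorem sc_zero : r.sc 0 = 0 := (r.sc_coe 0).trans (map_zero _)

theorem sc_one : r.sc 1 = 1 := (r.sc_coe 1).trans (map_one _)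

theorem red_map (g : SS r.Λ ρ σ) : r.red (map (map r.Λ.subtype) g) = map (map r.ψ) g := by
  ext α β
  exact r.sc_coe (coeff β (coeff α g))

theorem red_mem_redS {W : Submodule Ω (SS Ω ρ σ)} {f : SS Ω ρ σ} (h : f ∈ W) (hf : f ∈ IS r.Λ) :
    r.red f ∈ r.redS W := Submodule.subset_span ⟨f, ⟨h, hf⟩, rfl⟩

theorem redS_mono {W W' : Submodule Ω (SS Ω ρ σ)} (h : W ≤ W') : r.redS W ≤ r.redS W' :=
  Submodule.span_mono (Set.image_mono fun _ hf => ⟨h hf.1, hf.2⟩)

theorem red_zero : r.red (0 : SS Ω ρ σ) = 0 := by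
  simpa using r.red_map (0 : SS r.Λ ρ σ)

theorem red_one : r.red (1 : SS Ω ρ σ) = 1 := by
  simpa using r.red_map (1 : SS r.Λ ρ σ)

variable {r} {f g : SS Ω ρ σ}

theorem sc_add {x y : Ω} (hx : x ∈ r.Λ) (hy : y ∈ r.Λ) : r.sc (x + y) = r.sc x + r.sc y := by
  have := r.sc_coe (⟨x, hx⟩ + ⟨y, hy⟩)
  rw [map_add, ← r.sc_coe, ← r.sc_coe] at this
  exact this

theorem sc_mul {x y : Ω} (hx : x ∈ r.Λ) (hy : y ∈ r.Λ) : r.sc (x * y) = r.sc x * r.sc y := by
  have := r.sc_coe (⟨x, hx⟩ * ⟨y, hy⟩)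
  rw [map_mul, ← r.sc_coe, ← r.sc_coe] at this
  exact this

theorem sc_sum {T : Type} (s : Finset T) {x : T → Ω} (hx : ∀ t ∈ s, x t ∈ r.Λ) :
    r.sc (∑ t ∈ s, x t) = ∑ t ∈ s, r.sc (x t) := by
  classical
  induction s using Finset.induction_on with
  | empty => simpa using r.sc_zero
  | insert a s ha ih =>
    rw [Finset.sum_insert ha, Finset.sum_insert ha, sc_add (hx a (Finset.mem_insert_self _ _))
      (sum_mem fun t ht => hx t (Finset.mem_insert_of_mem ht)),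
      ih fun t ht => hx t (Finset.mem_insert_of_mem ht)]

theorem red_add (hf : f ∈ IS r.Λ) (hg : g ∈ IS r.Λ) : r.red (f + g) = r.red f + r.red g := by
  obtain ⟨f0, rfl⟩ := hf
  obtain ⟨g0, rfl⟩ := hg
  rw [← map_add, red_map, red_map, red_map, map_add]

theorem red_sub (hf : f ∈ IS r.Λ) (hg : g ∈ IS r.Λ) : r.red (f - g) = r.red f - r.red g := by
  obtain ⟨f0, rfl⟩ := hf
  obtain ⟨g0, rfl⟩ := hg
  rw [← map_sub, red_map, red_map, red_map, map_sub]

theorem red_mul (hf : f ∈ IS r.Λ) (hg : g ∈ IS r.Λ) : r.red (f * g) = r.red f * r.red g := by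
  obtain ⟨f0, rfl⟩ := hf
  obtain ⟨g0, rfl⟩ := hg
  rw [← map_mul, red_map, red_map, red_map, map_mul]

theorem red_pow (hf : f ∈ IS r.Λ) (n : ℕ) : r.red (f ^ n) = r.red f ^ n := by
  obtain ⟨f0, rfl⟩ := hf
  rw [← map_pow, red_map, red_map, map_pow]

theorem red_smul {c : Ω} (hc : c ∈ r.Λ) (hf : f ∈ IS r.Λ) :
    r.red (c • f) = r.sc c • r.red f := by
  ext α β
  exact sc_mul hc (mem_IS.1 hf α β)

theorem red_sum {T : Type} (s : Finset T) {F : T → SS Ω ρ σ} (h : ∀ t ∈ s, F t ∈ IS r.Λ) :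
    r.red (∑ t ∈ s, F t) = ∑ t ∈ s, r.red (F t) := by
  classical
  induction s using Finset.induction_on with
  | empty => simpa using r.red_zero
  | insert a s ha ih =>
    rw [Finset.sum_insert ha, Finset.sum_insert ha, red_add (h a (Finset.mem_insert_self _ _))
      (sum_mem fun t ht => h t (Finset.mem_insert_of_mem ht)),
      ih fun t ht => h t (Finset.mem_insert_of_mem ht)]

theorem red_prod {T : Type} (s : Finset T) {F : T → SS Ω ρ σ} (h : ∀ t ∈ s, F t ∈ IS r.Λ) :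
    r.red (∏ t ∈ s, F t) = ∏ t ∈ s, r.red (F t) := by
  classical
  induction s using Finset.induction_on with
  | empty => simpa using r.red_one
  | insert a s ha ih =>
    rw [Finset.prod_insert ha, Finset.prod_insert ha, red_mul (h a (Finset.mem_insert_self _ _))
      (prod_mem fun t ht => h t (Finset.mem_insert_of_mem ht)),
      ih fun t ht => h t (Finset.mem_insert_of_mem ht)]

theorem red_C_coeff (f : SS Ω ρ σ) (α : σ →₀ ℕ) :
    r.red (C (coeff α f) : SS Ω ρ σ) = C (coeff α (r.red f)) := by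
  classical
  ext γ β
  rw [coeff_red, coeff_C, coeff_C]
  split_ifs
  · rfl
  · exact r.sc_zero

theorem red_dS (hf : f ∈ IS r.Λ) (i : ρ ⊕ σ) :
    dS Ω ρ σ i f ∈ IS r.Λ ∧ r.red (dS Ω ρ σ i f) = dS r.k ρ σ i (r.red f) := by
  obtain ⟨f0, rfl⟩ := hf
  rw [red_dS_map]
  exact ⟨⟨_, rfl⟩, by rw [red_map, red_map, red_dS_map]⟩

theorem red_Jac [Fintype ρ] [DecidableEq ρ] [Fintype σ] [DecidableEq σ] {Y : ρ ⊕ σ → SS Ω ρ σ}
    (h : ∀ i, Y i ∈ IS r.Λ) :
    r.red (Jac (dS Ω ρ σ) Y) = Jac (dS r.k ρ σ) fun i => r.red (Y i) := by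
  choose Y0 hY using h
  obtain rfl : Y = fun i => map (map r.Λ.subtype) (Y0 i) := funext fun i => (hY i).symm
  simp only [red_map]
  rw [red_Jac_map, red_Jac_map, red_map]

/-- The Jacobian of series in the inner variables. -/
theorem red_JacI [Fintype ρ] [DecidableEq ρ] {z : ρ → MvPowerSeries ρ Ω}
    (h : ∀ i, (C (z i) : SS Ω ρ σ) ∈ IS r.Λ) :
    (C (Jac (fun i => pderiv Ω i) z) : SS Ω ρ σ) ∈ IS r.Λ ∧
    r.red (C (Jac (fun i => pderiv Ω i) z) : SS Ω ρ σ) = C (Jac (fun i => pderiv r.k i)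
      fun i => constantCoeff (r.red (C (z i) : SS Ω ρ σ))) := by
  have hz : ∀ i, ∃ z0 : MvPowerSeries ρ r.Λ, map r.Λ.subtype z0 = z i := fun i => by
    obtain ⟨g, hg⟩ := h i
    refine ⟨constantCoeff g, ?_⟩
    have := congrArg constantCoeff hg
    rwa [constantCoeff_map, constantCoeff_C] at this
  choose z0 hz0 using hz
  obtain rfl : z = fun i => map r.Λ.subtype (z0 i) := funext fun i => (hz0 i).symm
  simp only [← map_C, red_map, constantCoeff_map, constantCoeff_C]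
  rw [red_JacI_map, red_JacI_map, ← map_C, ← map_C]
  exact ⟨⟨_, rfl⟩, red_map _ _⟩

theorem red_redP_map (Q : MvPolynomial ι r.Λ) :
    r.redP (MvPolynomial.map r.Λ.subtype Q) = MvPolynomial.map r.ψ Q := by
  classical
  ext m
  rw [redP, MvPolynomial.coeff_sum, MvPolynomial.coeff_map, ← r.sc_coe]
  simp only [MvPolynomial.coeff_monomial]
  rw [Finset.sum_ite_eq']
  split_ifs with h
  · rw [MvPolynomial.coeff_map]
    rfl
  · have := MvPolynomial.notMem_support_iff.1 h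
    rw [MvPolynomial.coeff_map] at this
    rw [show ((MvPolynomial.coeff m Q : r.Λ) : Ω) = 0 from this, r.sc_zero]

theorem redP_deg (P : MvPolynomial ι Ω) : (r.redP P).totalDegree ≤ P.totalDegree := by
  refine MvPolynomial.totalDegree_finsetSum_le fun m hm => ?_
  exact (MvPolynomial.totalDegree_monomial_le _ _).trans (MvPolynomial.le_totalDegree hm)

theorem redP_pderiv {P : MvPolynomial ι Ω} (hP : ∀ m, P.coeff m ∈ r.Λ) (i : ι) :
    (∀ m, (MvPolynomial.pderiv i P).coeff m ∈ r.Λ) ∧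
      r.redP (MvPolynomial.pderiv i P) = MvPolynomial.pderiv i (r.redP P) := by
  obtain ⟨Q, rfl⟩ := red_liftP hP
  rw [MvPolynomial.pderiv_map, red_redP_map, red_redP_map, MvPolynomial.pderiv_map]
  exact ⟨fun m => by rw [MvPolynomial.coeff_map]; exact Subtype.prop _, rfl⟩

theorem red_aeval {P : MvPolynomial ι Ω} (hP : ∀ m, P.coeff m ∈ r.Λ) {Z : ι → SS Ω ρ σ}
    (hZ : ∀ i, Z i ∈ IS r.Λ) : MvPolynomial.aeval Z P ∈ IS r.Λ ∧
      r.red (MvPolynomial.aeval Z P) = MvPolynomial.aeval (fun i => r.red (Z i)) (r.redP P) := by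
  obtain ⟨Q, rfl⟩ := red_liftP hP
  choose Z0 hZ0 using hZ
  obtain rfl : Z = fun i => map (map r.Λ.subtype) (Z0 i) := funext fun i => (hZ0 i).symm
  simp only [red_map]
  rw [red_redP_map, red_aeval_map, red_aeval_map]
  exact ⟨⟨_, rfl⟩, red_map _ _⟩

end Rd

theorem C_coeff_mem_IS {Λ : Subring Ω} {f : SS Ω ρ σ} (hf : f ∈ IS Λ) (α : σ →₀ ℕ) :
    (C (coeff α f) : SS Ω ρ σ) ∈ IS Λ := by
  obtain ⟨g, rfl⟩ := hf
  exact ⟨C (coeff α g), by rw [map_C, coeff_map]⟩

theorem ev_coeff (P : MvPolynomial ι Ω) : ∀ᶠ r in RF Ω, ∀ m, P.coeff m ∈ r.Λ := by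
  filter_upwards [(eventually_all_finset P.support).2 fun m _ => ev_mem (P.coeff m)] with r h m
  by_cases hm : m ∈ P.support
  · exact h m hm
  · rw [MvPolynomial.notMem_support_iff.1 hm]
    exact zero_mem _

theorem ev_sc_ne {x : Ω} (h : x ≠ 0) : ∀ᶠ r in RF Ω, r.sc x ≠ 0 := by
  filter_upwards [ev_mem x, ev_mem x⁻¹] with r h1 h2 h0
  have := Rd.sc_mul h1 h2
  rw [mul_inv_cancel₀ h, h0, zero_mul, r.sc_one] at this
  exact one_ne_zero this

theorem ev_ne {f : SS Ω ρ σ} (h : f ≠ 0) : ∀ᶠ r in RF Ω, r.red f ≠ 0 := by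
  obtain ⟨α, β, hc⟩ : ∃ α β, coeff β (coeff α f) ≠ 0 := by
    by_contra hn
    push Not at hn
    exact h (by ext α β; exact hn α β)
  filter_upwards [ev_sc_ne hc] with r h1 h0
  exact h1 (by rw [← r.coeff_red, h0]; rfl)

theorem ev_unit {f : SS Ω ρ σ} (h : IsUnit f) : ∀ᶠ r in RF Ω, IsUnit (r.red f) := by
  rw [isUnit_iff_constantCoeff, isUnit_iff_constantCoeff] at h
  filter_upwards [ev_sc_ne h.ne_zero] with r h1
  rw [isUnit_iff_constantCoeff, isUnit_iff_constantCoeff]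
  exact Ne.isUnit h1

theorem ev_large [CharZero Ω] (N : ℕ) : ∀ᶠ r in RF Ω, N < r.p := by
  filter_upwards [ev_sc_ne (x := (N.factorial : Ω)) (Nat.cast_ne_zero.2 N.factorial_ne_zero)]
    with r h
  by_contra hn
  apply h
  have := r.sc_coe (N.factorial : r.Λ)
  rw [map_natCast, (CharP.cast_eq_zero_iff r.k r.p _).2
    (r.pr.out.dvd_factorial.2 (not_lt.1 hn))] at this
  simpa using this

theorem red_int_jacobson : IsJacobsonRing ℤ := by
  rw [isJacobsonRing_iff_prime_eq]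
  intro P hP
  by_cases h : P = ⊥
  · subst h
    rw [eq_bot_iff]
    intro x hx
    have := Ideal.mem_jacobson_bot.1 hx x
    rw [Int.isUnit_iff] at this
    have h0 : x = 0 := by rcases this with h | h <;> nlinarith
    simp [h0]
  · have : P.IsMaximal := Ring.DimensionLEOne.maximalOfPrime h hP
    exact Ideal.jacobson_eq_self_of_isMaximal

theorem red_mk (Λ : Subring Ω) (K : Type) [Field K] (p : ℕ) [Fact p.Prime] [CharP K p]
    (ψ : Λ →+* K) : ∃ r : Rd Ω, r.Λ = Λ :=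
  ⟨Rd.mk Λ (AlgebraicClosure K) p ((algebraMap K (AlgebraicClosure K)).comp ψ), rfl⟩

/-- A finitely generated ring has a finite field as a quotient. -/
theorem RF_neBot (Ω : Type) [Field Ω] : (RF Ω).NeBot := by
  classical
  refine (hasBasis_iInf_principal_finite _).neBot_iff.2 fun {t} ht => ?_
  let A : Subalgebra ℤ Ω := Algebra.adjoin ℤ (ht.toFinset : Set Ω)
  have hA : Algebra.FiniteType ℤ A :=
    (Subalgebra.fg_iff_finiteType A).1 (Subalgebra.fg_adjoin_finset _)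
  obtain ⟨𝔪, h𝔪⟩ := Ideal.exists_maximal A
  let _ : Field (A ⧸ 𝔪) := Ideal.Quotient.field 𝔪
  have hF : Algebra.FiniteType ℤ (A ⧸ 𝔪) :=
    Algebra.FiniteType.of_surjective (Ideal.Quotient.mkₐ ℤ 𝔪) (Ideal.Quotient.mkₐ_surjective ℤ 𝔪)
  have hJ := red_int_jacobson
  have hfin : Module.Finite ℤ (A ⧸ 𝔪) := finite_of_finite_type_of_isJacobsonRing ℤ (A ⧸ 𝔪)
  obtain ⟨p, hp⟩ := CharP.exists (A ⧸ 𝔪)
  have hp0 : p ≠ 0 := by
    rintro rfl
    have : CharZero (A ⧸ 𝔪) := CharP.charP_to_charZero (A ⧸ 𝔪)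
    exact Int.not_isField (isField_of_isIntegral_of_isField (R := ℤ) (S := A ⧸ 𝔪)
      (RingHom.injective_int _) (Field.toIsField _))
  have hpp : p.Prime := (CharP.char_is_prime_or_zero (A ⧸ 𝔪) p).resolve_right hp0
  have : Fact p.Prime := ⟨hpp⟩
  obtain ⟨r, hr⟩ := red_mk A.toSubring (A ⧸ 𝔪) p (Ideal.Quotient.mk 𝔪)
  refine ⟨r, Set.mem_iInter₂.2 fun a ha => ?_⟩
  rw [Set.mem_ofPred_eq, hr]
  exact Algebra.subset_adjoin (ht.mem_toFinset.2 ha)

end

end Pool.Agent.Lib.MP_bc213e_ag.DC
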