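import Pool.Agent.Lib.MP_bc213e_ag.DC.Mdl
import Pool.Agent.Lib.MP_bc213e_ag.DC.Red
import Pool.Agent.Lib.MP_bc213e_ag.Jet.Fil

/-! The data at a point, in terms of power series. -/

namespace Pool.Agent.Lib.MP_bc213e_ag.DC

open MvPowerSeries Jet

noncomputable section

/-- A model in power series together with the spaces of sections. -/
structure Dat (Ω ρ σ J Cc : Type) [Field Ω] [Fintype ρ] [DecidableEq ρ] [Fintype σ]
    [DecidableEq σ] where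
  M : Mdl Ω (SS Ω ρ σ) (ρ ⊕ σ) J Cc
  sec : ℕ → ℕ → Submodule Ω (SS Ω ρ σ)
  ok : M.OK (dS Ω ρ σ)
  gY : ∀ i, M.Y i ∈ Good Ω ρ σ
  gw : M.w ∈ Good Ω ρ σ
  gθ : M.θ ∈ Good Ω ρ σ
  gκ : M.κ ∈ Good Ω ρ σ
  gth : ∀ c, M.th c ∈ Good Ω ρ σ
  gsg : ∀ c, M.sg c ∈ Good Ω ρ σ
  gga : ∀ j, M.ga j ∈ Good Ω ρ σ
  fd : ∀ i a, FiniteDimensional Ω (sec i a)
  gsec : ∀ i a, ∀ s ∈ sec i a, s ∈ Good Ω ρ σ
  inn : ∀ i a, sec i a ≤ M.Sc i a
  out : ∀ i a, ∀ y ∈ PL Ω M.Z (a + i * M.e + M.D),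
    (∀ j c, ∃ z ∈ PL Ω M.Z (a + i * M.e + M.D), y * (M.ga j ^ i * M.th c) = z * M.th M.c0) →
    ∃ s ∈ sec i a, y = s * M.th M.c0

variable {Ω ρ σ J Cc : Type} [Field Ω] [Fintype ρ] [DecidableEq ρ] [Fintype σ] [DecidableEq σ]

/-- The expansions of the sections on the total space. -/
def Dat.UU (T : Dat Ω ρ σ J Cc) (m a : ℕ) : Submodule Ω (SS Ω ρ σ) :=
  T.M.tot (fun i => T.sec i a) m

/-- The reduction of a model. -/
def Mdl.red {ι : Type} (M : Mdl Ω (SS Ω ρ σ) ι J Cc) (r : Rd Ω) :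
    Mdl r.k (SS r.k ρ σ) ι J Cc where
  o := M.o
  Y i := r.red (M.Y i)
  w := r.red M.w
  P := r.redP M.P
  θ := r.red M.θ
  κ := r.red M.κ
  th c := r.red (M.th c)
  sg c := r.red (M.sg c)
  ga j := r.red (M.ga j)
  j0 := M.j0
  c0 := M.c0
  dd := M.dd
  D := M.D
  e := M.e
  N := M.N
  ix := M.ix

/-- The inclusion of the series in the inner variables. -/
def CL (R ρ σ : Type) [CommRing R] : MvPowerSeries ρ R →ₗ[R] SS R ρ σ :=
  (IsScalarTower.toAlgHom R (MvPowerSeries ρ R) (SS R ρ σ)).toLinearMap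

theorem CL_apply {R ρ σ : Type} [CommRing R] (y : MvPowerSeries ρ R) : CL R ρ σ y = C y := rfl

end

end Pool.Agent.Lib.MP_bc213e_ag.DC
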