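import Pool.Agent.Lib.MP_bc213e_ag.DC.Red

/-! Linear algebra commutes with almost all reductions. -/

namespace Pool.Agent.Lib.MP_bc213e_ag.DC

open MvPowerSeries Filter Submodule

variable {Ω ρ σ B : Type} [Field Ω]

theorem span_good {S : Set (SS Ω ρ σ)} (h : ∀ f ∈ S, f ∈ Good Ω ρ σ) {f : SS Ω ρ σ}
    (hf : f ∈ span Ω S) : f ∈ Good Ω ρ σ :=
  (span_le (p := Subalgebra.toSubmodule (Good Ω ρ σ))).2 h hf

/-- A coefficient as a linear form. -/
noncomputable def redb_co (k : Type) [Field k] (x : (σ →₀ ℕ) × (ρ →₀ ℕ)) : SS k ρ σ →ₗ[k] k where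
  toFun f := coeff x.2 (coeff x.1 f)
  map_add' f g := by rw [map_add, map_add]
  map_smul' _ _ := rfl

theorem redb_co_apply {k : Type} [Field k] (x : (σ →₀ ℕ) × (ρ →₀ ℕ)) (f : SS k ρ σ) :
    redb_co k x f = coeff x.2 (coeff x.1 f) := rfl

theorem redb_dual [Fintype B] [DecidableEq B] {b : B → SS Ω ρ σ} (h : LinearIndependent Ω b) :
    ∃ m : B → ((σ →₀ ℕ) × (ρ →₀ ℕ)) →₀ Ω, ∀ i j,
      ∑ x ∈ (m i).support, m i x * redb_co Ω x (b j) = if i = j then 1 else 0 := by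
  have h1 : span Ω (Set.range fun x (j : B) => redb_co Ω x (b j)) = ⊤ := by
    by_contra hc
    obtain ⟨f, f0, hf⟩ := exists_le_ker_of_lt_top _ (lt_top_iff_ne_top.2 hc)
    have h2 : ∑ j, f (fun i => if j = i then 1 else 0) • b j = 0 := by
      ext α β
      have h3 : f _ = 0 := hf (subset_span ⟨(α, β), rfl⟩)
      rw [LinearMap.pi_apply_eq_sum_univ] at h3
      refine ((redb_co_apply (α, β) _).symm.trans ?_).trans (map_zero (redb_co Ω (α, β))).symm
      rw [map_sum]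
      refine Eq.trans (Finset.sum_congr rfl fun j _ => ?_) h3
      rw [map_smul, smul_eq_mul, smul_eq_mul, mul_comm]
    have h3 := Fintype.linearIndependent_iff.1 h _ h2
    refine f0 (LinearMap.ext fun x => ?_)
    rw [LinearMap.pi_apply_eq_sum_univ]
    simp [h3]
  have h2 : ∀ i : B, ∃ c : ((σ →₀ ℕ) × (ρ →₀ ℕ)) →₀ Ω,
      (c.sum fun x a => a • fun j : B => redb_co Ω x (b j)) = fun j => if i = j then 1 else 0 :=
    fun i => Finsupp.mem_span_range_iff_exists_finsupp.1 (h1 ▸ mem_top)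
  choose m hm using h2
  refine ⟨m, fun i j => ?_⟩
  have h3 := congrFun (hm i) j
  rw [Finsupp.sum, Finset.sum_apply] at h3
  exact h3

theorem redb_key {k : Type} [Field k] [Fintype B] [DecidableEq B] {b : B → SS k ρ σ}
    {s : Finset ((σ →₀ ℕ) × (ρ →₀ ℕ))} {m : (σ →₀ ℕ) × (ρ →₀ ℕ) → k} {i : B}
    (h : ∀ j, ∑ x ∈ s, m x * redb_co k x (b j) = if i = j then 1 else 0) (c : B → k) :
    c i = ∑ x ∈ s, m x * redb_co k x (∑ j, c j • b j) := by
  simp only [map_sum, map_smul, smul_eq_mul, Finset.mul_sum]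
  rw [Finset.sum_comm]
  have h1 : ∀ j, ∑ x ∈ s, m x * (c j * redb_co k x (b j)) = c j * if i = j then 1 else 0 :=
    fun j => by
      rw [← h, Finset.mul_sum]
      exact Finset.sum_congr rfl fun x _ => by ring
  simp [h1]

theorem redb_comb [Fintype B] {r : Rd Ω} {b : B → SS Ω ρ σ} (hb : ∀ i, b i ∈ IS r.Λ) {c : B → Ω}
    (hc : ∀ i, c i ∈ r.Λ) : ∑ i, c i • b i ∈ IS r.Λ ∧
      r.red (∑ i, c i • b i) = ∑ i, r.sc (c i) • r.red (b i) :=
  ⟨sum_mem fun i _ => smul_mem_IS (hc i) (hb i), by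
    rw [Rd.red_sum _ fun i _ => smul_mem_IS (hc i) (hb i)]
    exact Finset.sum_congr rfl fun i _ => Rd.red_smul (hc i) (hb i)⟩

/-- Independent series have independent reductions, and the coordinates of an integral series are
integral. -/
theorem ev_indep [Fintype B] {b : B → SS Ω ρ σ} (hb : ∀ i, b i ∈ Good Ω ρ σ)
    (h : LinearIndependent Ω b) : ∀ᶠ r in RF Ω, LinearIndependent r.k (fun i => r.red (b i)) ∧
      ∀ c : B → Ω, ∑ i, c i • b i ∈ IS r.Λ → ∀ i, c i ∈ r.Λ := by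
  classical
  obtain ⟨m, hm⟩ := redb_dual h
  have h1 : ∀ᶠ r in RF Ω, ∀ i, ∀ x ∈ (m i).support, m i x ∈ r.Λ :=
    eventually_all.2 fun i => (eventually_all_finset _).2 fun x _ => ev_mem _
  filter_upwards [h1, eventually_all.2 hb] with r h1 h2
  refine ⟨Fintype.linearIndependent_iff.2 fun g hg i => ?_, fun c hc i => ?_⟩
  · rw [redb_key (b := fun j => r.red (b j)) (s := (m i).support) (m := fun x => r.sc (m i x))
      (i := i) (fun j => ?_) g, hg]
    · simp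
    have h3 : ∀ x, redb_co Ω x (b j) ∈ r.Λ := fun x => mem_IS.1 (h2 j) _ _
    have h4 := congrArg r.sc (hm i j)
    rw [Rd.sc_sum _ fun x hx => mul_mem (h1 i x hx) (h3 x), apply_ite r.sc, r.sc_one,
      r.sc_zero] at h4
    rw [← h4]
    exact Finset.sum_congr rfl fun x hx => (Rd.sc_mul (h1 i x hx) (h3 x)).symm
  · rw [redb_key (hm i) c]
    exact sum_mem fun x hx => mul_mem (h1 i x hx) (mem_IS.1 hc _ _)

theorem ev_redS_span [Finite B] {b : B → SS Ω ρ σ} (hb : ∀ i, b i ∈ Good Ω ρ σ) :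
    ∀ᶠ r in RF Ω, r.redS (span Ω (Set.range b)) = span r.k (Set.range fun i => r.red (b i)) := by
  obtain ⟨κ, a, ha, hs, hi⟩ := exists_linearIndependent' Ω b
  have := Finite.of_injective a ha
  have := Fintype.ofFinite κ
  filter_upwards [ev_indep (fun i => hb (a i)) hi, eventually_all.2 hb] with r h1 h2
  refine le_antisymm (span_le.2 ?_) (span_le.2 ?_)
  · rintro _ ⟨f, ⟨hf, hf'⟩, rfl⟩
    rw [← hs] at hf
    obtain ⟨c, rfl⟩ := (mem_span_range_iff_exists_fun Ω).1 hf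
    rw [(redb_comb (b := b ∘ a) (fun i => h2 (a i)) (h1.2 c hf')).2]
    exact sum_mem fun i _ => smul_mem _ _ (subset_span ⟨a i, rfl⟩)
  · rintro _ ⟨i, rfl⟩
    exact r.red_mem_redS (subset_span ⟨i, rfl⟩) (h2 i)

/-- Relations between the reductions come from relations. -/
theorem ev_ker [Fintype B] {b : B → SS Ω ρ σ} (hb : ∀ i, b i ∈ Good Ω ρ σ) :
    ∀ᶠ r in RF Ω, ∀ x : B → r.k, ∑ i, x i • r.red (b i) = 0 →
      x ∈ span r.k {y | ∃ u : B → Ω, (∀ i, u i ∈ r.Λ) ∧ ∑ i, u i • b i = 0 ∧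
        y = fun i => r.sc (u i)} := by
  classical
  obtain ⟨κ, a, ha, hs, hi⟩ := exists_linearIndependent' Ω b
  have := Finite.of_injective a ha
  have := Fintype.ofFinite κ
  have h0 : ∀ i, ∃ d : κ → Ω, ∑ t, d t • b (a t) = -b i := fun i =>
    (mem_span_range_iff_exists_fun Ω).1 (hs ▸ neg_mem (subset_span ⟨i, rfl⟩))
  choose d hd using h0
  have h1 : ∀ᶠ r in RF Ω, ∀ i t, d i t ∈ r.Λ :=
    eventually_all.2 fun i => eventually_all.2 fun t => ev_mem _
  filter_upwards [ev_indep (fun i => hb (a i)) hi, eventually_all.2 hb, h1] with r h1 h2 h3 x hx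
  have h4 : ∀ i, r.red (b i) = -∑ t, r.sc (d i t) • r.red (b (a t)) := fun i => by
    have h5 := redb_comb (b := fun t => b (a t)) (fun t => h2 (a t)) (h3 i)
    rw [eq_neg_iff_add_eq_zero, ← h5.2, ← Rd.red_add (h2 i) h5.1, hd, add_neg_cancel, r.red_zero]
  have h5 : ∀ t, ∑ i, x i * r.sc (d i t) = 0 := by
    refine Fintype.linearIndependent_iff.1 h1.1 _ ?_
    rw [Finset.sum_congr rfl fun i _ => congrArg (x i • ·) (h4 i)] at hx
    simp only [smul_neg, Finset.sum_neg_distrib, neg_eq_zero, Finset.smul_sum, smul_smul] at hx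
    rw [Finset.sum_comm] at hx
    simpa only [Finset.sum_smul] using hx
  have m1 : ∀ i j : B, (if i = j then 1 else 0 : Ω) ∈ r.Λ := fun i j => by
    split_ifs
    exacts [one_mem _, zero_mem _]
  have m2 : ∀ i t j, (if a t = j then d i t else 0 : Ω) ∈ r.Λ := fun i t j => by
    split_ifs
    exacts [h3 i t, zero_mem _]
  have h6 : x = ∑ i, x i • fun j =>
      r.sc ((if i = j then 1 else 0) + ∑ t, if a t = j then d i t else 0) := by
    funext j
    have h7 : ∀ i, r.sc ((if i = j then 1 else 0) + ∑ t, if a t = j then d i t else 0) =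
        (if i = j then 1 else 0) + ∑ t, if a t = j then r.sc (d i t) else 0 := fun i => by
      rw [Rd.sc_add (m1 i j) (sum_mem fun t _ => m2 i t j), Rd.sc_sum _ fun t _ => m2 i t j]
      simp only [apply_ite r.sc, r.sc_one, r.sc_zero]
    simp only [Finset.sum_apply, Pi.smul_apply, smul_eq_mul, h7, mul_add, Finset.sum_add_distrib,
      Finset.mul_sum]
    rw [Finset.sum_comm]
    have h8 : ∀ t, (∑ i, x i * if a t = j then r.sc (d i t) else 0) = 0 := fun t => by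
      split_ifs
      exacts [h5 t, by simp]
    rw [Finset.sum_eq_zero fun t _ => h8 t]
    simp
  rw [h6]
  refine sum_mem fun i _ => smul_mem _ _ (subset_span ⟨_, fun j =>
    add_mem (m1 i j) (sum_mem fun t _ => m2 i t j), ?_, rfl⟩)
  simp only [add_smul, Finset.sum_add_distrib, Finset.sum_smul]
  rw [Finset.sum_comm]
  simp [hd]

theorem redb_basis (W : Submodule Ω (SS Ω ρ σ)) [FiniteDimensional Ω W] :
    ∃ (n : ℕ) (b : Fin n → SS Ω ρ σ), LinearIndependent Ω b ∧ span Ω (Set.range b) = W := by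
  refine ⟨_, W.subtype ∘ Module.finBasis Ω W,
    (Module.finBasis Ω W).linearIndependent.map' _ W.ker_subtype, ?_⟩
  rw [Set.range_comp, ← map_span, (Module.finBasis Ω W).span_eq, map_subtype_top]

theorem ev_inf {W W' : Submodule Ω (SS Ω ρ σ)} [FiniteDimensional Ω W] [FiniteDimensional Ω W']
    (hW : ∀ f ∈ W, f ∈ Good Ω ρ σ) (hW' : ∀ f ∈ W', f ∈ Good Ω ρ σ)
    (L : SS Ω ρ σ →ₗ[Ω] SS Ω ρ σ) (hL : ∀ f ∈ W, L f ∈ Good Ω ρ σ) :
    ∀ᶠ r in RF Ω, ∀ L' : SS r.k ρ σ →ₗ[r.k] SS r.k ρ σ,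
      (∀ f ∈ IS r.Λ, r.red (L f) = L' (r.red f)) →
      r.redS W ⊓ (r.redS W').comap L' ≤ r.redS (W ⊓ W'.comap L) := by
  obtain ⟨n, b, -, rfl⟩ := redb_basis W
  obtain ⟨n', b', -, rfl⟩ := redb_basis W'
  have g1 := fun i => hW _ (subset_span ⟨i, rfl⟩)
  have g2 := fun i => hW' _ (subset_span ⟨i, rfl⟩)
  have g3 : ∀ i, Sum.elim (fun i => L (b i)) b' i ∈ Good Ω ρ σ := by
    rintro (i | i)
    exacts [hL _ (subset_span ⟨i, rfl⟩), g2 i]
  filter_upwards [ev_redS_span g1, ev_redS_span g2, ev_ker g3, eventually_all.2 g1]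
    with r h1 h2 h3 h4 L' hL' g hg
  rw [h1, h2] at hg
  obtain ⟨x, rfl⟩ := (mem_span_range_iff_exists_fun _).1 hg.1
  obtain ⟨x', hx'⟩ := (mem_span_range_iff_exists_fun _).1 (mem_comap.1 hg.2)
  have h5 := h3 (Sum.elim x (-x')) (by
    simp only [Fintype.sum_sum_type, Sum.elim_inl, Sum.elim_inr, Pi.neg_apply, neg_smul,
      Finset.sum_neg_distrib, hx', map_sum, map_smul, hL' _ (h4 _), add_neg_cancel])
  refine mem_comap.1 (span_le (p := comap ((Fintype.linearCombination r.k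
    fun i => r.red (b i)).comp (LinearMap.funLeft r.k r.k Sum.inl))
    (r.redS (span Ω (Set.range b) ⊓ comap L (span Ω (Set.range b'))))) |>.2 ?_ h5)
  rintro _ ⟨u, hu, hu', rfl⟩
  have h6 := redb_comb h4 fun i => hu (Sum.inl i)
  change ∑ i, r.sc (u (Sum.inl i)) • r.red (b i) ∈ r.redS _
  rw [← h6.2]
  refine r.red_mem_redS ⟨sum_mem fun i _ => smul_mem _ _ (subset_span ⟨i, rfl⟩), ?_⟩ h6.1
  simp only [Fintype.sum_sum_type, Sum.elim_inl, Sum.elim_inr, add_eq_zero_iff_eq_neg] at hu'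
  refine mem_comap.2 ?_
  simp only [map_sum, map_smul]
  rw [hu']
  exact neg_mem (sum_mem fun i _ => smul_mem _ _ (subset_span ⟨i, rfl⟩))

theorem ev_not_mem {W : Submodule Ω (SS Ω ρ σ)} [FiniteDimensional Ω W]
    (hW : ∀ f ∈ W, f ∈ Good Ω ρ σ) {w : SS Ω ρ σ} (hw : w ∈ Good Ω ρ σ) (h : w ∉ W) :
    ∀ᶠ r in RF Ω, r.red w ∉ r.redS W := by
  obtain ⟨n, b, hi, rfl⟩ := redb_basis W
  have g1 := fun i => hW _ (subset_span ⟨i, rfl⟩)
  have g2 : ∀ o : Option (Fin n), o.elim w b ∈ Good Ω ρ σ := by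
    rintro (_ | i)
    exacts [hw, g1 i]
  filter_upwards [ev_redS_span g1, ev_indep g2 (linearIndependent_option.2 ⟨hi, h⟩)] with r h1 h2
  rw [h1]
  exact (linearIndependent_option.1 h2.1).2

/-- The reduction of an image. -/
theorem ev_map {W : Submodule Ω (SS Ω ρ σ)} [FiniteDimensional Ω W]
    (hW : ∀ f ∈ W, f ∈ Good Ω ρ σ) (L : SS Ω ρ σ →ₗ[Ω] SS Ω ρ σ)
    (hL : ∀ f ∈ W, L f ∈ Good Ω ρ σ) :
    ∀ᶠ r in RF Ω, ∀ L' : SS r.k ρ σ →ₗ[r.k] SS r.k ρ σ,
      (∀ f ∈ IS r.Λ, r.red (L f) = L' (r.red f)) → r.redS (W.map L) = (r.redS W).map L' := by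
  obtain ⟨n, b, -, rfl⟩ := redb_basis W
  have g1 := fun i => hW _ (subset_span ⟨i, rfl⟩)
  have g2 := fun i => hL _ (subset_span ⟨i, rfl⟩)
  filter_upwards [ev_redS_span g1, ev_redS_span g2, eventually_all.2 g1] with r h1 h2 h3 L' hL'
  rw [h1, map_span, map_span, ← Set.range_comp, ← Set.range_comp]
  refine h2.trans ?_
  congr 2
  funext i
  exact hL' _ (h3 i)

end Pool.Agent.Lib.MP_bc213e_ag.DC
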