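import Pool.Agent.Lib.MP_bc213e_ag.DC.Dat
import Pool.Agent.Lib.MP_bc213e_ag.DC.RedB

/-! Reduction of the model. -/

namespace Pool.Agent.Lib.MP_bc213e_ag.DC

open MvPowerSeries Filter

set_option linter.unusedSectionVars false

/-- Exponents of bounded degree. -/
abbrev datrIx (ι : Type) (N : ℕ) : Type := {m : ι →₀ ℕ // m.degree ≤ N}

instance datr_finite (ι : Type) [Finite ι] (N : ℕ) : Finite (datrIx ι N) :=
  (Finsupp.finite_of_degree_le (σ := ι) N).to_subtype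

theorem datr_PL (k : Type) {A ι : Type} [CommRing k] [CommRing A] [Algebra k A] [Fintype ι]
    (Z : ι → A) (N : ℕ) :
    PL k Z N = Submodule.span k (Set.range fun m : datrIx ι N => ∏ i, Z i ^ m.1 i) := by
  have key : ∀ (m : ι →₀ ℕ) (c : k),
      MvPolynomial.aeval Z (MvPolynomial.monomial m c) = c • ∏ i, Z i ^ m i := fun m c => by
    rw [MvPolynomial.aeval_monomial, Finsupp.prod_fintype _ _ (by simp), Algebra.smul_def]
  refine le_antisymm (fun f hf => ?_) (Submodule.span_le.2 ?_)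
  · obtain ⟨G, h1, rfl⟩ := mem_PL.1 hf
    rw [G.as_sum, map_sum]
    refine Submodule.sum_mem _ fun m hm => ?_
    rw [key]
    refine Submodule.smul_mem _ _ (Submodule.subset_span ⟨⟨m, ?_⟩, rfl⟩)
    exact (MvPolynomial.le_totalDegree hm).trans h1
  · rintro _ ⟨m, rfl⟩
    refine mem_PL.2 ⟨MvPolynomial.monomial m.1 1,
      (MvPolynomial.totalDegree_monomial_le _ _).trans m.2, ?_⟩
    rw [key, one_smul]

variable {Ω ρ σ J Cc : Type} [Field Ω]

theorem datr_mem_span {B : Type} [Finite B] {b : B → SS Ω ρ σ} (hb : ∀ i, b i ∈ Good Ω ρ σ)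
    {f : SS Ω ρ σ} (h : f ∈ Submodule.span Ω (Set.range b)) :
    ∀ᶠ r in RF Ω, r.red f ∈ Submodule.span r.k (Set.range fun i => r.red (b i)) := by
  have hf : f ∈ Good Ω ρ σ := span_good (by rintro _ ⟨i, rfl⟩; exact hb i) h
  filter_upwards [ev_redS_span hb, hf] with r h1 h2
  rw [← h1]
  exact r.red_mem_redS h h2

theorem datr_map {W : Submodule Ω (SS Ω ρ σ)} [FiniteDimensional Ω W]
    (hW : ∀ f ∈ W, f ∈ Good Ω ρ σ) {g : SS Ω ρ σ} (hg : g ∈ Good Ω ρ σ) :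
    ∀ᶠ r in RF Ω, r.redS (W.map (LinearMap.mulRight Ω g)) =
      (r.redS W).map (LinearMap.mulRight r.k (r.red g)) := by
  filter_upwards [ev_map hW (LinearMap.mulRight Ω g) fun f hf => mul_mem (hW f hf) hg, hg]
    with r h1 h2
  exact h1 _ fun f hf => Rd.red_mul hf h2

theorem datr_inf {B : Type} (s : Finset B) {W W' : Submodule Ω (SS Ω ρ σ)} [FiniteDimensional Ω W]
    [FiniteDimensional Ω W'] (hW : ∀ f ∈ W, f ∈ Good Ω ρ σ) (hW' : ∀ f ∈ W', f ∈ Good Ω ρ σ)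
    {g : B → SS Ω ρ σ} (hg : ∀ x, g x ∈ Good Ω ρ σ) :
    ∀ᶠ r in RF Ω, ∀ y ∈ r.redS W, (∀ x ∈ s, y * r.red (g x) ∈ r.redS W') →
      y ∈ r.redS (W ⊓ ⨅ x ∈ s, W'.comap (LinearMap.mulRight Ω (g x))) := by
  classical
  induction s using Finset.induction_on with
  | empty => exact Eventually.of_forall fun r y hy _ => by simpa using hy
  | insert x s hx ih =>
    have hV : ∀ f ∈ W ⊓ ⨅ x ∈ s, W'.comap (LinearMap.mulRight Ω (g x)), f ∈ Good Ω ρ σ :=
      fun f hf => hW f hf.1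
    have : FiniteDimensional Ω
        (W ⊓ ⨅ x ∈ s, W'.comap (LinearMap.mulRight Ω (g x)) : Submodule Ω (SS Ω ρ σ)) :=
      Submodule.finiteDimensional_of_le inf_le_left
    filter_upwards [ih, ev_inf hV hW' (LinearMap.mulRight Ω (g x))
      fun f hf => mul_mem (hV f hf) (hg x), hg x] with r h1 h2 h3 y hy h
    have h4 := h2 (LinearMap.mulRight r.k (r.red (g x))) (fun f hf => Rd.red_mul hf h3)
      (Submodule.mem_inf.2 ⟨h1 y hy fun z hz => h z (Finset.mem_insert_of_mem hz),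
        h x (Finset.mem_insert_self _ _)⟩)
    rwa [Finset.iInf_insert, inf_comm (Submodule.comap _ _), ← inf_assoc]

variable [Fintype ρ] [DecidableEq ρ] [Fintype σ] [DecidableEq σ]
  [Fintype J] [Fintype Cc] (T : Dat Ω ρ σ J Cc)

namespace Dat

omit [Fintype J] [Fintype Cc] in
theorem datr_Z (r : Rd Ω) : (T.M.red r).Z = fun i => r.red (T.M.Z i) := by
  funext i
  exact (Function.apply_update (fun _ => r.red) T.M.Y T.M.o T.M.w i).symm

omit [Fintype J] [Fintype Cc] in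
theorem datr_gZ (i : ρ ⊕ σ) : T.M.Z i ∈ Good Ω ρ σ := by
  unfold Mdl.Z
  by_cases h : i = T.M.o
  · rw [h, Function.update_self]; exact T.gw
  · rw [Function.update_of_ne h]; exact T.gY i

omit [Fintype J] [Fintype Cc] in
theorem datr_gmon (m : ρ ⊕ σ →₀ ℕ) : ∏ i, T.M.Z i ^ m i ∈ Good Ω ρ σ :=
  prod_mem fun i _ => pow_mem (T.datr_gZ i) _

omit [Fintype J] [Fintype Cc] in
theorem datr_mon : ∀ᶠ r in RF Ω, ∀ m : ρ ⊕ σ →₀ ℕ, ∏ i, T.M.Z i ^ m i ∈ IS r.Λ ∧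
    r.red (∏ i, T.M.Z i ^ m i) = ∏ i, (T.M.red r).Z i ^ m i := by
  filter_upwards [eventually_all.2 T.datr_gZ] with r h m
  refine ⟨prod_mem fun i _ => pow_mem (h i) _, ?_⟩
  rw [Rd.red_prod _ fun i _ => pow_mem (h i) _, T.datr_Z]
  exact Finset.prod_congr rfl fun i _ => Rd.red_pow (h i) _

theorem PL_fd (N : ℕ) : FiniteDimensional Ω (PL Ω T.M.Z N) := by
  rw [datr_PL]
  exact FiniteDimensional.span_of_finite _ (Set.finite_range _)

theorem PL_good (N : ℕ) : ∀ f ∈ PL Ω T.M.Z N, f ∈ Good Ω ρ σ := by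
  intro f hf
  rw [datr_PL] at hf
  exact span_good (by rintro _ ⟨m, rfl⟩; exact T.datr_gmon _) hf

theorem ev_PL (N : ℕ) : ∀ᶠ r in RF Ω, r.redS (PL Ω T.M.Z N) = PL r.k (T.M.red r).Z N := by
  filter_upwards [ev_redS_span fun m : datrIx (ρ ⊕ σ) N => T.datr_gmon m.1, T.datr_mon]
    with r h1 h2
  rw [datr_PL, datr_PL, h1]
  simp only [fun m => (h2 m).2]

theorem ev_RR {f : SS Ω ρ σ} (hf : f ∈ Good Ω ρ σ) {b : ℕ} (h : f ∈ T.M.RR b) :
    ∀ᶠ r in RF Ω, r.red f ∈ (T.M.red r).RR b := by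
  have key : ∀ c, ∀ᶠ r in RF Ω, r.red (f * T.M.th c) ∈ Submodule.span r.k (Set.range
      fun x : datrIx (ρ ⊕ σ) b × Cc => r.red ((∏ i, T.M.Z i ^ x.1.1 i) * T.M.th x.2)) := by
    intro c
    refine datr_mem_span (fun x => mul_mem (T.datr_gmon _) (T.gth _)) ?_
    have h1 := h c
    rw [datr_PL, Submodule.span_mul_span] at h1
    refine Submodule.span_mono ?_ h1
    rintro _ ⟨_, ⟨m, rfl⟩, _, ⟨c', rfl⟩, rfl⟩
    exact ⟨(m, c'), rfl⟩
  filter_upwards [eventually_all.2 key, hf, eventually_all.2 T.gth, T.datr_mon]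
    with r h1 h2 h3 h4 c
  have h5 := h1 c
  rw [Rd.red_mul h2 (h3 c)] at h5
  refine Submodule.span_le.2 ?_ h5
  rintro _ ⟨x, rfl⟩
  show r.red (_ * _) ∈ _
  rw [Rd.red_mul (h4 _).1 (h3 _), (h4 _).2]
  refine Submodule.mul_mem_mul ?_ (Submodule.subset_span ⟨x.2, rfl⟩)
  rw [datr_PL]
  exact Submodule.subset_span ⟨x.1, rfl⟩

theorem ev_ok : ∀ᶠ r in RF Ω, (T.M.red r).OK (dS r.k ρ σ) := by
  have k1 : ∀ j c, ∀ᶠ r in RF Ω,
      r.red (T.M.ga j * T.M.sg c) ∈ (T.M.red r).RR (T.M.e + T.M.ix * T.M.N) := fun j c =>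
    T.ev_RR (mul_mem (T.gga j) (T.gsg c)) (T.ok.gasg j c)
  filter_upwards [eventually_all.2 fun j => eventually_all.2 (k1 j), eventually_all.2 T.datr_gZ,
    eventually_all.2 T.gY, eventually_all.2 T.gth, eventually_all.2 T.gsg, eventually_all.2 T.gga,
    T.gθ, T.gκ, ev_coeff T.M.P, T.ev_PL T.M.D, ev_ne T.ok.κ0, ev_ne T.ok.th0, ev_unit T.ok.vu]
    with r h1 hZ hY hth hsg hga hθ hκ hP hPL n1 n2 u1
  refine ⟨?_, (Rd.redP_deg _).trans T.ok.deg, T.ok.num, ?_, fun c => ?_, fun c => ?_,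
    fun j c => ?_, ?_, n1, n2, u1⟩
  · rw [T.datr_Z]
    refine (Rd.red_aeval hP hZ).2.symm.trans ?_
    rw [T.ok.rel, r.red_zero]
  · have hv : T.M.v ∈ IS r.Λ := hY _
    have hJ : Jac (dS Ω ρ σ) T.M.Y ∈ IS r.Λ := by
      rw [Jac, Matrix.det_apply']
      exact sum_mem fun _ _ => mul_mem (intCast_mem _ _) (prod_mem fun i _ =>
        (Rd.red_dS (hY i) _).1)
    have h2 := congrArg r.red T.ok.jac
    rw [Rd.red_mul hθ (pow_mem hJ _), Rd.red_pow hJ, Rd.red_Jac hY, Rd.red_mul hκ (pow_mem hv _),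
      Rd.red_pow hv] at h2
    exact h2
  · obtain ⟨p1, p2⟩ := Rd.redP_pderiv hP T.M.o
    obtain ⟨p3, p4⟩ := Rd.red_aeval p1 hZ
    have e : (T.M.red r).Pw = r.red T.M.Pw := by
      unfold Mdl.Pw
      rw [p4, p2, T.datr_Z]
      rfl
    have h2 := congrArg r.red (T.ok.sgP c)
    have p5 : T.M.Pw ∈ IS r.Λ := p3
    rw [Rd.red_mul (hsg c) (pow_mem p5 _), Rd.red_mul (pow_mem (hth c) _) hκ,
      Rd.red_pow (hth c), Rd.red_pow p5, ← e] at h2
    exact h2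
  · rw [show (T.M.red r).D = T.M.D from rfl, ← hPL]
    exact r.red_mem_redS (T.ok.thD c) (hth c)
  · have := h1 j c
    rw [Rd.red_mul (hga j) (hsg c)] at this
    exact this
  · exact (congrArg r.red T.ok.ga0).trans r.red_one

theorem UU_fd (m a : ℕ) : FiniteDimensional Ω (T.UU m a) := by
  have := fun i => T.fd i a
  refine Submodule.finiteDimensional_of_le (S₂ := ⨆ i : Fin (m + 1),
    (T.sec i a).map (LinearMap.mulRight Ω (T.M.Y T.M.o ^ (i : ℕ)))) (Submodule.span_le.2 ?_)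
  rintro _ ⟨i, hi, s, hs, rfl⟩
  exact Submodule.mem_iSup_of_mem ⟨i, Nat.lt_succ_of_le hi⟩ ⟨s, hs, rfl⟩

theorem UU_good (m a : ℕ) : ∀ f ∈ T.UU m a, f ∈ Good Ω ρ σ := by
  intro f hf
  refine span_good ?_ hf
  rintro _ ⟨i, -, s, hs, rfl⟩
  exact mul_mem (T.gsec i a s hs) (pow_mem (T.gY _) _)

theorem ev_in {m a : ℕ} {f : SS Ω ρ σ} (hf : f ∈ T.UU m a) :
    ∀ᶠ r in RF Ω, r.red f ∈ (T.M.red r).tot (fun i => (T.M.red r).Sc i a) m := by
  induction hf using Submodule.span_induction with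
  | mem x hx =>
    obtain ⟨i, hi, s, hs, rfl⟩ := hx
    have k1 : ∀ j, ∀ᶠ r in RF Ω,
        r.red (s * T.M.ga j ^ i) ∈ (T.M.red r).RR (a + i * T.M.e) := fun j =>
      T.ev_RR (mul_mem (T.gsec i a s hs) (pow_mem (T.gga j) _)) (T.inn i a hs j)
    filter_upwards [eventually_all.2 k1, T.gsec i a s hs, T.gY T.M.o, eventually_all.2 T.gga]
      with r h1 h2 h3 h4
    refine Submodule.subset_span ⟨i, hi, r.red s, fun j => ?_, ?_⟩
    · have := h1 j
      rw [Rd.red_mul h2 (pow_mem (h4 j) _), Rd.red_pow (h4 j)] at this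
      exact this
    · rw [Rd.red_mul h2 (pow_mem h3 _), Rd.red_pow h3]
      rfl
  | zero => exact Eventually.of_forall fun r => by rw [r.red_zero]; exact zero_mem _
  | add x y hx hy ihx ihy =>
    filter_upwards [ihx, ihy, T.UU_good m a x hx, T.UU_good m a y hy] with r h1 h2 h3 h4
    rw [Rd.red_add h3 h4]
    exact add_mem h1 h2
  | smul c x hx ih =>
    filter_upwards [ih, T.UU_good m a x hx, ev_mem c] with r h1 h2 h3
    rw [Rd.red_smul h3 h2]
    exact Submodule.smul_mem _ _ h1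

theorem ev_out (i a : ℕ) : ∀ᶠ r in RF Ω, (T.M.red r).Out i a ≤ r.redS (T.sec i a) := by
  have := T.PL_fd (a + i * T.M.e + T.M.D)
  have := T.fd i a
  have g1 := T.PL_good (a + i * T.M.e + T.M.D)
  have g2 : ∀ f ∈ (PL Ω T.M.Z (a + i * T.M.e + T.M.D)).map
      (LinearMap.mulRight Ω (T.M.th T.M.c0)), f ∈ Good Ω ρ σ := by
    rintro _ ⟨f, hf, rfl⟩
    exact mul_mem (g1 f hf) (T.gth _)
  filter_upwards [datr_inf Finset.univ g1 g2 (g := fun x : J × Cc => T.M.ga x.1 ^ i * T.M.th x.2)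
    fun x => mul_mem (pow_mem (T.gga _) _) (T.gth _), datr_map g1 (T.gth T.M.c0),
    datr_map (T.gsec i a) (T.gth T.M.c0), T.ev_PL (a + i * T.M.e + T.M.D), T.ev_ok,
    eventually_all.2 T.gth, eventually_all.2 T.gga] with r h1 h2 h3 h4 ok hth hga s hs
  have hs' : ∀ j c, s * r.red (T.M.ga j) ^ i * r.red (T.M.th c) ∈
      r.redS (PL Ω T.M.Z (a + i * T.M.e + T.M.D)) := fun j c => by
    rw [h4]
    exact hs j c
  have h5 := hs' T.M.j0 T.M.c0
  rw [show r.red (T.M.ga T.M.j0) = 1 from ok.ga0, one_pow, mul_one] at h5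
  have h6 := h1 _ h5 fun x _ => by
    rw [h2, Rd.red_mul (pow_mem (hga _) _) (hth _), Rd.red_pow (hga _)]
    refine ⟨_, hs' x.1 x.2, ?_⟩
    rw [LinearMap.mulRight_apply]
    ring
  have h7 : s * r.red (T.M.th T.M.c0) ∈
      r.redS ((T.sec i a).map (LinearMap.mulRight Ω (T.M.th T.M.c0))) := by
    refine r.redS_mono (fun y hy => ?_) h6
    obtain ⟨t, ht, e⟩ := T.out i a y hy.1 fun j c => by
      have h8 := (Submodule.mem_inf.1 hy).2
      simp only [Submodule.mem_iInf] at h8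
      obtain ⟨z, hz, e⟩ := h8 (j, c) (Finset.mem_univ _)
      exact ⟨z, hz, e.symm⟩
    exact ⟨t, ht, e.symm⟩
  rw [h3] at h7
  obtain ⟨t, ht, e⟩ := h7
  have h9 : (t - s) * r.red (T.M.th T.M.c0) = 0 := by
    rw [sub_mul, sub_eq_zero]
    exact e
  rcases mul_eq_zero.1 h9 with h | h
  · rwa [← sub_eq_zero.1 h]
  · exact absurd h ok.th0

theorem ev_out_tot (m a : ℕ) : ∀ᶠ r in RF Ω,
    (T.M.red r).tot (fun i => (T.M.red r).Out i a) m ≤ r.redS (T.UU m a) := by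
  have k1 : ∀ i, ∀ᶠ r in RF Ω,
      r.redS ((T.sec i a).map (LinearMap.mulRight Ω (T.M.Y T.M.o ^ i))) =
      (r.redS (T.sec i a)).map (LinearMap.mulRight r.k (r.red (T.M.Y T.M.o ^ i))) := fun i => by
    have := T.fd i a
    exact datr_map (T.gsec i a) (pow_mem (T.gY _) _)
  filter_upwards [(eventually_all_finset (Finset.range (m + 1))).2 fun i _ =>
    (k1 i).and (T.ev_out i a), T.gY T.M.o] with r h1 h2
  refine Submodule.span_le.2 ?_
  rintro _ ⟨i, hi, s, hs, rfl⟩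
  obtain ⟨h3, h4⟩ := h1 i (Finset.mem_range.2 (Nat.lt_succ_of_le hi))
  refine r.redS_mono (W := (T.sec i a).map (LinearMap.mulRight Ω (T.M.Y T.M.o ^ i))) ?_ ?_
  · rintro _ ⟨t, ht, rfl⟩
    exact Submodule.subset_span ⟨i, hi, t, ht, rfl⟩
  · rw [h3, Rd.red_pow h2]
    exact ⟨s, h4 hs, rfl⟩

end Dat

end Pool.Agent.Lib.MP_bc213e_ag.DC
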