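import Pool.Agent.Lib.MP_bc213e_ag.DC.Red

/-! Reductions to a characteristic that is one modulo `m`. -/

namespace Pool.Agent.Lib.MP_bc213e_ag.DC

open Filter

/-- The image of the spectrum of a finitely generated flat ring is open in that of `ℤ`. -/
theorem freq_mod (Ω : Type) [Field Ω] [CharZero Ω] {m : ℕ} (hm : 0 < m) :
    ∃ᶠ r in RF Ω, ∃ n, r.p = m * n + 1 := by
  classical
  refine (hasBasis_iInf_principal_finite _).frequently_iff.2 fun t ht => ?_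
  let A : Subalgebra ℤ Ω := Algebra.adjoin ℤ (ht.toFinset : Set Ω)
  have hA : Algebra.FiniteType ℤ A :=
    (Subalgebra.fg_iff_finiteType A).1 (Subalgebra.fg_adjoin_finset _)
  have hP : Algebra.FinitePresentation ℤ A := Algebra.FinitePresentation.of_finiteType.1 hA
  have ho := (PrimeSpectrum.isOpenMap_comap_of_hasGoingDown_of_finitePresentation
    (R := ℤ) (S := A)).isOpen_range
  obtain ⟨I, hI⟩ := (PrimeSpectrum.isClosed_iff_zeroLocus _).1 ho.isClosed_compl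
  have h0 : (⟨⊥, Ideal.isPrime_bot⟩ : PrimeSpectrum ℤ) ∉ PrimeSpectrum.zeroLocus I := by
    rw [← hI]
    exact not_not.2 ⟨⟨⊥, Ideal.isPrime_bot⟩, PrimeSpectrum.ext
      (Ideal.comap_bot_of_injective _ (RingHom.injective_int _))⟩
  obtain ⟨N, hN, hN0⟩ := Set.not_subset.1 h0
  obtain ⟨p, hp, h1, h2⟩ := Nat.exists_prime_gt_modEq_one N.natAbs hm.ne'
  have hp' : Prime (p : ℤ) := Nat.prime_iff_prime_int.1 hp
  have h3 : (⟨Ideal.span {(p : ℤ)}, (Ideal.span_singleton_prime hp'.ne_zero).2 hp'⟩ :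
      PrimeSpectrum ℤ) ∉ PrimeSpectrum.zeroLocus I := fun h =>
    (Nat.le_of_dvd (Int.natAbs_pos.2 hN0)
      (Int.natCast_dvd.1 (Ideal.mem_span_singleton.1 (h hN)))).not_gt h1
  rw [← hI] at h3
  obtain ⟨𝔮, h𝔮⟩ := not_not.1 h3
  have : Fact p.Prime := ⟨hp⟩
  let k := AlgebraicClosure (FractionRing (A ⧸ 𝔮.asIdeal))
  let ψ : A →+* k := (algebraMap (A ⧸ 𝔮.asIdeal) k).comp (Ideal.Quotient.mk _)
  have h4 : ((p : ℤ) : A) ∈ 𝔮.asIdeal :=
    (congrArg PrimeSpectrum.asIdeal h𝔮).ge (Ideal.mem_span_singleton_self _)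
  have : CharP k p := (CharP.charP_iff_prime_eq_zero hp).2 (by
    rw [← map_natCast ψ, RingHom.comp_apply, Ideal.Quotient.eq_zero_iff_mem.2 (by simpa using h4),
      map_zero])
  refine ⟨Rd.mk A.toSubring k p ψ, Set.mem_iInter₂.2 fun a ha =>
    Algebra.subset_adjoin (ht.mem_toFinset.2 ha), ?_⟩
  obtain ⟨n, hn⟩ := (Nat.modEq_iff_dvd' hp.one_le).1 h2.symm
  exact ⟨n, (Nat.sub_eq_iff_eq_add hp.one_le).1 hn⟩

end Pool.Agent.Lib.MP_bc213e_ag.DC
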