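import Pool.Agent.Lib.MP_bc213e_ag.DC.TT
import Pool.Agent.Lib.MP_bc213e_ag.DC.Mod

/-! Leading coefficients without base point. -/

namespace Pool.Agent.Lib.MP_bc213e_ag.DC

open MvPowerSeries Filter Jet

theorem t1_prod {σ R ι : Type} [CommRing R] (m : MonomialOrder σ) (s : Finset ι)
    (φ : ι → MvPowerSeries σ R) (e : ι → σ →₀ ℕ) (h : ∀ i, φ i ∈ Fil m (e i)) :
    ∏ i ∈ s, φ i ∈ Fil m (∑ i ∈ s, e i) ∧
      coeff (∑ i ∈ s, e i) (∏ i ∈ s, φ i) = ∏ i ∈ s, coeff (e i) (φ i) := by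
  classical
  induction s using Finset.induction_on with
  | empty => simpa using mem_Fil_zero m (1 : MvPowerSeries σ R)
  | insert i s hi ih =>
    rw [Finset.prod_insert hi, Finset.sum_insert hi, Finset.prod_insert hi,
      coeff_Fil_mul m (h i) ih.1, ih.2]
    exact ⟨Fil_mul m (h i) ih.1, rfl⟩

theorem t1_split {σ : Type} (a : σ →₀ ℕ) (n : ℕ) (t : σ →₀ ℕ) (h : ∀ s, t s ≤ n * a s) :
    ∃ d : Fin n → σ →₀ ℕ, (∀ u, d u ≤ a) ∧ ∑ u, d u = t := by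
  induction n generalizing t with
  | zero => exact ⟨Fin.elim0, fun u => u.elim0, by ext s; simpa using (h s).antisymm' (by simp)⟩
  | succ n ih =>
    obtain ⟨d, h1, h2⟩ := ih (t - a) fun s => by
      have := h s
      rw [Finsupp.tsub_apply]
      rw [add_mul, one_mul] at this
      omega
    refine ⟨Fin.cons (t ⊓ a) d, Fin.cases inf_le_right h1, ?_⟩
    rw [Fin.sum_univ_succ]
    simp only [Fin.cons_zero, Fin.cons_succ]
    rw [h2]
    ext s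
    rw [Finsupp.add_apply, Finsupp.tsub_apply, Finsupp.inf_apply]
    omega

theorem t1_zero {Ω ρ σ : Type} [Field Ω] (r : Rd Ω) {W : Submodule Ω (MvPowerSeries ρ Ω)}
    (hW : ∀ y ∈ W, constantCoeff y = 0) {g : SS r.k ρ σ} (hg : g ∈ r.redS (W.map (CL Ω ρ σ))) :
    coeff 0 (coeff 0 g) = 0 := by
  induction hg using Submodule.span_induction with
  | mem x hx =>
    obtain ⟨f, ⟨⟨y, hy, rfl⟩, -⟩, rfl⟩ := hx
    rw [r.coeff_red, CL_apply, coeff_zero_C, coeff_zero_eq_constantCoeff_apply, hW y hy, r.sc_zero]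
  | zero => rw [map_zero, map_zero]
  | add x y _ _ hx hy => rw [map_add, map_add, hx, hy, add_zero]
  | smul c x _ hx =>
    change c * coeff 0 (coeff 0 x) = 0
    rw [hx, mul_zero]

variable {Ω ρ σ J Cc : Type} [Field Ω] [CharZero Ω] [Fintype ρ] [DecidableEq ρ] [Fintype σ]
  [DecidableEq σ] [Fintype J] [Fintype Cc] (T : Dat Ω ρ σ J Cc) (mo : MonomialOrder σ)

theorem Dat.t1 (mi : MonomialOrder ρ) {m a q : ℕ} (hq : 0 < q) (hx : 0 < T.M.ix) {γ α : σ →₀ ℕ}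
    (hγ : ∀ s, (q + 1) * (γ s + 1) ≤ α s) {β η : ρ →₀ ℕ} (hβ : ∀ i, T.M.ix * (β i + 1) ≤ q)
    (hη : ∀ i, η i < T.M.ix) (hθ : constantCoeff T.M.θ ∈ Fil mi η)
    (hθ' : coeff η (constantCoeff T.M.θ) ≠ 0)
    (H : ∀ δ ≤ α, ∀ κ : ρ →₀ ℕ, (∀ i, κ i ≤ q + 1) →
      ∃ y ∈ Wl mo (T.UU (q * m) (q * a)) δ, y ∈ Fil mi (β + κ) ∧ coeff (β + κ) y ≠ 0) :
    ∃ y ∈ Wl mo (T.UU m a) γ, constantCoeff y ≠ 0 := by
  by_contra hcon
  push Not at hcon
  have f1 : Finite (Set.Iic α) := (Set.finite_Iic α).to_subtype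
  have f2 : Finite (Set.Iic (cst ρ (q + 1))) := (Set.finite_Iic _).to_subtype
  have H' : ∀ b : Set.Iic α × Set.Iic (cst ρ (q + 1)), ∃ f ∈ T.UU (q * m) (q * a),
      f ∈ Fil mo b.1.1 ∧ coeff b.1.1 f ∈ Fil mi (β + b.2.1) ∧
        coeff (β + b.2.1) (coeff b.1.1 f) ≠ 0 := fun b => by
    obtain ⟨y, h1, h2, h3⟩ := H b.1.1 b.1.2 b.2.1 fun i => b.2.2 i
    obtain ⟨f, h4, h5, rfl⟩ := (mem_Wl mo).1 h1
    exact ⟨f, h4, h5, h2, h3⟩
  choose f hf hF hI hne using H'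
  obtain ⟨r, ⟨n₀, hn₀⟩, ⟨c, -, hc, htt⟩, hsc, hu, hp⟩ := ((freq_mod Ω hx).and_eventually
    ((T.tt mo m a γ f (fun _ => q) hf).and ((eventually_all.2 fun b => ev_sc_ne (hne b)).and
      ((ev_sc_ne hθ').and (ev_large (Ω := Ω) (q * q)))))).exists
  obtain ⟨n, hn1, hn2, hn3⟩ : ∃ n, n * q ≤ r.p ∧ r.p ≤ n * (q + 1) ∧ 1 ≤ n := by
    have e1 := Nat.div_add_mod r.p q
    have e2 := Nat.mod_lt r.p hq
    have e3 : q ≤ r.p / q := (Nat.le_div_iff_mul_le hq).2 hp.le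
    refine ⟨r.p / q, Nat.div_mul_le_self _ _, ?_, hq.trans_le e3⟩
    rw [mul_add, mul_one, mul_comm]
    omega
  obtain ⟨d, hd1, hd2⟩ := t1_split α n (ex r.p γ) fun s => by
    rw [ex_apply]
    have e1 := Nat.mul_le_mul_left n (hγ s)
    have e2 := Nat.mul_le_mul_right (γ s + 1) hn2
    rw [← mul_assoc] at e1
    rw [mul_add r.p, mul_one] at e2
    omega
  obtain ⟨κ, hκ1, hκ2⟩ := t1_split (cst ρ (q + 1)) n (ex r.p 0 - (n₀ • η + n • β)) fun s => by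
    rw [Finsupp.tsub_apply, ex_apply, cst_apply, Finsupp.zero_apply, mul_zero]
    omega
  have hκ3 : n₀ • η + ∑ u, (β + κ u) = ex r.p 0 := by
    rw [Finset.sum_add_distrib, hκ2, Finset.sum_const, Finset.card_univ, Fintype.card_fin,
      ← add_assoc]
    refine add_tsub_cancel_of_le fun s => ?_
    rw [ex_apply, Finsupp.add_apply, Finsupp.smul_apply, Finsupp.smul_apply, smul_eq_mul,
      smul_eq_mul, Finsupp.zero_apply, mul_zero, hn₀]
    have e1 := Nat.mul_le_mul_left n (hβ s)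
    have e2 := Nat.mul_le_mul_left n₀ (Nat.succ_le_of_lt (hη s))
    have e3 : n * β s ≤ n₀ := Nat.le_of_mul_le_mul_left (by nlinarith) hx
    rw [Nat.mul_succ, mul_comm n₀ T.M.ix] at e2
    omega
  let φ : Fin n → Set.Iic α × Set.Iic (cst ρ (q + 1)) := fun u => (⟨d u, hd1 u⟩, ⟨κ u, hκ1 u⟩)
  obtain ⟨g1, g2⟩ := t1_prod mo Finset.univ (fun u => r.red (f (φ u))) d fun u δ hδ => by
    ext ε
    rw [r.coeff_red, hF (φ u) δ hδ, map_zero, r.sc_zero, map_zero]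
  obtain ⟨g3, g4⟩ := t1_prod mi Finset.univ (fun u => coeff (d u) (r.red (f (φ u))))
    (fun u => β + κ u) fun u ε hε => by
      rw [r.coeff_red]
      exact (congrArg r.sc (hI (φ u) ε hε)).trans r.sc_zero
  rw [hd2] at g1 g2
  rw [← g2] at g3 g4
  have hy0 := t1_zero r hcon (htt n₀ hn₀ n φ (by simpa using hn1) g1)
  rw [coeff_zero_C] at hy0
  obtain ⟨g7, g8⟩ := Fil_pow mi (φ := constantCoeff (r.red T.M.θ)) (α := η)
    (fun ε hε => (congrArg r.sc (hθ ε hε)).trans r.sc_zero) n₀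
  have g5 := hc (constantCoeff (r.red T.M.θ) ^ n₀ * coeff (ex r.p γ) (∏ t, r.red (f (φ t)))) 0
  rw [hy0, zero_pow r.pr.out.ne_zero, ← hκ3, coeff_Fil_mul mi g7 g3, g8, g4] at g5
  exact mul_ne_zero (pow_ne_zero _ hu) (Finset.prod_ne_zero_iff.2 fun u _ => hsc (φ u)) g5.symm

end Pool.Agent.Lib.MP_bc213e_ag.DC
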