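import Pool.Agent.Lib.MP_bc213e_ag.DC.GlueB
import Pool.Agent.Lib.MP_bc213e_ag.DC.T1

/-! Leading coefficients without base point on the fibre. -/

namespace Pool.Agent.Lib.MP_bc213e_ag.DD.Geo

open Pool.Agent.Lib.MP_bc213e_ag.DC Pool.Agent.Lib.MP_bc213e_ag.Jet MvPowerSeries

variable {K M ι : Type} [Field K] [Algebra ℂ K] [Field M] [Algebra ℂ M] [Algebra K M] {n : ℕ}
  {S : Su K M ι n} {Ω E : Type} [Field Ω] [Algebra ℂ Ω] [Field E] [Algebra ℂ E] [Algebra Ω E]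
  [IsScalarTower ℂ Ω E] {b φ : ℕ} (G : Geo S Ω E b φ) [IsScalarTower ℂ K M]

omit [IsScalarTower ℂ K M] in
theorem f1_pow (j : ι) (A : ℕ) : G.X j ^ A ∈ G.R A := by
  induction A with
  | zero => exact (pow_zero (G.X j)).symm ▸ G.one_mem_R 0
  | succ A ih => exact (pow_succ (G.X j) A).symm ▸ mul_mem_R ih (G.X_mem_R j)

variable {G} in
theorem Tau.f1_mul {c₀ e : ℕ} {j : ι} {ev : G.C j →ₐ[Ω] Ω} (T : G.Tau c₀ e j ev) {A A' : ℕ}
    {w w' : E} (h : w ∈ G.R A) (h' : w' ∈ G.R A') : T.τF (w * w' / G.X j ^ (A + A')) =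
      T.τF (w / G.X j ^ A) * T.τF (w' / G.X j ^ A') := by
  rw [pow_add, mul_div_mul_comm, T.τF_mul _ (T.C_le (div_mem_C h j)) _ (T.C_le (div_mem_C h' j))]

variable {G} in
theorem Tau.f1_one {c₀ e : ℕ} {j : ι} {ev : G.C j →ₐ[Ω] Ω} (T : G.Tau c₀ e j ev) (A : ℕ) :
    T.τF (G.X j ^ A / G.X j ^ A) = 1 := by
  rw [div_self (pow_ne_zero _ (G.X_ne j)), T.τF_one]

variable {G} in
theorem Tau.f1_X {c₀ e : ℕ} {j : ι} {ev : G.C j →ₐ[Ω] Ω} (T : G.Tau c₀ e j ev) (c : Fin φ) :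
    ∃ w ∈ G.R e, T.τF (w / G.X j ^ e) = MvPowerSeries.X c := by
  refine ⟨G.ι (S.X j ^ e * T.z c) - constantCoeff (T.τF (G.ι (T.z c))) • G.X j ^ e,
    sub_mem (G.ι_mem_R (T.z_U c)) (Submodule.smul_mem _ _ (G.f1_pow j e)), ?_⟩
  have e1 : G.ι (S.X j ^ e * T.z c) / G.X j ^ e = G.ι (T.z c) := by
    rw [map_mul, map_pow]
    exact mul_div_cancel_left₀ _ (pow_ne_zero _ (G.X_ne j))
  rw [sub_div, smul_div_assoc, map_sub, map_smul, T.f1_one, e1, sub_eq_iff_eq_add',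
    smul_eq_C_mul, mul_one]
  exact T.τF_z c

variable {G} in
theorem Tau.exists_mon {c₀ e : ℕ} {j : ι} {ev : G.C j →ₐ[Ω] Ω} (T : G.Tau c₀ e j ev)
    (κ : Fin φ →₀ ℕ) {A : ℕ} (h : e * κ.degree ≤ A) :
    ∃ w ∈ G.R A, T.τF (w / G.X j ^ A) = monomial κ 1 := by
  have key : ∃ w ∈ G.R (e * κ.degree), T.τF (w / G.X j ^ (e * κ.degree)) = monomial κ 1 := by
    clear h
    induction κ using Finsupp.induction_linear with
    | zero => exact ⟨_, G.f1_pow j _, T.f1_one _⟩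
    | add κ κ' h1 h2 =>
      obtain ⟨w, hw, e1⟩ := h1
      obtain ⟨w', hw', e2⟩ := h2
      rw [map_add, mul_add]
      exact ⟨_, mul_mem_R hw hw', by
        rw [T.f1_mul hw hw', e1, e2, monomial_mul_monomial, mul_one]⟩
    | single c k =>
      rw [Finsupp.degree_single, ← X_pow_eq]
      obtain ⟨w', hw', e2⟩ := T.f1_X c
      induction k with
      | zero => exact ⟨_, G.f1_pow j _, (T.f1_one _).trans (pow_zero _).symm⟩
      | succ k ih =>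
        obtain ⟨w, hw, e1⟩ := ih
        exact ⟨_, mul_mem_R hw hw', by rw [Nat.mul_succ, T.f1_mul hw hw', e1, e2, pow_succ]⟩
  obtain ⟨w, hw, e1⟩ := key
  obtain ⟨r, rfl⟩ := Nat.exists_eq_add_of_le h
  exact ⟨_, mul_mem_R hw (G.f1_pow j r), by
    rw [T.f1_mul hw (G.f1_pow j r), e1, T.f1_one, mul_one]⟩

variable {G} in
theorem Tau.mu1_ev {c₀ e : ℕ} {j : ι} {ev : G.C j →ₐ[Ω] Ω} (T : G.Tau c₀ e j ev) :
    constantCoeff (T.τF (G.ι T.mu1)) ≠ 0 := by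
  have e := T.τF_mul _ (T.ι_mem T.mu1_mem) _ (T.ι_mem T.mu1_inv)
  rw [← map_mul, mul_inv_cancel₀ T.mu1_ne, map_one, T.τF_one] at e
  have e' := congrArg constantCoeff e
  rw [map_one, map_mul] at e'
  exact left_ne_zero_of_mul_eq_one e'.symm

variable {G} in
theorem Tau.θ_lead {c₀ e : ℕ} {j : ι} {ev : G.C j →ₐ[Ω] Ω} (T : G.Tau c₀ e j ev) :
    constantCoeff (T.τ T.θ) = T.τF (G.ι T.mu1) * monomial T.dd 1 := by
  have oz : ∀ c, G.ι (T.z c) ∈ T.OF := fun c => T.ι_mem (T.B_le (T.z_mem c))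
  have e1 : T.τF (∏ c, G.ι (T.z c) ^ T.dd c) = ∏ c, T.τF (G.ι (T.z c)) ^ T.dd c := by
    have e := map_prod T.homF (fun c => (⟨G.ι (T.z c), oz c⟩ : T.OF) ^ T.dd c) Finset.univ
    rw [T.homF_apply, SubmonoidClass.coe_finsetProd] at e
    exact e.trans (Finset.prod_congr rfl fun c _ => map_pow T.homF _ _)
  have e2 : ∀ c, T.τF (G.ι (T.z c)) ^ T.dd c = monomial (Finsupp.single c (T.dd c)) 1 := fun c => by
    by_cases h : T.dd c = 0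
    · rw [h, pow_zero, Finsupp.single_zero]
      rfl
    · rw [T.τF_z, T.dd_ev c h, map_zero, zero_add, X_pow_eq]
  rw [T.τ_const _ T.θ_mem, Tau.θ, T.mu_eq, map_mul, map_prod, T.τF_mul _ (T.ι_mem T.mu1_mem) _
    (prod_mem fun c _ => (map_pow G.ι _ _).symm ▸ pow_mem (oz c) _)]
  simp only [map_pow, e1, e2]
  rw [prod_monomial, Finsupp.univ_sum_single, Finset.prod_const_one]

variable [Fintype ι] [CharZero E]

theorem f1 {c₀ e : ℕ} {j : ι} {ev : G.C j →ₐ[Ω] Ω} (T : G.Tau c₀ e j ev)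
    {m a K₁ K₂ q₀ : ℕ} {α₁ α₂ γ : Fin b →₀ ℕ}
    (ha : 0 < a) (hK : 0 < K₁) (h₁ : G.W (K₁ * m) (K₁ * a) α₁ ≠ ⊥)
    (h₂ : G.W (K₂ * m) (K₂ * a) α₂ = G.R (K₂ * a)) (hγ : (q₀ + 1) • (γ + uno b) ≤ α₁ + α₂)
    (hq : K₁ + K₂ ≤ q₀) (hc : S.m * (c₀ * (K₁ * a)) ≤ q₀)
    (he' : e * φ * (q₀ + 1) ≤ K₂ * a) :
    ∃ w ∈ G.W m a γ, MvPowerSeries.constantCoeff (T.τF (w / G.X j ^ a)) ≠ 0 := by
  have : CharZero Ω := charZero_of_injective_algebraMap (algebraMap ℂ Ω).injective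
  obtain ⟨c, Δ, hΔ, hθ, hx⟩ := T.exists_dat
  obtain ⟨w₁, hw₁, h0⟩ := (Submodule.ne_bot_iff _).1 h₁
  have r₁ := G.W_le_R _ _ _ hw₁
  have ho : T.τF (w₁ / G.X j ^ (K₁ * a)) ∉ Ord (Fin φ) Ω (c₀ * (K₁ * a)) := fun h =>
    h0 (T.ord _ (Nat.mul_pos hK ha) w₁ r₁ h)
  obtain ⟨β, hβ1, hβ2⟩ := exists_lead MonomialOrder.degLex
    (φ := T.τF (w₁ / G.X j ^ (K₁ * a))) fun h => ho (h ▸ zero_mem _)
  have hβ : β.degree < c₀ * (K₁ * a) := not_le.1 fun h => ho (Ord_anti h (Fil_le_Ord β hβ1))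
  have hmon : ∀ κ : Fin φ →₀ ℕ,
      (monomial κ 1 : MvPowerSeries (Fin φ) Ω) ∈ Fil MonomialOrder.degLex κ :=
    fun κ ε hε => coeff_monomial_ne (fun h => hε.ne (by rw [h])) 1
  have hF := Fil_mul _ (mem_Fil_zero _ (T.τF (G.ι T.mu1))) (hmon T.dd)
  have hC := coeff_Fil_mul _ (mem_Fil_zero _ (T.τF (G.ι T.mu1))) (hmon T.dd)
  rw [zero_add, ← T.θ_lead, ← hθ] at hF hC
  rw [coeff_monomial_same, mul_one, coeff_zero_eq_constantCoeff_apply] at hC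
  obtain ⟨y, hy, hy0⟩ := Δ.t1 MonomialOrder.degLex MonomialOrder.degLex (m := m) (a := a)
    (q := q₀) (by omega) (hx ▸ Nat.pos_of_ne_zero S.mpos) (γ := γ) (α := α₁ + α₂) (fun s => hγ s)
    (β := β) (η := T.dd) (fun i => hx ▸ (Nat.mul_le_mul_left _
      ((Finsupp.le_degree i β).trans_lt hβ)).trans hc) (fun i => hx ▸ T.dd_lt i) hF
    (hC ▸ T.mu1_ev) fun δ hδ κ hκ => by
      have hk : κ.degree ≤ φ * (q₀ + 1) := by
        rw [Finsupp.degree_eq_sum]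
        simpa using Finset.sum_le_card_nsmul Finset.univ κ (q₀ + 1) fun i _ => hκ i
      obtain ⟨w₂, r₂, e₂⟩ := T.exists_mon κ (A := K₂ * a)
        ((Nat.mul_le_mul_left e hk).trans (by rwa [← mul_assoc]))
      obtain ⟨r, hr⟩ := Nat.exists_eq_add_of_le
        ((add_mul K₁ K₂ a).symm.trans_le (Nat.mul_le_mul_right a hq))
      have h3 := W_mul (W_mul hw₁ (h₂.ge r₂)) (G.X_pow_mem_W j r)
      rw [add_zero, add_zero, ← hr] at h3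
      have h4 := G.W_down _ _ hδ (G.W_mono
        ((add_mul K₁ K₂ m).symm.trans_le (Nat.mul_le_mul_right m hq)) le_rfl _ h3)
      have h5 := hmon κ
      refine ⟨_, hΔ _ _ ▸ T.mem_Wl_VT.2 ⟨_, h4, rfl⟩, ?_⟩
      rw [hr, T.f1_mul (mul_mem_R r₁ r₂) (G.f1_pow j r), T.f1_mul r₁ r₂, T.f1_one, mul_one, e₂,
        coeff_Fil_mul _ hβ1 h5, coeff_monomial_same, mul_one]
      exact ⟨Fil_mul _ hβ1 h5, hβ2⟩
  obtain ⟨w, hw, rfl⟩ := T.mem_Wl_VT.1 (hΔ _ _ ▸ hy)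
  exact ⟨w, hw, hy0⟩

end Pool.Agent.Lib.MP_bc213e_ag.DD.Geo
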