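import Pool.Agent.Lib.MP_bc213e_ag.DC.TT
import Pool.Agent.Lib.MP_bc213e_ag.DC.Mod

/-! Prescribed leading coefficients. -/

namespace Pool.Agent.Lib.MP_bc213e_ag.DC

open MvPowerSeries Filter Jet

section

variable {K ι τ : Type} [Field K]

/-- The reduction of a series in the inner variables. -/
noncomputable def t2_rd (τ : Type) (r : Rd K) (y : MvPowerSeries ι K) : MvPowerSeries ι r.k :=
  constantCoeff (r.red (C y : SS K ι τ))

theorem t2_coeff (r : Rd K) (f : SS K ι τ) (α : τ →₀ ℕ) :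
    coeff α (r.red f) = t2_rd τ r (coeff α f) := by
  rw [t2_rd, Rd.red_C_coeff, constantCoeff_C]

theorem t2_C (r : Rd K) (y : MvPowerSeries ι K) :
    r.red (C y : SS K ι τ) = C (t2_rd τ r y) := by
  have h := Rd.red_C_coeff (r := r) (C y : SS K ι τ) 0
  rwa [coeff_zero_C, coeff_zero_eq_constantCoeff_apply] at h

theorem t2_mul {r : Rd K} {y y' : MvPowerSeries ι K} (h : (C y : SS K ι τ) ∈ IS r.Λ)
    (h' : (C y' : SS K ι τ) ∈ IS r.Λ) : t2_rd τ r (y * y') = t2_rd τ r y * t2_rd τ r y' := by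
  rw [t2_rd, map_mul, Rd.red_mul h h', map_mul]; rfl

theorem t2_pow {r : Rd K} {y : MvPowerSeries ι K} (h : (C y : SS K ι τ) ∈ IS r.Λ) (n : ℕ) :
    t2_rd τ r (y ^ n) = t2_rd τ r y ^ n := by
  rw [t2_rd, map_pow, Rd.red_pow h, map_pow]; rfl

theorem t2_prod {r : Rd K} {T : Type} [Fintype T] {z : T → MvPowerSeries ι K}
    (h : ∀ i, (C (z i) : SS K ι τ) ∈ IS r.Λ) :
    t2_rd τ r (∏ i, z i) = ∏ i, t2_rd τ r (z i) := by
  rw [t2_rd, map_prod, Rd.red_prod _ fun i _ => h i, map_prod]; rfl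

theorem t2_fil (m : MonomialOrder τ) (r : Rd K) {f : SS K ι τ} {α : τ →₀ ℕ} (h : f ∈ Fil m α) :
    r.red f ∈ Fil m α := fun β hβ => by
  rw [t2_coeff, h β hβ, t2_rd, map_zero, Rd.red_zero, map_zero]

end

variable {Ω ρ σ J Cc : Type} [Field Ω] [CharZero Ω] [Fintype ρ] [DecidableEq ρ] [Fintype σ]
  [DecidableEq σ] [Fintype J] [Fintype Cc] (T : Dat Ω ρ σ J Cc) (mo : MonomialOrder σ)

theorem Dat.t2 {m a N₀ : ℕ} (hN : 0 < N₀) (hx : 0 < T.M.ix) {α : σ →₀ ℕ}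
    {z : ρ → MvPowerSeries ρ Ω} {c w : MvPowerSeries ρ Ω}
    (gz : ∀ i, (C (z i) : SS Ω ρ σ) ∈ Good Ω ρ σ) (gc : (C c : SS Ω ρ σ) ∈ Good Ω ρ σ)
    (gw : (C w : SS Ω ρ σ) ∈ Good Ω ρ σ) (hJ : Jac (fun i => pderiv Ω i) z ≠ 0)
    (hw : constantCoeff T.M.θ * c * Jac (fun i => pderiv Ω i) z ^ T.M.ix = (w * ∏ i, z i) ^ T.M.ix)
    (H₀ : c ^ N₀ ∈ Wl mo (T.UU (T.M.ix * N₀ * m) (T.M.ix * N₀ * a))
      ((T.M.ix * N₀) • α + cst σ (T.M.ix * N₀)))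
    (H₁ : ∀ N, N₀ ≤ N → N < 2 * N₀ → c ^ N * w ∈ Wl mo
      (T.UU ((T.M.ix * N + 1) * m) ((T.M.ix * N + 1) * a))
      ((T.M.ix * N + 1) • α + cst σ (T.M.ix * N))) :
    w ∈ Wl mo (T.UU m a) α := by
  by_contra hn
  obtain ⟨g₀, hg₀, fg₀, cg₀⟩ := (mem_Wl mo).1 H₀
  choose g hg fg cg using fun i : Fin N₀ =>
    (mem_Wl mo).1 (H₁ (N₀ + i) (Nat.le_add_right _ _) (by have := i.2; omega))
  have := T.UU_fd m a
  have := Wl_fd mo (T.UU m a) α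
  have hn' : (C w : SS Ω ρ σ) ∉ (Wl mo (T.UU m a) α).map (CL Ω ρ σ) := by
    rintro ⟨y, hy, e⟩
    rw [CL_apply] at e
    exact hn (C_injective e ▸ hy)
  have e1 := T.tt mo m a α (B := Option (Fin N₀)) (fun b => b.elim g₀ g)
    (fun b => b.elim (T.M.ix * N₀) fun i => T.M.ix * (N₀ + i) + 1) (fun b => by
      cases b with
      | none => exact hg₀
      | some i => exact hg i)
  have e2 := ev_not_mem (T.Wl_good mo m a α) gw hn'
  have e3 : ∀ᶠ r in RF Ω, ∀ i, (C (z i) : SS Ω ρ σ) ∈ IS r.Λ := eventually_all.2 gz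
  have e4 := ev_ne (f := (C (Jac (fun i => pderiv Ω i) z) : SS Ω ρ σ))
    ((map_ne_zero_iff _ C_injective).2 hJ)
  obtain ⟨r, ⟨n, hp1⟩, ⟨⟨⟨⟨⟨⟨⟨ca, hder, -, htt⟩, hnot⟩, iz⟩, ic⟩, iw⟩, iθ⟩, hu⟩, hp⟩ :=
    ((freq_mod Ω hx).and_eventually (((((((e1.and e2).and e3).and (mem_Good.1 gc)).and
      (mem_Good.1 gw)).and (mem_Good.1 T.gθ)).and e4).and (ev_large (T.M.ix * N₀)))).exists
  obtain ⟨j, i, rfl⟩ : ∃ (j : ℕ) (i : Fin N₀), n = N₀ + i + j * N₀ := by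
    have h1 : N₀ ≤ n := Nat.le_of_mul_le_mul_left (by omega) hx
    refine ⟨(n - N₀) / N₀, ⟨(n - N₀) % N₀, Nat.mod_lt _ hN⟩, ?_⟩
    have := Nat.mod_add_div' (n - N₀) N₀
    simp only
    omega
  have eP : ∏ t : Fin (j + 1), r.red (((Fin.cons (some i) fun _ => none :
      Fin (j + 1) → Option (Fin N₀)) t).elim g₀ g) = r.red (g i) * r.red g₀ ^ j := by
    rw [Fin.prod_univ_succ]
    simp
  have hp2 : r.p - 1 = T.M.ix * (N₀ + i + j * N₀) := by omega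
  have eX : ex r.p α = ((T.M.ix * (N₀ + i) + 1) • α + cst σ (T.M.ix * (N₀ + i))) +
      j • ((T.M.ix * N₀) • α + cst σ (T.M.ix * N₀)) := by
    ext s
    simp only [ex_apply, Finsupp.add_apply, Finsupp.smul_apply, cst_apply, smul_eq_mul]
    rw [hp2, hp1]
    ring
  have f1 := t2_fil mo r (fg i)
  have f2 := Fil_pow mo (t2_fil mo r fg₀) j
  have hΦ := htt _ hp1 (j + 1) (Fin.cons (some i) fun _ => none) (by
    rw [Fin.sum_univ_succ, hp1]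
    simp only [Fin.cons_zero, Fin.cons_succ, Option.elim, Finset.sum_const, Finset.card_univ,
      Fintype.card_fin, smul_eq_mul]
    exact le_of_eq (by ring)) (by rw [eP, eX]; exact Fil_mul mo f1 f2.1)
  have pw : ∀ {y : MvPowerSeries ρ Ω} (u : ℕ), (C y : SS Ω ρ σ) ∈ IS r.Λ →
      (C (y ^ u) : SS Ω ρ σ) ∈ IS r.Λ := fun u h => by
    rw [map_pow]
    exact pow_mem h u
  have ml : ∀ {y y' : MvPowerSeries ρ Ω}, (C y : SS Ω ρ σ) ∈ IS r.Λ → (C y' : SS Ω ρ σ) ∈ IS r.Λ →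
      (C (y * y') : SS Ω ρ σ) ∈ IS r.Λ := fun h h' => by
    rw [map_mul]
    exact mul_mem h h'
  have ip : (C (∏ i, z i) : SS Ω ρ σ) ∈ IS r.Λ := by
    rw [map_prod]
    exact prod_mem fun i _ => iz i
  rw [eP, eX, coeff_Fil_mul mo f1 f2.1, f2.2, t2_coeff, t2_coeff, cg, cg₀, t2_mul (pw _ ic) iw,
    t2_pow ic, t2_pow ic] at hΦ
  have h2 := Rd.red_JacI iz
  have h3 : t2_rd σ r (Jac (fun i => pderiv Ω i) z) = Jac ca.der fun i => t2_rd σ r (z i) := by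
    rw [hder]
    exact (congrArg constantCoeff h2.2).trans (constantCoeff_C _)
  have hθ := congrArg (t2_rd σ r) hw
  rw [← coeff_zero_eq_constantCoeff_apply, t2_mul (ml (C_coeff_mem_IS iθ 0) ic) (pw _ h2.1),
    t2_mul (C_coeff_mem_IS iθ 0) ic, ← t2_coeff, coeff_zero_eq_constantCoeff_apply, t2_pow h2.1,
    t2_pow (ml iw ip), t2_mul iw ip, t2_prod iz, h3] at hθ
  rw [t2_C, h3] at hu
  have e5 : (Jac ca.der fun i => t2_rd σ r (z i)) ^ r.p *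
      (constantCoeff (r.red T.M.θ) ^ (N₀ + i + j * N₀) *
        (t2_rd σ r c ^ (N₀ + i) * t2_rd σ r w * (t2_rd σ r c ^ N₀) ^ j)) =
      t2_rd σ r w ^ r.p * ((∏ i, t2_rd σ r (z i) ^ (r.p - 1)) *
        Jac ca.der fun i => t2_rd σ r (z i)) := by
    have h4 := congrArg (· ^ (N₀ + i + j * N₀)) hθ
    simp only [mul_pow, ← pow_mul] at h4
    rw [Finset.prod_pow, hp2, congrArg (t2_rd σ r w ^ ·) hp1,
      congrArg ((Jac ca.der fun i => t2_rd σ r (z i)) ^ ·) hp1]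
    linear_combination (t2_rd σ r w * Jac ca.der fun i => t2_rd σ r (z i)) * h4
  have e6 := congrArg ca.Φ e5
  rw [ca.Φ_mul, ca.Φ_mul, ca.lcar_one, mul_comm] at e6
  rw [mul_right_cancel₀ (fun h => hu (by rw [h, map_zero])) e6, ← t2_C] at hΦ
  exact hnot hΦ

end Pool.Agent.Lib.MP_bc213e_ag.DC
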