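import Pool.Agent.Lib.MP_bc213e_ag.DC.GlueB
import Pool.Agent.Lib.MP_bc213e_ag.DC.T2

/-! Prescribed leading coefficients on the fibre. -/

namespace Pool.Agent.Lib.MP_bc213e_ag.DD.Geo

open Pool.Agent.Lib.MP_bc213e_ag.DC Pool.Agent.Lib.MP_bc213e_ag.Jet MvPowerSeries Filter

variable {K M ι : Type} [Field K] [Algebra ℂ K] [Field M] [Algebra ℂ M] [Algebra K M] {n : ℕ}
  {S : Su K M ι n} {Ω E : Type} [Field Ω] [Algebra ℂ Ω] [Field E] [Algebra ℂ E] [Algebra Ω E]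
  [IsScalarTower ℂ Ω E] {b φ : ℕ} (G : Geo S Ω E b φ) [IsScalarTower ℂ K M] [Fintype ι]
  [CharZero E]

omit [IsScalarTower ℂ K M] [Fintype ι] [CharZero E] in
variable {G} in
theorem f2_pow_R {a : ℕ} {w : E} (h : w ∈ G.R a) (N : ℕ) : w ^ N ∈ G.R (N * a) := by
  induction N with
  | zero => rw [pow_zero]; exact G.one_mem_R _
  | succ N ih => rw [pow_succ, Nat.succ_mul]; exact mul_mem_R ih h

omit [IsScalarTower ℂ K M] [Fintype ι] [CharZero E] in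
theorem f2_span {c : E} (hc : c ∈ Submodule.span Ω (Set.range G.ι)) (f : M) :
    c * G.ι f ∈ Submodule.span Ω (Set.range G.ι) := by
  induction hc using Submodule.span_induction with
  | mem x hx =>
    obtain ⟨y, rfl⟩ := hx
    exact Submodule.subset_span ⟨y * f, map_mul _ _ _⟩
  | zero => rw [zero_mul]; exact zero_mem _
  | add x y _ _ h1 h2 => rw [add_mul]; exact add_mem h1 h2
  | smul r x _ h1 => rw [smul_mul_assoc]; exact Submodule.smul_mem _ r h1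

variable {G} in
theorem Tau.one {c₀ e₀ : ℕ} {j : ι} {ev : G.C j →ₐ[Ω] Ω} (T : G.Tau c₀ e₀ j ev)
    (hO : ∀ f, f ∈ T.O) {m a : ℕ} {α : Fin b →₀ ℕ}
    (H : ∀ᶠ N : ℕ in atTop, G.W (N * m) (N * a) (N • (α + uno b)) = G.R (N * a)) {z : Fin φ → M}
    {c w : E} (h0 : c ∈ G.R (S.m * a)) (h1 : w ∈ G.R a) (hz : S.mu (Sum.elim G.y z ∘ G.ε) ≠ 0)
    (rel : c * G.ι (S.mu (Sum.elim G.y z ∘ G.ε)) = (w * ∏ i, G.ι (z i)) ^ S.m) :
    w ∈ G.W m a α := by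
  have : CharZero Ω := charZero_of_injective_algebraMap (algebraMap ℂ Ω).injective
  obtain ⟨N₁, hN⟩ := eventually_atTop.1 H
  obtain ⟨c₁, Δ, hU, hθ, hx⟩ := T.exists_dat
  have hm := Nat.pos_of_ne_zero S.mpos
  have eO : G.ι '' T.O = Set.range G.ι :=
    Set.ext fun x => ⟨fun ⟨y, _, e⟩ => ⟨y, e⟩, fun ⟨y, e⟩ => ⟨y, hO y, e⟩⟩
  have gd : ∀ w ∈ Submodule.span Ω (Set.range G.ι),
      (MvPowerSeries.C (T.τF w) : SS Ω (Fin φ) (Fin b)) ∈ Good Ω (Fin φ) (Fin b) :=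
    fun w hw => T.good_F (eO ▸ hw)
  have oi : ∀ f, G.ι f ∈ T.OF := fun f => T.ι_mem (hO f)
  have dv : ∀ A, ∀ w ∈ G.R A, w / G.X j ^ A ∈ Submodule.span Ω (Set.range G.ι) := fun A w hw => by
    have := G.f2_span (Submodule.span_mono (Set.image_subset_range _ _) (G.R_eq A ▸ hw))
      (S.X j ^ A)⁻¹
    rwa [map_inv₀, map_pow, ← div_eq_mul_inv] at this
  have ow := T.C_le (div_mem_C h1 j)
  have oc := T.C_le (div_mem_C h0 j)
  have ep : ∀ N : ℕ, T.τF (c / G.X j ^ (S.m * a)) ^ N = T.τF ((c / G.X j ^ (S.m * a)) ^ N) :=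
    fun N => (map_pow T.homF ⟨_, oc⟩ N).symm
  rw [T.mu_dt] at hz rel
  have key := Δ.t2 MonomialOrder.degLex (m := m) (a := a) (α := α) (Nat.succ_pos N₁) (hx ▸ hm)
    (z := fun i => T.τF (G.ι (z i))) (c := T.τF (c / G.X j ^ (S.m * a)))
    (w := T.τF (w / G.X j ^ a)) (fun i => gd _ (Submodule.subset_span ⟨_, rfl⟩))
    (gd _ (dv _ c h0)) (gd _ (dv _ w h1)) ?_ ?_ ?_ fun N h2 _ => ?_
  · rw [hU] at key
    obtain ⟨w', hw, e⟩ := T.mem_Wl_VT.1 key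
    have e1 := T.τF_inj _ (sub_mem (T.C_le (div_mem_C (G.W_le_R m a α hw) j)) ow)
      (by rw [map_sub, e, sub_self])
    rw [sub_eq_zero, div_left_inj' (pow_ne_zero a (G.X_ne j))] at e1
    exact e1 ▸ hw
  · rw [T.jac_F z fun i => hO _]
    refine fun h => hz ?_
    rw [(_root_.map_eq_zero _).1 (T.τF_inj _ (oi _) h), zero_pow S.mpos, mul_zero]
  · rw [hθ, hx, T.τ_const _ (hO _), T.jac_F z fun i => hO _]
    have e : (⟨_, oi T.θ⟩ * ⟨_, oc⟩ * ⟨_, oi (T.dt (Sum.elim G.y z))⟩ ^ S.m : T.OF) =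
        (⟨_, ow⟩ * ∏ i, ⟨_, oi (z i)⟩) ^ S.m := by
      refine Subtype.ext ?_
      simp only [MulMemClass.coe_mul, SubmonoidClass.coe_pow, SubmonoidClass.coe_finsetProd]
      rw [div_mul_eq_mul_div w, div_pow, ← rel, ← pow_mul, mul_comm a, map_mul, map_pow]
      ring
    have e' := congrArg T.homF e
    rw [map_mul, map_mul, map_pow, map_pow, map_mul, map_prod] at e'
    exact e'
  · have h3 := f2_pow_R h0 N₁.succ
    rw [← mul_assoc, mul_comm N₁.succ] at h3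
    rw [hU, hx]
    refine T.mem_Wl_VT.2 ⟨c ^ N₁.succ, G.W_down _ _ (fun i => by simp)
      ((hN _ ((Nat.le_succ N₁).trans (Nat.le_mul_of_pos_left _ hm))).ge h3), ?_⟩
    rw [ep, div_pow, ← pow_mul, mul_right_comm]
  · have h3 := mul_mem_R (f2_pow_R h0 N) h1
    rw [← mul_assoc, mul_comm N, ← Nat.succ_mul] at h3
    have h4 := Nat.le_mul_of_pos_left N hm
    rw [hU, hx]
    refine T.mem_Wl_VT.2 ⟨_, G.W_down _ _ (fun i => by simp) ((hN _ (by omega)).ge h3), ?_⟩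
    rw [ep, ← T.τF_mul _ (pow_mem oc N) _ ow, div_pow, ← pow_mul, div_mul_div_comm, ← pow_add,
      mul_right_comm, Nat.succ_mul]

omit [CharZero E] in
theorem exists_top {c₀ e₀ : ℕ}
    (hT : ∀ (j : ι) (ev : G.C j →ₐ[Ω] Ω), Nonempty (G.Tau c₀ e₀ j ev)) :
    ∃ (j : ι) (ev : G.C j →ₐ[Ω] Ω) (T : G.Tau c₀ e₀ j ev), ∀ f, f ∈ T.O := by
  obtain ⟨ev, hev⟩ := G.exists_e_pt S.i₀
  obtain ⟨T⟩ := hT S.i₀ ev
  refine ⟨S.i₀, ev, T, T.mem_O_of_inj fun f f' e h0 h1 => h0 ?_⟩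
  have := S.frac_B S.i₀
  obtain ⟨p, q, hq, rfl⟩ := IsFractionRing.div_surjective (S.B S.i₀) f'
  have h2 : (q : M) ≠ 0 := fun h => nonZeroDivisors.ne_zero hq (Subtype.ext h)
  have h3 : (⟨G.ι p, G.ι_mem_C p.2⟩ : G.C S.i₀) = f * ⟨G.ι q, G.ι_mem_C q.2⟩ := Subtype.ext (by
    change G.ι p = f * G.ι q
    rw [← e, ← map_mul]
    exact congrArg G.ι (div_mul_cancel₀ _ h2).symm)
  have h4 := hev p p.2
  rw [h3, map_mul, h1, zero_mul, eq_comm, _root_.map_eq_zero] at h4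
  exact div_eq_zero_iff.2 (Or.inl h4)

end Pool.Agent.Lib.MP_bc213e_ag.DD.Geo
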