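import Pool.Agent.Lib.MP_bc213e_ag.DF.TauL

/-! The section ring of the fibre is spanned by roots of multiples of densities. -/

namespace Pool.Agent.Lib.MP_bc213e_ag.DD.Geo

variable {K M ι : Type} [Field K] [Algebra ℂ K] [Field M] [Algebra ℂ M] [Algebra K M] {n : ℕ}
  {S : Su K M ι n} {Ω E : Type} [Field Ω] [Algebra ℂ Ω] [Field E] [Algebra ℂ E] [Algebra Ω E]
  [IsScalarTower ℂ Ω E] {b φ : ℕ} (G : Geo S Ω E b φ) [IsScalarTower ℂ K M] [Fintype ι]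

/-- The functions `h` that are admissible in degree `a` on the chart `j`. -/
def Adm (j : ι) (a : ℕ) (h : M) : Prop :=
  S.X j ^ a * h ∈ S.U a ∧ ∃ (z : Fin φ → M) (c : M), S.mu (Sum.elim G.y z ∘ G.ε) ≠ 0 ∧
    c ∈ S.U (S.m * a) ∧ c * S.mu (Sum.elim G.y z ∘ G.ε) = (S.X j ^ a * h * ∏ i, z i) ^ S.m

variable {G} in
theorem Tau.adm {c₀ e₀ : ℕ} {j : ι} {ev : G.C j →ₐ[Ω] Ω} (T : G.Tau c₀ e₀ j ev) :
    ∃ (h : M) (f : G.C j), (f : E) = G.ι h ∧ ev f ≠ 0 ∧ ∃ N, ∀ a, N ≤ a → G.Adm j a h := by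
  obtain ⟨h, hB, h0, hj⟩ := (T.mem_O _).1 T.mu1_inv
  obtain ⟨k, hk⟩ := Nat.exists_eq_succ_of_ne_zero S.mpos
  have hc : h ^ k * (h * T.mu1⁻¹) * ∏ i, T.z i ^ (S.m - T.dd i) ∈ S.B j :=
    mul_mem (mul_mem (pow_mem hB k) hj) (prod_mem fun i _ => pow_mem (T.z_mem i) _)
  obtain ⟨N₁, hN₁⟩ := S.homog hB
  obtain ⟨N₂, hN₂⟩ := S.homog hc
  refine ⟨h, ⟨_, G.ι_mem_C hB⟩, rfl, T.τF_ev _ ▸ h0, max N₁ N₂, fun a ha =>
    ⟨hN₁ a (le_of_max_le_left ha), T.z, _, S.mu_ne_zero (T.coo.toFrame.equiv G.ε),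
      hN₂ _ ((le_of_max_le_right ha).trans
        (Nat.le_mul_of_pos_left a (Nat.pos_of_ne_zero S.mpos))), ?_⟩⟩
  have e : (∏ i, T.z i ^ (S.m - T.dd i)) * ∏ i, T.z i ^ T.dd i = (∏ i, T.z i) ^ S.m := by
    rw [← Finset.prod_mul_distrib, ← Finset.prod_pow]
    exact Finset.prod_congr rfl fun i _ => by rw [← pow_add, Nat.sub_add_cancel (T.dd_lt i).le]
  have e1 : h ^ S.m = h ^ k * h := by rw [hk, pow_succ]
  have := T.mu1_ne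
  rw [T.mu_eq, mul_pow, mul_pow, ← e, ← pow_mul, mul_comm a, e1]
  field_simp

theorem f3_one [IsAlgClosed Ω] {c₀ e₀ : ℕ}
    (hT : ∀ (j : ι) (ev : G.C j →ₐ[Ω] Ω), Nonempty (G.Tau c₀ e₀ j ev)) (j : ι) :
    ∃ N, (1 : E) ∈ Submodule.span (G.C j)
      {f | ∃ h : M, f = G.ι h ∧ ∀ a, N ≤ a → G.Adm j a h} := by
  let A : ℕ → Set E := fun N => {f | ∃ h : M, f = G.ι h ∧ ∀ a, N ≤ a → G.Adm j a h}
  have hA : Monotone A := by
    rintro N N' hN f ⟨h, e, ha⟩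
    exact ⟨h, e, fun a h' => ha a (hN.trans h')⟩
  have h1 := G.null j (T := {f | f ∈ G.C j ∧ f ∈ ⋃ N, A N}) (fun f hf => hf.1) fun ev => by
    obtain ⟨T⟩ := hT j ev
    obtain ⟨h, f, e, h0, N, hN⟩ := T.adm
    exact ⟨f, ⟨f.2, Set.mem_iUnion.2 ⟨N, h, e, hN⟩⟩, h0⟩
  have h2 : (1 : E) ∈ ⨆ N, Submodule.span (G.C j) (A N) := by
    rw [← Submodule.span_iUnion]
    exact Submodule.span_mono (fun f hf => hf.2) h1
  exact (Submodule.mem_iSup_of_directed _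
    (Monotone.directed_le fun N N' hN => Submodule.span_mono (hA hN))).1 h2

omit [IsScalarTower ℂ K M] [Fintype ι] in
variable {G} in
theorem f3_pow {a : ℕ} {w : E} (h : w ∈ G.R a) (N : ℕ) : w ^ N ∈ G.R (N * a) := by
  induction N with
  | zero => rw [pow_zero]; exact G.one_mem_R _
  | succ N ih => rw [pow_succ, Nat.succ_mul]; exact mul_mem_R ih h

theorem cover [IsAlgClosed Ω] {c₀ e₀ : ℕ}
    (hT : ∀ (j : ι) (ev : G.C j →ₐ[Ω] Ω), Nonempty (G.Tau c₀ e₀ j ev)) :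
    ∃ a₁, ∀ a, a₁ ≤ a → G.R a ≤ Submodule.span Ω {w | ∃ (c : E) (z : Fin φ → M),
      c ∈ G.R (S.m * a) ∧ w ∈ G.R a ∧ S.mu (Sum.elim G.y z ∘ G.ε) ≠ 0 ∧
        c * G.ι (S.mu (Sum.elim G.y z ∘ G.ε)) = (w * ∏ i, G.ι (z i)) ^ S.m} := by
  choose N hN using G.f3_one hT
  obtain ⟨a₀, ha₀⟩ : ∃ a₀, ∀ j, N j ≤ a₀ :=
    ⟨Finset.univ.sup N, fun j => Finset.le_sup (Finset.mem_univ j)⟩
  let W : Submodule Ω E := Submodule.span Ω {w | ∃ (j : ι) (h : M),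
    G.Adm j a₀ h ∧ w = G.ι (S.X j ^ a₀ * h)}
  have hW : W ≤ G.R a₀ := by
    refine Submodule.span_le.2 ?_
    rintro _ ⟨j, h, ha, rfl⟩
    exact G.ι_mem_R ha.1
  obtain ⟨a₁, ha₁⟩ := G.genhi hW fun j => by
    refine Submodule.span_mono ?_ (hN j)
    rintro _ ⟨h, rfl, ha⟩
    refine ⟨_, Submodule.subset_span ⟨j, h, ha a₀ (ha₀ j), rfl⟩, ?_⟩
    change G.ι (_ * _) / G.X j ^ a₀ = _
    rw [map_mul, map_pow]
    exact mul_div_cancel_left₀ _ (pow_ne_zero _ (G.X_ne j))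
  refine ⟨a₁ + a₀, fun a ha => ?_⟩
  obtain ⟨a', rfl⟩ : ∃ a', a = a' + a₀ := ⟨a - a₀, by omega⟩
  refine (ha₁ a' (by omega)).trans (Submodule.mul_le.2 fun w hw r hr => ?_)
  induction hw using Submodule.span_induction with
  | mem x hx =>
    obtain ⟨j, h, ⟨h1, z, c, h2, h3, h4⟩, rfl⟩ := hx
    refine Submodule.subset_span ⟨r ^ S.m * G.ι c, z, ?_, ?_, h2, ?_⟩
    · rw [mul_add]
      exact mul_mem_R (f3_pow hr _) (G.ι_mem_R h3)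
    · rw [mul_comm]
      exact mul_mem_R hr (G.ι_mem_R h1)
    · rw [mul_assoc, ← map_mul, h4, map_pow, map_mul G.ι (_ * h), map_prod]
      ring
  | zero => rw [zero_mul]; exact zero_mem _
  | add x y _ _ hx hy => rw [add_mul]; exact add_mem hx hy
  | smul c x _ hx => rw [smul_mul_assoc]; exact Submodule.smul_mem _ c hx

end Pool.Agent.Lib.MP_bc213e_ag.DD.Geo
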