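import Pool.Agent.Lib.MP_bc213e_ag.DC.Hens
import Pool.Agent.Lib.MP_bc213e_ag.DD.Defs

/-! Expansions of the elements of an unramified local ring have integral coefficients. -/

namespace Pool.Agent.Lib.MP_bc213e_ag.DC

open MvPolynomial DD

variable {O Ω V T : Type} [CommRing O] [Algebra ℂ O] [Field Ω] [Algebra ℂ Ω]

/-- A derivation that kills the relations descends to the localisation. -/
theorem rel_descend {A : Type} [CommRing A] [Algebra ℂ A] (π : A →ₐ[ℂ] O) (β : O →ₐ[ℂ] Ω)
    (loc : ∀ r : O, ∃ p q : A, β (π q) ≠ 0 ∧ π q * r = π p) (D : A →+ Ω)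
    (hm : ∀ p q, D (p * q) = β (π p) * D q + β (π q) * D p)
    (hc : ∀ c : ℂ, D (algebraMap ℂ A c) = 0) (hk : ∀ p, π p = 0 → D p = 0) :
    ∃ δ : O →+ Ω, TwD β δ ∧ ∀ p, δ (π p) = D p := by
  choose P Q hQ hP using loc
  let d : O → Ω := fun r => (D (P r) - β r * D (Q r)) / β (π (Q r))
  have ev : ∀ {r p q}, π q * r = π p → β (π p) = β (π q) * β r := fun h => by
    rw [← h, map_mul]
  have key : ∀ r p q, π q * r = π p → β (π q) * d r = D p - β r * D q := by
    intro r p q h
    have h0 := hk (q * P r - Q r * p) (by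
      rw [map_sub, map_mul, map_mul, ← h, ← hP r]
      ring)
    rw [map_sub, hm, hm, ev h, ev (hP r)] at h0
    have := hQ r
    simp only [d]
    field_simp
    linear_combination h0
  have hadd : ∀ r s, d (r + s) = d r + d s := by
    intro r s
    have h := key (r + s) (P r * Q s + P s * Q r) (Q r * Q s) (by
      rw [map_add, map_mul, map_mul, map_mul, ← hP r, ← hP s]
      ring)
    rw [map_add, map_add, hm, hm, hm, ev (hP r), ev (hP s), map_mul, map_mul] at h
    refine mul_left_cancel₀ (mul_ne_zero (hQ r) (hQ s)) ?_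
    linear_combination h - β (π (Q s)) * key r _ _ (hP r) - β (π (Q r)) * key s _ _ (hP s)
  have hπ : ∀ p, d (π p) = D p := by
    intro p
    have h := key (π p) p 1 (by rw [map_one, one_mul])
    have h1 := hc 1
    rw [map_one] at h1
    rwa [map_one, map_one, one_mul, h1, mul_zero, sub_zero] at h
  refine ⟨AddMonoidHom.mk' d hadd, ⟨fun r s => ?_, fun c => ?_⟩, hπ⟩
  · have h := key (r * s) (P r * P s) (Q r * Q s) (by
      rw [map_mul, map_mul, ← hP r, ← hP s]
      ring)
    rw [hm, hm, ev (hP r), ev (hP s), map_mul, map_mul, map_mul] at h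
    refine mul_left_cancel₀ (mul_ne_zero (hQ r) (hQ s)) ?_
    simp only [AddMonoidHom.mk'_apply, smul_eq_mul]
    linear_combination h - β (π (Q s)) * β s * key r _ _ (hP r) -
      β (π (Q r)) * β r * key s _ _ (hP s)
  · rw [← π.commutes]
    exact (hπ _).trans (hc c)

theorem grad_span [Fintype V] (f : V → O) (t : T → O) (β : O →ₐ[ℂ] Ω)
    (loc : ∀ r : O, ∃ p q : MvPolynomial (V ⊕ T) ℂ, β (aeval (Sum.elim f t) q) ≠ 0 ∧
      aeval (Sum.elim f t) q * r = aeval (Sum.elim f t) p)
    (et : ∀ δ : O →+ Ω, TwD β δ → (∀ c, δ (t c) = 0) → δ = 0) :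
    Submodule.span Ω {u : V → Ω | ∃ p : MvPolynomial (V ⊕ T) ℂ, aeval (Sum.elim f t) p = 0 ∧
      u = fun i => β (aeval (Sum.elim f t) (pderiv (Sum.inl i) p))} = ⊤ := by
  classical
  by_contra hne
  obtain ⟨φ, hφ, hle⟩ := Submodule.exists_le_ker_of_lt_top _ (lt_top_iff_ne_top.2 hne)
  let g : MvPolynomial (V ⊕ T) ℂ → V → Ω := fun p i =>
    β (aeval (Sum.elim f t) (pderiv (Sum.inl i) p))
  have gadd : ∀ p q, φ (g (p + q)) = φ (g p) + φ (g q) := fun p q => by
    rw [← map_add]
    congr 1
    funext i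
    simp only [g, map_add, Pi.add_apply]
  obtain ⟨δ, hδ, hD⟩ := rel_descend (aeval (Sum.elim f t)) β loc
    (AddMonoidHom.mk' (fun p => φ (g p)) gadd) (fun p q => by
      simp only [AddMonoidHom.mk'_apply]
      have : g (p * q) = β (aeval (Sum.elim f t) p) • g q + β (aeval (Sum.elim f t) q) • g p := by
        funext i
        simp only [g, pderiv_mul, map_add, map_mul, Pi.add_apply, Pi.smul_apply, smul_eq_mul]
        ring
      rw [this, map_add, map_smul, map_smul, smul_eq_mul, smul_eq_mul]) (fun c => by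
      have : g (algebraMap ℂ _ c) = 0 := by
        funext i
        simp only [g, Derivation.map_algebraMap, map_zero, Pi.zero_apply]
      simp only [AddMonoidHom.mk'_apply, this, map_zero])
    (fun p hp => hle (Submodule.subset_span ⟨p, hp, rfl⟩))
  have h0 := et δ hδ fun c => by
    have h := hD (X (Sum.inr c))
    have : g (X (Sum.inr c)) = 0 := by
      funext i
      simp only [g, pderiv_X_of_ne (Sum.inr_ne_inl (a := i) (b := c)), map_zero, Pi.zero_apply]
    simpa only [aeval_X, Sum.elim_inr, AddMonoidHom.mk'_apply, this, map_zero] using h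
  refine hφ (LinearMap.pi_ext' fun i => LinearMap.ext_ring ?_)
  have h := hD (X (Sum.inl i))
  have : g (X (Sum.inl i)) = Pi.single i 1 := by
    funext j
    by_cases hj : j = i
    · subst hj
      simp only [g, pderiv_X_self, map_one, Pi.single_eq_same]
    · have hj' : (Sum.inl i : V ⊕ T) ≠ Sum.inl j := fun e => hj (Sum.inl_injective e).symm
      simp only [g, pderiv_X_of_ne hj', map_zero, Pi.single_eq_of_ne hj]
  rw [h0] at h
  simpa [this] using h.symm

theorem good_of_et {ρ σ : Type} [Finite V] (f : V → O) (t : T → O) (h : O →ₐ[ℂ] SS Ω ρ σ)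
    (β : O →ₐ[ℂ] Ω)
    (hβ : ∀ r, β r = MvPowerSeries.constantCoeff (MvPowerSeries.constantCoeff (h r)))
    (loc : ∀ r : O, ∃ p q : MvPolynomial (V ⊕ T) ℂ, β (aeval (Sum.elim f t) q) ≠ 0 ∧
      aeval (Sum.elim f t) q * r = aeval (Sum.elim f t) p)
    (et : ∀ δ : O →+ Ω, TwD β δ → (∀ c, δ (t c) = 0) → δ = 0) (ht : ∀ c, h (t c) ∈ Good Ω ρ σ)
    (r : O) : h r ∈ Good Ω ρ σ := by
  classical
  have := Fintype.ofFinite V
  have hmap : ∀ p : MvPolynomial (V ⊕ T) ℂ,
      aeval (Sum.elim (fun i => h (f i)) fun c => h (t c)) (map (algebraMap ℂ Ω) p) =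
        h (aeval (Sum.elim f t) p) := fun p => by
    rw [aeval_map_algebraMap, ← AlgHom.comp_apply, comp_aeval]
    congr 2
    funext x
    cases x <;> rfl
  have hG : ∀ u : V → Ω, ∃ G : MvPolynomial (V ⊕ T) Ω,
      aeval (Sum.elim (fun i => h (f i)) fun c => h (t c)) G = 0 ∧
        ∀ j, MvPowerSeries.constantCoeff (MvPowerSeries.constantCoeff
          (aeval (Sum.elim (fun i => h (f i)) fun c => h (t c)) (pderiv (Sum.inl j) G))) =
            u j := by
    intro u
    have hu := (grad_span f t β loc et).ge (Submodule.mem_top (x := u))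
    induction hu using Submodule.span_induction with
    | mem u hu =>
      obtain ⟨p, hp, rfl⟩ := hu
      exact ⟨map (algebraMap ℂ Ω) p, by rw [hmap, hp, map_zero],
        fun j => by rw [pderiv_map, hmap, ← hβ]⟩
    | zero => exact ⟨0, map_zero _, fun j => by simp only [map_zero, Pi.zero_apply]⟩
    | add u v _ _ hu hv =>
      obtain ⟨G, h1, h2⟩ := hu
      obtain ⟨G', h1', h2'⟩ := hv
      exact ⟨G + G', by rw [map_add, h1, h1', add_zero],
        fun j => by simp only [map_add, h2, h2', Pi.add_apply]⟩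
    | smul c u _ hu =>
      obtain ⟨G, h1, h2⟩ := hu
      refine ⟨c • G, by rw [map_smul, h1, smul_zero], fun j => ?_⟩
      rw [Derivation.map_smul, map_smul, Pi.smul_apply, ← h2 j]
      rfl
  choose G hG0 hG1 using fun i : V => hG (Pi.single i 1)
  have hf := good_of_rel (fun i => h (f i)) (fun c => h (t c)) ht G hG0 (by
    have : (Matrix.of fun i j => MvPowerSeries.constantCoeff (MvPowerSeries.constantCoeff
        (aeval (Sum.elim (fun i => h (f i)) fun c => h (t c)) (pderiv (Sum.inl j) (G i))))) =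
          (1 : Matrix V V Ω) := by
      ext i j
      rw [Matrix.of_apply, hG1, Matrix.one_apply, Pi.single_apply]
      simp only [eq_comm]
    rw [this, Matrix.det_one]
    exact one_ne_zero)
  have hp : ∀ p : MvPolynomial (V ⊕ T) ℂ, h (aeval (Sum.elim f t) p) ∈ Good Ω ρ σ := fun p => by
    rw [← hmap]
    generalize map (algebraMap ℂ Ω) p = q
    induction q using MvPolynomial.induction_on with
    | C a =>
      rw [aeval_C]
      exact Subalgebra.algebraMap_mem _ a
    | add p q hp hq =>
      rw [map_add]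
      exact add_mem hp hq
    | mul_X p x hp =>
      rw [map_mul, aeval_X]
      refine mul_mem hp ?_
      cases x with
      | inl i => exact hf i
      | inr c => exact ht c
  obtain ⟨p, q, hq, e⟩ := loc r
  refine good_of_mul (hp q) ?_ ?_
  · rw [MvPowerSeries.isUnit_iff_constantCoeff, MvPowerSeries.isUnit_iff_constantCoeff, ← hβ]
    exact hq.isUnit
  · rw [← map_mul, mul_comm, e]
    exact hp p

end Pool.Agent.Lib.MP_bc213e_ag.DC
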