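import Pool.Agent.Lib.MP_bc213e_ag.DF.TauL
import Pool.Agent.Lib.MP_bc213e_ag.DC.Rel
import Pool.Agent.Lib.MP_bc213e_ag.DC.BC

/-! The Taylor expansion at a point: integrality and Jacobians. -/

namespace Pool.Agent.Lib.MP_bc213e_ag.DD.Geo.Tau

open Pool.Agent.Lib.MP_bc213e_ag.Hyp Pool.Agent.Lib.MP_bc213e_ag.DC MvPowerSeries
open scoped TensorProduct

variable {K M ι : Type} [Field K] [Algebra ℂ K] [Field M] [Algebra ℂ M] [Algebra K M] {n : ℕ}
  {S : Su K M ι n} {Ω E : Type} [Field Ω] [Algebra ℂ Ω] [Field E] [Algebra ℂ E] [Algebra Ω E]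
  [IsScalarTower ℂ Ω E] {b φ : ℕ} {G : Geo S Ω E b φ} [IsScalarTower ℂ K M]
  {c₀ e₀ : ℕ} {j : ι} {ev : G.C j →ₐ[Ω] Ω} (T : G.Tau c₀ e₀ j ev)

/-- The density of the coordinates. -/
noncomputable def θ : M := S.mu (Sum.elim G.y T.z ∘ G.ε)

/-- The Jacobian with respect to the coordinates. -/
noncomputable def dt (F : Fin b ⊕ Fin φ → M) : M := (Matrix.of fun a c => T.D a (F c)).det

theorem θ_mem : T.θ ∈ T.O := by
  rw [θ, T.mu_eq]
  exact mul_mem T.mu1_mem (prod_mem fun c _ => pow_mem (T.B_le (T.z_mem c)) _)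

/-- The expansion of the functions on the base. -/
noncomputable def hK : K →ₗ[ℂ] SS Ω (Fin φ) (Fin b) :=
  T.τ ∘ₗ (IsScalarTower.toAlgHom ℂ K M).toLinearMap

theorem hK_apply (f : K) : T.hK f = T.τ (algebraMap K M f) := rfl

theorem map_mem {r : K} (hr : r ∈ chart S.x j) : algebraMap K M r ∈ T.O := T.B_le (S.map_mem_B hr)

/-- The value at the point. -/
noncomputable def glueaβ : T.O →ₐ[ℂ] Ω where
  toRingHom := (constantCoeff.comp constantCoeff).comp T.hom.toRingHom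
  commutes' c := by
    change constantCoeff (constantCoeff (T.hom (algebraMap ℂ T.O c))) = _
    rw [AlgHom.commutes, MvPowerSeries.algebraMap_apply, constantCoeff_C,
      MvPowerSeries.algebraMap_apply, constantCoeff_C]

theorem gluea_CC {Ω ρ σ : Type} [Field Ω] (c : Ω) :
    (MvPowerSeries.C (MvPowerSeries.C c) : SS Ω ρ σ) ∈ Good Ω ρ σ := by
  have h := (Good Ω ρ σ).algebraMap_mem c
  rwa [MvPowerSeries.algebraMap_apply, MvPowerSeries.algebraMap_apply] at h

theorem glueaβ_apply (f : T.O) : T.glueaβ f = constantCoeff (T.τF (G.ι f)) :=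
  congrArg constantCoeff (T.τ_const f f.2)

theorem good [Finite ι] {f : M} (hf : f ∈ T.O) : T.τ f ∈ Good Ω (Fin φ) (Fin b) := by
  have key (q : MvPolynomial (Option ι) ℂ) :
      (MvPolynomial.aeval (Sum.elim (fun o => (⟨S.gen j o, T.B_le (S.gen_mem j o)⟩ : T.O))
        fun c => ⟨Sum.elim G.y T.z c, T.coo.mem c⟩) (MvPolynomial.rename Sum.inl q)).1 =
        MvPolynomial.aeval (S.gen j) q := by
    rw [MvPolynomial.aeval_rename]
    exact MvPolynomial.comp_aeval_apply _ T.O.val q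
  refine good_of_et (fun o => (⟨S.gen j o, T.B_le (S.gen_mem j o)⟩ : T.O))
    (fun c => ⟨Sum.elim G.y T.z c, T.coo.mem c⟩) T.hom T.glueaβ (fun _ => rfl) (fun r => ?_)
    (fun δ h1 h2 => T.coo.et Ω Ω _ δ h1 h2) (fun c => ?_) ⟨f, hf⟩
  · obtain ⟨h, hB, h0, hr⟩ := (T.mem_O r).1 r.2
    rw [Su.B, Algebra.adjoin_range_eq_range_aeval] at hB hr
    obtain ⟨q, hq⟩ := hB
    obtain ⟨p, hp⟩ := hr
    replace hq : MvPolynomial.aeval (S.gen j) q = h := hq
    refine ⟨MvPolynomial.rename Sum.inl p, MvPolynomial.rename Sum.inl q, ?_, Subtype.ext ?_⟩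
    · rwa [glueaβ_apply, key, hq]
    · rw [MulMemClass.coe_mul, key, key, hq]
      exact hp.symm
  · rcases c with i | c
    · change T.τ (G.y i) ∈ _
      rw [T.τ_y]
      exact add_mem (gluea_CC _) (good_X i)
    · change T.τ (T.z c) ∈ _
      rw [T.τ_z, T.τF_z, map_add]
      exact add_mem (gluea_CC _) (good_CX c)

theorem span_le_OF {w : E} (hw : w ∈ Submodule.span Ω (G.ι '' T.O)) : w ∈ T.OF := by
  refine (Submodule.span_le (p := Subalgebra.toSubmodule T.OF)).2 ?_ hw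
  rintro _ ⟨f, hf, rfl⟩
  exact T.ι_mem hf

theorem good_F [Finite ι] {w : E} (hw : w ∈ Submodule.span Ω (G.ι '' T.O)) :
    (MvPowerSeries.C (T.τF w) : SS Ω (Fin φ) (Fin b)) ∈ Good Ω (Fin φ) (Fin b) := by
  induction hw using Submodule.span_induction with
  | mem w hw =>
    obtain ⟨f, hf, rfl⟩ := hw
    rw [← T.τ_const f hf, ← coeff_zero_eq_constantCoeff_apply]
    exact good_C_coeff (T.good hf) 0
  | zero =>
    rw [map_zero, map_zero]
    exact zero_mem _
  | add u v _ _ hu hv =>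
    rw [map_add, map_add]
    exact add_mem hu hv
  | smul c w _ hw =>
    rw [map_smul, smul_eq_C_mul, map_mul]
    exact mul_mem (gluea_CC c) hw

theorem ph [CharZero E] : PH Ω (chart S.x j) T.hK := by
  refine ⟨?_, fun f hf f' hf' => ?_, fun s hs h => ?_⟩
  · rw [hK_apply, map_one, T.τ_one]
  · rw [hK_apply, map_mul, T.τ_mul _ (T.map_mem hf) _ (T.map_mem hf'), hK_apply, hK_apply]
  · have e (s : Ω ⊗[ℂ] K) : T.τ.liftBaseChange Ω
        ((IsScalarTower.toAlgHom ℂ K M).toLinearMap.baseChange Ω s) = T.hK.liftBaseChange Ω s := by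
      induction s using TensorProduct.induction_on with
      | zero => rw [map_zero, map_zero, map_zero]
      | tmul c f => rfl
      | add u v hu hv => rw [map_add, map_add, map_add, hu, hv]
    refine Module.Flat.lTensor_preserves_injective_linearMap (M := Ω)
      (IsScalarTower.toAlgHom ℂ K M).toLinearMap (algebraMap K M).injective
      ((T.lift_inj ?_ ((e s).trans h)).trans (map_zero _).symm)
    obtain ⟨t, rfl⟩ := hs
    clear h
    induction t using TensorProduct.induction_on with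
    | zero =>
      rw [map_zero, map_zero]
      exact zero_mem _
    | tmul c f => exact Submodule.tmul_mem_baseChange_of_mem c (T.map_mem f.2)
    | add u v hu hv =>
      rw [map_add, map_add]
      exact add_mem hu hv

theorem unit_of {f : M} (h0 : f ≠ 0) (h1 : f ∈ T.O) (h2 : f⁻¹ ∈ T.O) : IsUnit (T.τ f) := by
  refine IsUnit.of_mul_eq_one (T.τ f⁻¹) ?_
  rw [← T.τ_mul _ h1 _ h2, mul_inv_cancel₀ h0, T.τ_one]

theorem unit_v [Fintype ι] : IsUnit (T.τ (S.v j)) := by
  have h1 := T.B_le (S.v_mem j)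
  refine T.unit_of (S.v_ne j) h1 (T.inv_mem_O h1 fun h => ?_)
  have e := congrArg constantCoeff (T.τF_mul _ (T.ι_mem h1) _ (T.C_le (G.v_inv_mem j)))
  rw [mul_inv_cancel₀ ((map_ne_zero _).2 (S.v_ne j)), T.τF_one, map_one, map_mul, h, zero_mul] at e
  exact one_ne_zero e

theorem τ_det {κ : Type} [Fintype κ] [DecidableEq κ] (A : Matrix κ κ M) (hA : ∀ c d, A c d ∈ T.O) :
    A.det ∈ T.O ∧ T.τ A.det = (A.map T.τ).det ∧
      T.τF (G.ι A.det) = (A.map fun f => T.τF (G.ι f)).det := by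
  let A' : Matrix κ κ T.O := Matrix.of fun c d => ⟨A c d, hA c d⟩
  let B' : Matrix κ κ T.OF := Matrix.of fun c d => ⟨G.ι (A c d), T.ι_mem (hA c d)⟩
  have e : A'.det.1 = A.det := T.O.val.map_det A'
  have e' : B'.det.1 = G.ι A.det := (T.OF.val.map_det B').trans (G.ι.map_det A).symm
  refine ⟨e ▸ A'.det.2, ?_, ?_⟩
  · rw [← e]
    exact T.hom.map_det A'
  · rw [← e']
    exact T.homF.map_det B'

theorem mu_dt (F : Fin b ⊕ Fin φ → M) : S.mu (F ∘ G.ε) = T.θ * T.dt F ^ S.m := by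
  rw [S.mu_chain (T.coo.toFrame.equiv G.ε), θ, dt, ← Matrix.det_submatrix_equiv_self G.ε]
  rfl

theorem dt_mem {F : Fin b ⊕ Fin φ → M} (hF : ∀ i, F i ∈ T.O) : T.dt F ∈ T.O :=
  (T.τ_det _ fun _ c => T.coo.pres _ _ (hF c)).1

theorem jac_τ (F : Fin φ ⊕ Fin b → M) (hF : ∀ i, F i ∈ T.O) :
    Jac (dS Ω (Fin φ) (Fin b)) (fun i => T.τ (F i)) = T.τ (T.dt (F ∘ Sum.swap)) := by
  have h := T.τ_det (Matrix.of fun a c => T.D a.swap (F c)) fun a c => T.coo.pres _ _ (hF c)
  have e : T.dt (F ∘ Sum.swap) = (Matrix.of fun a c => T.D a.swap (F c)).det := by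
    rw [dt, ← Matrix.det_submatrix_equiv_self (Equiv.sumComm (Fin φ) (Fin b))]
    congr 1
    ext a c
    simp
  rw [e]
  refine Eq.trans ?_ h.2.1.symm
  unfold Jac
  congr 1
  ext1 a c
  rcases a with a | a
  · exact T.τ_der (Sum.inr a) _ (hF c)
  · exact T.τ_der (Sum.inl a) _ (hF c)

theorem jac_F (z : Fin φ → M) (hz : ∀ c, z c ∈ T.O) :
    Jac (fun c => pderiv Ω c) (fun c => T.τF (G.ι (z c))) =
      T.τF (G.ι (T.dt (Sum.elim G.y z))) := by
  have h := T.τ_det (Matrix.of fun a c => T.D (Sum.inr a) (z c)) fun a c => T.coo.pres _ _ (hz c)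
  have e : (Matrix.of fun a c => T.D a (Sum.elim G.y z c)) = Matrix.fromBlocks 1
      (Matrix.of fun a c => T.D (Sum.inl a) (z c)) 0
      (Matrix.of fun a c => T.D (Sum.inr a) (z c)) := by
    ext a c
    rcases c with c | c
    · refine (T.coo.dual a (Sum.inl c)).trans ?_
      rcases a with a | a <;> simp [Matrix.one_apply]
    · rcases a with a | a <;> rfl
  rw [dt, e, Matrix.det_fromBlocks_zero₂₁, Matrix.det_one, one_mul, h.2.2]
  unfold Jac
  congr 1
  ext1 a c
  exact T.pderiv_τF a (hz c)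

end Pool.Agent.Lib.MP_bc213e_ag.DD.Geo.Tau
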