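import Pool.Agent.Lib.MP_bc213e_ag.DC.KM4
import Pool.Agent.Lib.MP_bc213e_ag.DC.BC

/-! The hypersurface model of a chart. -/

namespace Pool.Agent.Lib.MP_bc213e_ag.DC

open Hyp KBB KBG MvPolynomial IntermediateField Module

variable {K ι : Type} [Field K] [Algebra ℂ K] {n : ℕ} [Fintype ι] {x g : ι → Kˣ}

theorem exists_yw {j : ι} (frac : IsFractionRing (chart x j) K) (dim : Algebra.trdeg ℂ K = n) :
    ∃ (y : Fin n → K) (w : K), IsTranscendenceBasis ℂ y ∧ FiniteDimensional (FF y) K ∧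
      (∀ l, y l * x j ∈ VV x) ∧ (∀ o, ZZ y w o ∈ chart x j) ∧ (∀ i, (x i : K) / x j ∈ Bd y 1) ∧
      w ∈ Bd y 1 ∧ adjoin (FF y) {w} = ⊤ := by
  have gen : adjoin ℂ (Set.range fun i => (x i : K) / x j) = ⊤ := by
    refine eq_top_iff.2 fun z _ => ?_
    obtain ⟨a, b, -, rfl⟩ := IsFractionRing.div_surjective (chart x j) z
    exact div_mem (algebra_adjoin_le_adjoin ℂ _ a.2) (algebra_adjoin_le_adjoin ℂ _ b.2)
  obtain ⟨y, h1, h2, h3⟩ := nn _ gen dim
  have fd := fd_of_gen _ gen y h2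
  obtain ⟨w, h4, h5⟩ := exists_primitive _ gen (FF y)
  have hc : ∀ z ∈ Submodule.span ℂ (Set.range fun i => (x i : K) / x j), z ∈ chart x j :=
    fun z hz => Algebra.span_le_adjoin ℂ _ hz
  have hv : ∀ z ∈ Submodule.span ℂ (Set.range fun i => (x i : K) / x j), z * x j ∈ VV x := by
    intro z hz
    induction hz using Submodule.span_induction with
    | mem r hr =>
      obtain ⟨l, rfl⟩ := hr
      rw [div_mul_cancel₀ _ (x j).ne_zero]
      exact Submodule.subset_span ⟨l, rfl⟩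
    | zero => rw [zero_mul]; exact zero_mem _
    | add a b _ _ ha hb => rw [add_mul]; exact add_mem ha hb
    | smul c a _ ha => rw [smul_mul_assoc]; exact Submodule.smul_mem _ c ha
  refine ⟨y, w, h2, fd, fun l => hv _ (h1 l), fun o => ?_, h3,
    Bd_le_Bd _ y h3 1 (span_le_Bd _ h4), h5⟩
  cases o with
  | none => exact hc _ h4
  | some l => exact hc _ (h1 l)

theorem exists_model (frac : ∀ i, IsFractionRing (chart x i) K)
    (norm : ∀ i, IsIntegrallyClosed (chart x i)) {τ : Fin n → K} (hτ : IsTranscendenceBasis ℂ τ)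
    {D : Fin n → Derivation ℂ K K} (hD : ∀ a b, D a (τ b) = if a = b then 1 else 0) {m : ℕ}
    (hm : m ≠ 0)
    (can : ∀ i, ∀ u : Fin n → K, (∀ b, u b ∈ chart x i) → jac D u ^ m / g i ∈ chart x i)
    (hc : Cart x g) (j : ι) : ∃ (c : ℕ) (M : Mdl ℂ K (Option (Fin n)) ι (Fin (c + 1))),
      M.o = none ∧ M.ix = m ∧ M.OK0 ∧ M.In (chart x j) ∧
      M.κ = jac D (fun l => M.Y (some l)) ^ m / g j ∧
      (∀ i a : ℕ, NS x g j i a ≤ M.Sc i a) ∧ ∀ i a : ℕ, M.Out i a ≤ NS x g j i a := by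
  have dim : Algebra.trdeg ℂ K = n := by rw [← hτ.cardinalMk_eq_trdeg, Cardinal.mk_fin]
  obtain ⟨y, w, hy, fd, mem, hch, bd, hw, prim⟩ := exists_yw (frac j) dim
  obtain ⟨P, hP1, hP2, hP3⟩ := exists_eqn hy.1 hw prim
  obtain ⟨Dg, c, th, hd, th0, th1, th2⟩ := exists_cond hy.1 hw prim
  obtain ⟨e, he⟩ := exists_inv hc
  let M : Mdl ℂ K (Option (Fin n)) ι (Fin (c + 1)) :=
    ⟨none, ZZ y w, w, P, 1, jac D y ^ m / g j, th,
      fun c => th c ^ m * (jac D y ^ m / g j) / dl (FF y) w ^ m,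
      gam x g j e, j, 0, finrank (FF y) K, Dg, e, Dg + n + 2 - finrank (FF y) K, m⟩
  have hZ : M.Z = ZZ y w := Function.update_eq_self none (ZZ y w)
  have hR : ∀ b, NS x g j 0 b ≤ M.RR b := fun b r hr c => by
    rw [hZ]
    exact th2 b (mul_mem_cond (NS_le_Bd bd b hr) (th1 c))
  have num : M.N + finrank (FF y) K = Dg + n + 2 := Nat.sub_add_cancel (by omega)
  have hA : ∀ c, M.sg c ∈ NS x g j 1 (m * M.N) := fun c =>
    adj_NS frac norm hm can hc hy mem bd hw prim (th1 c) num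
  refine ⟨c, M, rfl, rfl, ⟨?_, hP1, ?_, fun c => ?_, fun c => ?_, fun l c => hR _ ?_, gam_self e, ?_,
    th0⟩, ⟨fun o => ?_, can j y fun b => hch (some b), fun c => ?_, fun c => NS_chart (hA c),
    fun l => NS_chart (gam_mem he l)⟩, rfl, fun i a s hs l => hR _ ?_,
    fun i a s hs => NS_of_gam (e := e) fun l => Bd_le_NS frac norm mem _ ?_⟩
  · rw [hZ]; exact hP2
  · rw [Fintype.card_option, Fintype.card_fin]; exact num
  · have h : M.Pw = dl (FF y) w := by rw [Mdl.Pw, hZ]; exact hP3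
    rw [h]
    exact div_mul_cancel₀ _ (pow_ne_zero _ (dl_ne_zero w))
  · rw [hZ]; exact cond_le _ (th1 c)
  · have h := NS_mul (gam_mem he l) (hA c)
    rwa [neg_add_cancel] at h
  · exact div_ne_zero (pow_ne_zero _ (jac_ne_of_tb hτ hD hy)) (g j).ne_zero
  · rw [hZ]; exact hch o
  · exact NS_chart (g := g) (Bd_le_NS frac norm mem _ (PL_le_Bd hw _ (cond_le _ (th1 c))))
  · have h := NS_mul hs (NS_pow (gam_mem he l) i)
    rwa [mul_neg_one, add_neg_cancel] at h
  · refine Bd_of_cond hw th0 th1 th2 fun c => ?_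
    rw [← hZ]
    exact hs l c

end Pool.Agent.Lib.MP_bc213e_ag.DC
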