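import Pool.Agent.Lib.MP_bc213e_ag.DC.GlueA
import Pool.Agent.Lib.MP_bc213e_ag.DC.KM
import Pool.Agent.Lib.MP_bc213e_ag.DC.Dat

/-! The data at a point of the fibre. -/

namespace Pool.Agent.Lib.MP_bc213e_ag.DD.Geo.Tau

open Pool.Agent.Lib.MP_bc213e_ag.Hyp Pool.Agent.Lib.MP_bc213e_ag.DC MvPowerSeries

variable {K M ι : Type} [Field K] [Algebra ℂ K] [Field M] [Algebra ℂ M] [Algebra K M] {n : ℕ}
  {S : Su K M ι n} {Ω E : Type} [Field Ω] [Algebra ℂ Ω] [Field E] [Algebra ℂ E] [Algebra Ω E]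
  [IsScalarTower ℂ Ω E] {b φ : ℕ} {G : Geo S Ω E b φ} [IsScalarTower ℂ K M]
  {c₀ e₀ : ℕ} {j : ι} {ev : G.C j →ₐ[Ω] Ω} (T : G.Tau c₀ e₀ j ev)

/-- The expansions of the sections on the base. -/
noncomputable def sec (i a : ℕ) : Submodule Ω (SS Ω (Fin φ) (Fin b)) :=
  Submodule.span Ω (T.hK '' NS S.x S.g j i a)

theorem glueb_mul {r : K} (hr : r ∈ chart S.x j) (i : ℕ) :
    T.τ (algebraMap K M r * S.v j ^ i) = T.hK r * T.τ (S.v j) ^ i := by
  have hv := T.B_le (S.v_mem j)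
  rw [T.τ_mul _ (T.map_mem hr) _ (pow_mem hv i)]
  exact congrArg _ (map_pow T.hom ⟨_, hv⟩ i)

theorem glueb_div (i a : ℕ) {r : K} (hr : r ∈ NS S.x S.g j i a) :
    T.τ (algebraMap K M (r * KBB.fr S.x S.g i a j) * S.u ^ i / S.X j ^ a) =
      T.hK r * T.τ (S.v j) ^ i := by
  rw [← T.glueb_mul (NS_chart hr), div_eq_iff (pow_ne_zero a (S.X_ne j)) |>.2]
  rw [KBB.fr, zpow_natCast, map_mul, map_mul, map_pow, map_pow, Su.v, Su.X]
  ring

theorem VT_eq (m a : ℕ) : T.VT m a =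
    Submodule.span Ω {f | ∃ i ≤ m, ∃ s ∈ T.sec i a, f = s * T.τ (S.v j) ^ i} := by
  refine le_antisymm (Submodule.span_le.2 ?_) (Submodule.span_le.2 ?_)
  · rintro _ ⟨f, hf, rfl⟩
    replace hf := S.V_le_span m a hf
    beta_reduce
    induction hf using Submodule.span_induction with
    | mem f hf =>
      obtain ⟨i, s, hi, hs, rfl⟩ := hf
      have e := div_mul_cancel₀ s (KBB.fr_ne S.x S.g i a j)
      have h : s / KBB.fr S.x S.g i a j ∈ NS S.x S.g j i a := mem_NS.2 (e.symm ▸ hs)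
      rw [← e, T.glueb_div i a h]
      exact Submodule.subset_span ⟨i, hi, _, Submodule.subset_span ⟨_, h, rfl⟩, rfl⟩
    | zero =>
      rw [zero_div, map_zero]
      exact zero_mem _
    | add f f' _ _ h h' =>
      rw [add_div, map_add]
      exact add_mem h h'
    | smul c f _ h =>
      rw [smul_div_assoc, map_smul]
      exact Submodule.smul_of_tower_mem _ c h
  · rintro _ ⟨i, hi, s, hs, rfl⟩
    refine (Submodule.span_le (p := (T.VT m a).comap (LinearMap.mulRight Ω _))).2 ?_ hs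
    rintro _ ⟨r, hr, rfl⟩
    exact Submodule.subset_span ⟨_, S.sec_mem_V hi (mem_NS.1 hr), T.glueb_div i a hr⟩

theorem sec_fd [Fintype ι] (i a : ℕ) : FiniteDimensional Ω (T.sec i a) := by
  obtain ⟨s, hs⟩ :=
    ((Submodule.fg_iff_finiteDimensional _).2 (NS_fd (j := j) S.cart S.nef i a)).map T.hK
  rw [sec, ← Submodule.map_coe, ← hs, Submodule.span_span_of_tower]
  exact FiniteDimensional.span_finset Ω s

theorem jac_model {J Cc : Type} (N : Mdl ℂ K (Option (Fin n)) J Cc) (h0 : N.o = none)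
    (hm : N.ix = S.m) (h1 : N.In (chart S.x j))
    (h2 : N.κ = jac S.D (fun l => N.Y (some l)) ^ S.m / S.g j) :
    T.τ T.θ * Jac (dS Ω (Fin φ) (Fin b))
      (N.tr Ω T.hK (G.ε.trans (Equiv.sumComm _ _)) (T.τ (S.v j)) (T.τ T.θ)).Y ^ N.ix =
        T.hK N.κ * T.τ (S.v j) ^ (N.ix + 1) := by
  have hv := T.B_le (S.v_mem j)
  generalize hε : G.ε.trans (Equiv.sumComm _ _) = ε
  have e : Function.update (fun i => algebraMap K M (N.Y (ε.symm i))) (ε N.o) (S.v j) ∘ ε =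
      fun o => o.elim (S.v j) fun l => algebraMap K M (N.Y (some l)) := by
    funext o
    rw [h0]
    cases o <;> simp
  generalize hF : Function.update (fun i => algebraMap K M (N.Y (ε.symm i))) (ε N.o) (S.v j) = F
    at e
  suffices hO : ∀ i, F i ∈ T.O by
    have e1 : (N.tr Ω T.hK ε (T.τ (S.v j)) (T.τ T.θ)).Y = fun i => T.τ (F i) := by
      funext i
      rw [← hF]
      exact (Function.apply_update (fun _ => T.τ) (fun i => algebraMap K M (N.Y (ε.symm i))) _ _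
        i).symm
    have e2 := T.mu_dt (F ∘ Sum.swap)
    have hd := T.dt_mem (F := F ∘ Sum.swap) fun i => hO _
    rw [show (F ∘ Sum.swap) ∘ G.ε = F ∘ ε from hε ▸ rfl, e, S.mu_v, ← h2] at e2
    rw [e1, T.jac_τ F hO, hm, ← T.glueb_mul h1.κ, e2, T.τ_mul _ T.θ_mem _ (pow_mem hd _)]
    exact congrArg _ (map_pow T.hom ⟨_, hd⟩ _).symm
  intro i
  rw [← hF]
  obtain ⟨o, rfl⟩ := ε.surjective i
  by_cases h : o = N.o
  · rwa [h, Function.update_self]
  · have h3 := h1.Z o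
    rw [Mdl.Z, Function.update_of_ne h] at h3
    rw [Function.update_of_ne (ε.injective.ne h), ε.symm_apply_apply]
    exact T.map_mem h3

theorem exists_dat [Fintype ι] [CharZero E] :
    ∃ (c : ℕ) (Δ : Dat Ω (Fin φ) (Fin b) ι (Fin (c + 1))),
      (∀ m a, Δ.UU m a = T.VT m a) ∧ Δ.M.θ = T.τ T.θ ∧ Δ.M.ix = S.m := by
  obtain ⟨c, N, h0, hm, ok, hI, hκ, h1, h2⟩ :=
    exists_model S.frac S.norm S.hτ S.hD S.mpos S.eff S.cart j
  have gd : ∀ {r : K}, r ∈ chart S.x j → T.hK r ∈ Good Ω (Fin φ) (Fin b) := fun hr =>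
    T.good (T.map_mem hr)
  have hg : ∀ l i c', T.hK (N.ga l ^ i * N.th c') = T.hK (N.ga l) ^ i * T.hK (N.th c') :=
    fun l i c' => by
      rw [T.ph.mul _ (pow_mem (hI.ga l) i) _ (hI.th c'), hK_apply, map_pow]
      exact congrArg (· * _) (map_pow T.hom ⟨_, T.map_mem (hI.ga l)⟩ i)
  refine ⟨c, ⟨N.tr Ω T.hK (G.ε.trans (Equiv.sumComm _ _)) (T.τ (S.v j)) (T.τ T.θ), T.sec,
    tr_OK T.ph hI ok (T.jac_model N h0 hm hI hκ) T.unit_v, fun i => ?_, gd ?_,
    T.good T.θ_mem, gd hI.κ, fun c' => gd (hI.th c'), fun c' => gd (hI.sg c'),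
    fun l => gd (hI.ga l), T.sec_fd, fun i a s hs => ?_, fun i a => Submodule.span_le.2 ?_,
    fun i a y hy h => ?_⟩, fun m a => ?_, rfl, hm⟩
  · generalize G.ε.trans (Equiv.sumComm _ _) = ε
    obtain ⟨o, rfl⟩ := ε.surjective i
    rw [Mdl.tr]
    dsimp only
    by_cases h : o = N.o
    · rw [h, Function.update_self]
      exact T.good (T.B_le (S.v_mem j))
    · have h3 := hI.Z o
      rw [Mdl.Z, Function.update_of_ne h] at h3
      rw [Function.update_of_ne (ε.injective.ne h), ε.symm_apply_apply]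
      exact gd h3
  · have h3 := hI.Z N.o
    rwa [Mdl.Z, Function.update_self] at h3
  · refine (Submodule.span_le (p := Subalgebra.toSubmodule (Good Ω (Fin φ) (Fin b)))).2 ?_ hs
    rintro _ ⟨r, hr, rfl⟩
    exact gd (NS_chart hr)
  · rintro _ ⟨r, hr, rfl⟩
    exact tr_Sc T.ph hI (NS_chart hr) (h1 i a hr)
  · refine tr_out T.ph hI (fun s hs => NS_chart hs) (B := ι × Fin (c + 1))
      (t := fun β => N.ga β.1 ^ i * N.th β.2) (fun β => mul_mem (pow_mem (hI.ga _) i) (hI.th _))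
      (hI.th N.c0) (fun y' _ h' => ⟨y' / N.th N.c0, h2 i a fun l c' => ?_,
        (div_mul_cancel₀ _ ok.th0).symm⟩) hy fun β => ?_
    · obtain ⟨z, hz, e⟩ := h' (l, c')
      rwa [mul_assoc, div_mul_eq_mul_div, e, mul_div_cancel_right₀ _ ok.th0]
    · rw [hg]
      exact h β.1 β.2
  · rw [T.VT_eq, Dat.UU, Mdl.tot]
    exact congrArg (fun v => Submodule.span Ω {f | ∃ i ≤ m, ∃ s ∈ T.sec i a, f = s * v ^ i}) tr_v

end Pool.Agent.Lib.MP_bc213e_ag.DD.Geo.Tau
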