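import Pool.Agent.Lib.MP_bc213e_ag.DC.Red
import Pool.Agent.Lib.MP_bc213e_ag.Jet.LemG

/-! Solutions of systems with invertible Jacobian have integral coefficients. -/

namespace Pool.Agent.Lib.MP_bc213e_ag.DC

open MvPowerSeries Filter

variable {Ω ρ σ V T : Type}

theorem hens_taylor {A : Type} [CommRing A] [Fintype V] [DecidableEq V] (I : Ideal A)
    (f h : V → A) (hh : ∀ j, h j ∈ I) (G : MvPolynomial V A) :
    MvPolynomial.eval (f - h) G - MvPolynomial.eval f G +
      ∑ j, MvPolynomial.eval f (MvPolynomial.pderiv j G) * h j ∈ I * I := by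
  induction G using MvPolynomial.induction_on with
  | C a => simp
  | add p q hp hq =>
    have h1 := add_mem hp hq
    simp only [map_add, add_mul, Finset.sum_add_distrib]
    rwa [add_add_add_comm, sub_add_sub_comm] at h1
  | mul_X p n hp =>
    have h1 : ∑ j, MvPolynomial.eval f (MvPolynomial.pderiv j p) * h j ∈ I :=
      sum_mem fun j _ => I.mul_mem_left _ (hh j)
    have h2 : ∑ j, MvPolynomial.eval f (MvPolynomial.pderiv j (p * MvPolynomial.X n)) * h j =
        (∑ j, MvPolynomial.eval f (MvPolynomial.pderiv j p) * h j) * f n +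
          MvPolynomial.eval f p * h n := by
      have h3 : ∀ j, MvPolynomial.eval f (MvPolynomial.pderiv j (p * MvPolynomial.X n)) * h j =
          MvPolynomial.eval f (MvPolynomial.pderiv j p) * h j * f n +
            if n = j then MvPolynomial.eval f p * h j else 0 := fun j => by
        rw [MvPolynomial.pderiv_mul, map_add, map_mul, map_mul, MvPolynomial.eval_X]
        split_ifs with e
        · rw [e, MvPolynomial.pderiv_X_self, map_one]
          ring
        · rw [MvPolynomial.pderiv_X_of_ne e, map_zero]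
          ring
      simp only [h3, Finset.sum_add_distrib, Finset.sum_ite_eq, Finset.mem_univ, if_true,
        Finset.sum_mul]
    have h4 := add_mem (Ideal.mul_mem_right (f n - h n) _ hp) (Ideal.mul_mem_mul h1 (hh n))
    rw [h2, map_mul, map_mul, MvPolynomial.eval_X, MvPolynomial.eval_X, Pi.sub_apply]
    refine (congrArg (· ∈ I * I) ?_).mp h4
    ring

theorem hens_eval {A : Type} [CommRing A] (S : Subring A) {f : V → A} (hf : ∀ j, f j ∈ S)
    {G : MvPolynomial V A} (hG : ∀ m, G.coeff m ∈ S) : MvPolynomial.eval f G ∈ S := by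
  rw [MvPolynomial.eval_eq]
  exact sum_mem fun m _ => mul_mem (hG m) (prod_mem fun j _ => pow_mem (hf j) _)

theorem hens_range {R : Type} [CommRing R] {R₀ : Subring R} {g : MvPowerSeries σ R} :
    g ∈ (MvPowerSeries.map R₀.subtype).range ↔ ∀ α, coeff α g ∈ R₀ :=
  ⟨by
    rintro ⟨g, rfl⟩ α
    exact (coeff α g).2, fun h => ⟨fun α => ⟨_, h α⟩, rfl⟩⟩

theorem hens_coeff {R : Type} [CommRing R] (u : MvPowerSeries σ R) {h : MvPowerSeries σ R}
    {α : σ →₀ ℕ} (hh : h ∈ Jet.Ord σ R α.degree) :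
    coeff α (u * h) = constantCoeff u * coeff α h := by
  have h1 : u - C (constantCoeff u) ∈ Jet.Ord σ R 1 := fun β hβ => by
    rw [(Finsupp.degree_eq_zero_iff β).1 (Nat.lt_one_iff.1 hβ), coeff_zero_eq_constantCoeff_apply,
      map_sub, constantCoeff_C, sub_self]
  have h2 := Jet.Ord_mul h1 hh α (by omega)
  rwa [sub_mul, map_sub, coeff_C_mul, sub_eq_zero] at h2

theorem hensel_core {R : Type} [CommRing R] (R₀ : Subring R) [Fintype V] [DecidableEq V]
    (f : V → MvPowerSeries σ R) (G : V → MvPolynomial V (MvPowerSeries σ R))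
    (hc : ∀ i m α, coeff α ((G i).coeff m) ∈ R₀) (hG : ∀ i, MvPolynomial.eval f (G i) = 0)
    (h0 : ∀ i, constantCoeff (f i) ∈ R₀) (N : Matrix V V R) (hN : ∀ i j, N i j ∈ R₀)
    (hJ : N * (Matrix.of fun i j =>
      constantCoeff (MvPolynomial.eval f (MvPolynomial.pderiv j (G i)))) = 1) (i : V)
    (α : σ →₀ ℕ) : coeff α (f i) ∈ R₀ := by
  generalize hd : α.degree = d
  induction d using Nat.strong_induction_on generalizing i α with
  | _ d ih =>
    rcases Nat.eq_zero_or_pos d with rfl | hd0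
    · rw [(Finsupp.degree_eq_zero_iff α).1 hd, coeff_zero_eq_constantCoeff_apply]
      exact h0 i
    let h : V → MvPowerSeries σ R := fun j β => if β.degree < d then 0 else coeff β (f j)
    have e : ∀ j β, coeff β (h j) = if β.degree < d then 0 else coeff β (f j) := fun _ _ => rfl
    have h1 : ∀ j, h j ∈ Jet.Ord σ R d := fun j β hβ => by rw [e, if_pos hβ]
    have h2 : ∀ j, (f - h) j ∈ (MvPowerSeries.map R₀.subtype).range := fun j => hens_range.2 fun β => by
      rw [Pi.sub_apply, map_sub, e]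
      split_ifs with hβ
      · rw [sub_zero]
        exact ih _ hβ j β rfl
      · rw [sub_self]
        exact zero_mem _
    have h3 : ∀ k, ((Matrix.of fun i j =>
        constantCoeff (MvPolynomial.eval f (MvPolynomial.pderiv j (G i)))).mulVec
          fun j => coeff α (f j)) k ∈ R₀ := fun k => by
      have h4 : Jet.Ord σ R d * Jet.Ord σ R d ≤ Jet.Ord σ R (d + d) :=
        Ideal.mul_le.2 fun _ a _ b => Jet.Ord_mul a b
      have h5 := h4 (hens_taylor _ f h h1 (G k)) α (by omega)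
      have h6 := hens_range.1 (hens_eval _ h2 fun m => hens_range.2 (hc k m)) α
      rw [hG, sub_zero, map_add, map_sum, add_eq_zero_iff_neg_eq] at h5
      refine (congrArg (· ∈ R₀) (h5.trans (Finset.sum_congr rfl fun j _ => ?_))).mp (neg_mem h6)
      rw [hens_coeff _ (hd ▸ h1 j), e, if_neg (by omega)]
      rfl
    have h7 := congrFun (Matrix.mulVec_mulVec (fun j => coeff α (f j)) N (Matrix.of fun i j =>
      constantCoeff (MvPolynomial.eval f (MvPolynomial.pderiv j (G i))))) i
    rw [hJ, Matrix.one_mulVec] at h7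
    rw [← h7]
    exact sum_mem fun k _ => mul_mem (hN i k) (h3 k)

variable [Field Ω]

theorem hens_ev {A : Type} [CommRing A] [Algebra Ω A] (f : V → A) (t : T → A)
    (P : MvPolynomial (V ⊕ T) Ω) : MvPolynomial.eval f (MvPolynomial.aeval
      (Sum.elim MvPolynomial.X fun s => MvPolynomial.C (t s)) P) =
        MvPolynomial.aeval (Sum.elim f t) P := by
  induction P using MvPolynomial.induction_on with
  | C a => simp
  | add p q hp hq => rw [map_add, map_add, map_add, hp, hq]
  | mul_X p n hp => cases n <;> simp [hp]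

theorem hens_pd {A : Type} [CommRing A] [Algebra Ω A] [DecidableEq V] (t : T → A) (j : V)
    (P : MvPolynomial (V ⊕ T) Ω) : MvPolynomial.pderiv j (MvPolynomial.aeval
      (Sum.elim MvPolynomial.X fun s => (MvPolynomial.C (t s) : MvPolynomial V A)) P) =
        MvPolynomial.aeval (Sum.elim MvPolynomial.X fun s => MvPolynomial.C (t s))
          (MvPolynomial.pderiv (Sum.inl j) P) := by
  induction P using MvPolynomial.induction_on with
  | C a => simp
  | add p q hp hq => rw [map_add, map_add, map_add, map_add, hp, hq]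
  | mul_X p n hp =>
    rw [map_mul, MvPolynomial.pderiv_mul, MvPolynomial.pderiv_mul, map_add, map_mul, map_mul, hp,
      MvPolynomial.aeval_X]
    congr 2
    rcases n with v | s
    · by_cases e : v = j
      · rw [e, Sum.elim_inl, MvPolynomial.pderiv_X_self, MvPolynomial.pderiv_X_self, map_one]
      · rw [Sum.elim_inl, MvPolynomial.pderiv_X_of_ne e,
          MvPolynomial.pderiv_X_of_ne fun h => e (Sum.inl.inj h), map_zero]
    · rw [Sum.elim_inr, MvPolynomial.pderiv_C, MvPolynomial.pderiv_X_of_ne Sum.inr_ne_inl, map_zero]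

theorem hens_co {A : Type} [CommRing A] [Algebra Ω A] (S : Subalgebra Ω A) {t : T → A}
    (ht : ∀ s, t s ∈ S) (P : MvPolynomial (V ⊕ T) Ω) (m : V →₀ ℕ) : (MvPolynomial.aeval
      (Sum.elim MvPolynomial.X fun s => (MvPolynomial.C (t s) : MvPolynomial V A)) P).coeff m ∈
        S := by
  have h : MvPolynomial.aeval (Sum.elim MvPolynomial.X
      fun s => (MvPolynomial.C (t s) : MvPolynomial V A)) P ∈
        (MvPolynomial.map (σ := V) S.toSubring.subtype).range := by
    induction P using MvPolynomial.induction_on with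
    | C a => exact ⟨MvPolynomial.C ⟨_, S.algebraMap_mem a⟩, by
        rw [MvPolynomial.map_C, MvPolynomial.aeval_C]
        rfl⟩
    | add p q hp hq =>
      rw [map_add]
      exact add_mem hp hq
    | mul_X p n hp =>
      rw [map_mul, MvPolynomial.aeval_X]
      refine mul_mem hp ?_
      rcases n with v | s
      · exact ⟨MvPolynomial.X v, MvPolynomial.map_X _ _⟩
      · exact ⟨MvPolynomial.C ⟨_, ht s⟩, MvPolynomial.map_C _ _⟩
  obtain ⟨Q, hQ⟩ := h
  rw [← hQ, MvPolynomial.coeff_map]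
  exact (Q.coeff m).2

theorem hens_inv [Fintype V] [DecidableEq V] {Λ : Subring Ω} {J : Matrix V V (MvPowerSeries ρ Ω)}
    (hJ : ∀ i j, J i j ∈ (MvPowerSeries.map Λ.subtype).range) {δ : Ω}
    (hδ : (Matrix.of fun i j => constantCoeff (J i j)).det = δ) (h0 : δ ≠ 0) (h1 : δ⁻¹ ∈ Λ) :
    ∃ N : Matrix V V (MvPowerSeries ρ Ω), (∀ i j, N i j ∈ (MvPowerSeries.map Λ.subtype).range) ∧ N * J = 1 := by
  choose J₀ hJ₀ using hJ
  have e : (MvPowerSeries.map Λ.subtype).mapMatrix (Matrix.of J₀) = J := Matrix.ext hJ₀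
  have h2 : ((constantCoeff (Matrix.of J₀).det : Λ) : Ω) = δ := by
    rw [← hδ, ← e]
    exact (constantCoeff_map Λ.subtype _).symm.trans ((congrArg _ (RingHom.map_det _ _)).trans
      (RingHom.map_det _ _))
  have h3 : IsUnit (Matrix.of J₀).det := isUnit_iff_constantCoeff.2
    (IsUnit.of_mul_eq_one ⟨δ⁻¹, h1⟩ (Subtype.ext (by
      rw [Subring.coe_mul, h2]
      exact mul_inv_cancel₀ h0)))
  refine ⟨(MvPowerSeries.map Λ.subtype).mapMatrix (Matrix.of J₀)⁻¹, fun i j => ⟨_, rfl⟩, ?_⟩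
  rw [← e, ← map_mul, Matrix.nonsing_inv_mul _ h3, map_one]

theorem hens_at [Fintype V] [DecidableEq V] {Λ : Subring Ω} (f : V → SS Ω ρ σ)
    (G : V → MvPolynomial V (SS Ω ρ σ))
    (h5 : ∀ i m α, coeff α ((G i).coeff m) ∈ (MvPowerSeries.map Λ.subtype).range)
    (hG : ∀ i, MvPolynomial.eval f (G i) = 0) (h2 : ∀ i, constantCoeff (constantCoeff (f i)) ∈ Λ)
    {M : Matrix V V Ω} (hM : ∀ i j, constantCoeff (constantCoeff (MvPolynomial.eval f
      (MvPolynomial.pderiv j (G i)))) = M i j) (hJ : M.det ≠ 0) (h3 : ∀ a b, M⁻¹ a b ∈ Λ)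
    (h4 : M.det⁻¹ ∈ Λ) (i : V) : f i ∈ IS Λ := by
  have h6 : ∀ P : MvPolynomial V (SS Ω ρ σ), constantCoeff (MvPolynomial.eval f P) =
      MvPolynomial.eval (fun i => constantCoeff (f i)) (MvPolynomial.map constantCoeff P) :=
    fun P => MvPolynomial.map_eval _ _ _
  have h7 : ∀ i m, (MvPolynomial.map constantCoeff (G i)).coeff m ∈
      (MvPowerSeries.map Λ.subtype).range := fun i m => by
    rw [MvPolynomial.coeff_map, ← coeff_zero_eq_constantCoeff_apply]
    exact h5 i m 0
  obtain ⟨f₀, hf₀⟩ : ∃ f₀ : V → MvPowerSeries ρ Ω, f₀ = fun i => constantCoeff (f i) := ⟨_, rfl⟩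
  obtain ⟨G₀, hG₀⟩ : ∃ G₀ : V → MvPolynomial V (MvPowerSeries ρ Ω),
    ∀ i, G₀ i = MvPolynomial.map constantCoeff (G i) := ⟨_, fun _ => rfl⟩
  have h9 : (Matrix.of fun i j => constantCoeff (MvPolynomial.eval f₀
      (MvPolynomial.pderiv j (G₀ i)))) = M := Matrix.ext fun i j => by
    rw [Matrix.of_apply, hG₀, hf₀, MvPolynomial.pderiv_map, ← h6, hM]
  have h10 := hensel_core Λ f₀ G₀ (fun i m => hens_range.1 (by
      rw [hG₀]
      exact h7 i m)) (fun i => by rw [hG₀, hf₀, ← h6, hG, map_zero]) (by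
      rw [hf₀]
      exact h2) M⁻¹ h3 (by
      rw [h9]
      exact Matrix.nonsing_inv_mul M (Ne.isUnit hJ))
  have h8 : ∀ i, constantCoeff (f i) ∈ (MvPowerSeries.map Λ.subtype).range := fun i =>
    hens_range.2 (by
      rw [← congrFun hf₀ i]
      exact h10 i)
  obtain ⟨N, hN, hN'⟩ := hens_inv (Λ := Λ) (δ := M.det) (J := Matrix.of fun i j =>
    constantCoeff (MvPolynomial.eval f (MvPolynomial.pderiv j (G i)))) (fun i j => by
      rw [Matrix.of_apply, h6, ← MvPolynomial.pderiv_map]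
      refine hens_eval _ h8 fun m => ?_
      rw [MvPolynomial.coeff_pderiv]
      exact mul_mem (h7 i _) (add_mem (natCast_mem _ _) (one_mem _)))
    (congrArg Matrix.det (Matrix.ext fun i j => by
      rw [Matrix.of_apply, Matrix.of_apply, hM])) hJ h4
  exact mem_IS.2 fun α => hens_range.1 (hensel_core _ f G h5 hG h8 N hN hN' i α)

theorem hens_two [Fintype V] [DecidableEq V] (f : V → SS Ω ρ σ) (G : V → MvPolynomial V (SS Ω ρ σ))
    (hc : ∀ i m, (G i).coeff m ∈ Good Ω ρ σ) (hG : ∀ i, MvPolynomial.eval f (G i) = 0)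
    {M : Matrix V V Ω} (hM : ∀ i j, constantCoeff (constantCoeff (MvPolynomial.eval f
      (MvPolynomial.pderiv j (G i)))) = M i j) (hJ : M.det ≠ 0) (i : V) : f i ∈ Good Ω ρ σ := by
  have e1 : ∀ᶠ r in RF Ω, ∀ i, ∀ m ∈ (G i).support, (G i).coeff m ∈ IS r.Λ :=
    eventually_all.2 fun i => (eventually_all_finset _).2 fun m _ => mem_Good.1 (hc i m)
  have e2 : ∀ᶠ r in RF Ω, ∀ i, constantCoeff (constantCoeff (f i)) ∈ r.Λ :=
    eventually_all.2 fun i => ev_mem _
  have e3 : ∀ᶠ r in RF Ω, ∀ a b, M⁻¹ a b ∈ r.Λ :=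
    eventually_all.2 fun i => eventually_all.2 fun j => ev_mem _
  refine mem_Good.2 ?_
  filter_upwards [e1, e2, e3, ev_mem M.det⁻¹] with r h1 h2 h3 h4
  refine hens_at f G (fun i m α => ?_) hG h2 hM hJ h3 h4 i
  by_cases hm : m ∈ (G i).support
  · exact hens_range.2 (mem_IS.1 (h1 i m hm) α)
  · rw [MvPolynomial.notMem_support_iff.1 hm, map_zero]
    exact zero_mem _

theorem good_of_rel [Fintype V] [DecidableEq V] (f : V → SS Ω ρ σ) (t : T → SS Ω ρ σ)
    (ht : ∀ i, t i ∈ Good Ω ρ σ) (G : V → MvPolynomial (V ⊕ T) Ω)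
    (hG : ∀ i, MvPolynomial.aeval (Sum.elim f t) (G i) = 0)
    (hJ : (Matrix.of fun i j => constantCoeff (constantCoeff (MvPolynomial.aeval (Sum.elim f t)
      (MvPolynomial.pderiv (Sum.inl j) (G i))))).det ≠ 0) (i : V) : f i ∈ Good Ω ρ σ := by
  refine hens_two f (fun i => MvPolynomial.aeval (Sum.elim MvPolynomial.X
    fun s => MvPolynomial.C (t s)) (G i)) (fun i m => hens_co _ ht _ m)
    (fun i => (hens_ev f t _).trans (hG i)) (fun i j => ?_) hJ i
  rw [hens_pd, hens_ev, Matrix.of_apply]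

theorem good_of_mul {f g : SS Ω ρ σ} (hg : g ∈ Good Ω ρ σ) (hu : IsUnit g)
    (h : f * g ∈ Good Ω ρ σ) : f ∈ Good Ω ρ σ := by
  refine good_of_rel (V := Unit) (T := Bool) (fun _ => f) (fun b => cond b g (f * g))
    (fun b => by cases b <;> assumption) (fun _ => MvPolynomial.X (Sum.inl ()) *
      MvPolynomial.X (Sum.inr true) - MvPolynomial.X (Sum.inr false)) (fun _ => by simp) ?_ ()
  rw [Matrix.det_unique, Matrix.of_apply, map_sub, MvPolynomial.pderiv_mul,
    MvPolynomial.pderiv_X_self, MvPolynomial.pderiv_X_of_ne Sum.inr_ne_inl,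
    MvPolynomial.pderiv_X_of_ne Sum.inr_ne_inl, one_mul, mul_zero, add_zero, sub_zero,
    MvPolynomial.aeval_X]
  exact ((hu.map _).map _).ne_zero

theorem good_X (s : σ) : (X s : SS Ω ρ σ) ∈ Good Ω ρ σ := by
  exact Eventually.of_forall fun _ => ⟨X s, map_X _ _⟩

theorem good_CX (i : ρ) : (C (X i) : SS Ω ρ σ) ∈ Good Ω ρ σ := by
  exact Eventually.of_forall fun _ => ⟨C (X i), by rw [map_C, map_X]⟩

theorem good_C_coeff {f : SS Ω ρ σ} (hf : f ∈ Good Ω ρ σ) (α : σ →₀ ℕ) :
    (C (coeff α f) : SS Ω ρ σ) ∈ Good Ω ρ σ := by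
  filter_upwards [hf] with r h using C_coeff_mem_IS h α

end Pool.Agent.Lib.MP_bc213e_ag.DC
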