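import Pool.Agent.Lib.MP_bc213e_ag.DC.CarPS

/-! The hypersurface model of a chart, seen in an arbitrary ring. -/

namespace Pool.Agent.Lib.MP_bc213e_ag.DC

open MvPolynomial

noncomputable section

variable {k A ι J Cc : Type} [CommRing k] [CommRing A] [Algebra k A]

/-- The values of the polynomials of degree at most `N`. -/
def PL (k : Type) [CommRing k] [Algebra k A] (Z : ι → A) (N : ℕ) : Submodule k A :=
  (restrictTotalDegree ι k N).map (aeval Z).toLinearMap

theorem mem_PL {Z : ι → A} {N : ℕ} {f : A} :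
    f ∈ PL k Z N ↔ ∃ G : MvPolynomial ι k, G.totalDegree ≤ N ∧ aeval Z G = f := by
  simp only [PL, Submodule.mem_map, mem_restrictTotalDegree, AlgHom.toLinearMap_apply]

theorem PL_mono (Z : ι → A) {N N' : ℕ} (h : N ≤ N') : PL k Z N ≤ PL k Z N' := fun _ hf => by
  obtain ⟨G, h1, h2⟩ := mem_PL.1 hf
  exact mem_PL.2 ⟨G, h1.trans h, h2⟩

theorem PL_mul {Z : ι → A} {N N' : ℕ} {f g : A} (hf : f ∈ PL k Z N) (hg : g ∈ PL k Z N') :
    f * g ∈ PL k Z (N + N') := by
  obtain ⟨G, h1, rfl⟩ := mem_PL.1 hf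
  obtain ⟨G', h2, rfl⟩ := mem_PL.1 hg
  exact mem_PL.2 ⟨G * G', (totalDegree_mul _ _).trans (add_le_add h1 h2), map_mul _ _ _⟩

theorem one_mem_PL (Z : ι → A) (N : ℕ) : 1 ∈ PL k Z N :=
  mem_PL.2 ⟨1, by simp, map_one _⟩

/-- The data of a model: `Y o` is the fibre coordinate, the other `Y i` and `w` are the coordinates
of the hypersurface `P = 0`, `th` spans a graded piece of the conductor. -/
structure Mdl (k A ι J Cc : Type) [CommRing k] [CommRing A] where
  o : ι
  Y : ι → A
  w : A
  P : MvPolynomial ι k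
  θ : A
  κ : A
  th : Cc → A
  sg : Cc → A
  ga : J → A
  j0 : J
  c0 : Cc
  dd : ℕ
  D : ℕ
  e : ℕ
  N : ℕ
  ix : ℕ

namespace Mdl

variable [DecidableEq ι] (M : Mdl k A ι J Cc)

/-- The coordinates of the hypersurface. -/
def Z : ι → A := Function.update M.Y M.o M.w

/-- The fibre coordinate. -/
def v : A := M.Y M.o

/-- The derivative of the equation. -/
def Pw : A := aeval M.Z (pderiv M.o M.P)

/-- The multipliers of degree `b` of the conductor. -/
def RR (b : ℕ) : Submodule k A where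
  carrier := {f | ∀ c, f * M.th c ∈ PL k M.Z b * Submodule.span k (Set.range M.th)}
  add_mem' := fun hf hg c => by
    rw [add_mul]
    exact add_mem (hf c) (hg c)
  zero_mem' := fun c => by
    rw [zero_mul]
    exact zero_mem _
  smul_mem' := fun r f hf c => by
    rw [smul_mul_assoc]
    exact Submodule.smul_mem _ r (hf c)

/-- Sections, input form. -/
def Sc (i a : ℕ) : Submodule k A where
  carrier := {s | ∀ j, s * M.ga j ^ i ∈ M.RR (a + i * M.e)}
  add_mem' := fun hf hg c => by
    rw [add_mul]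
    exact add_mem (hf c) (hg c)
  zero_mem' := fun c => by
    rw [zero_mul]
    exact zero_mem _
  smul_mem' := fun r f hf c => by
    rw [smul_mul_assoc]
    exact Submodule.smul_mem _ r (hf c)

/-- Sections, output form. -/
def Out (i a : ℕ) : Submodule k A where
  carrier := {s | ∀ j c, s * M.ga j ^ i * M.th c ∈ PL k M.Z (a + i * M.e + M.D)}
  add_mem' := fun hf hg j c => by
    rw [add_mul, add_mul]
    exact add_mem (hf j c) (hg j c)
  zero_mem' := fun j c => by
    rw [zero_mul, zero_mul]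
    exact zero_mem _
  smul_mem' := fun r f hf j c => by
    rw [smul_mul_assoc, smul_mul_assoc]
    exact Submodule.smul_mem _ r (hf j c)

/-- Polynomials of degree at most `m` in the fibre coordinate with coefficients in `S`. -/
def tot (S : ℕ → Submodule k A) (m : ℕ) : Submodule k A :=
  Submodule.span k {f | ∃ i ≤ m, ∃ s ∈ S i, f = s * M.Y M.o ^ i}

/-- The relations of a model. -/
structure OK [Fintype ι] (d : ι → Derivation k A A) : Prop where
  rel : aeval M.Z M.P = 0
  deg : M.P.totalDegree ≤ M.dd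
  num : M.N + M.dd = M.D + Fintype.card ι + 1
  jac : M.θ * Jac d M.Y ^ M.ix = M.κ * M.v ^ (M.ix + 1)
  sgP : ∀ c, M.sg c * M.Pw ^ M.ix = M.th c ^ M.ix * M.κ
  thD : ∀ c, M.th c ∈ PL k M.Z M.D
  gasg : ∀ j c, M.ga j * M.sg c ∈ M.RR (M.e + M.ix * M.N)
  ga0 : M.ga M.j0 = 1
  κ0 : M.κ ≠ 0
  th0 : M.th M.c0 ≠ 0
  vu : IsUnit M.v

end Mdl

end

end Pool.Agent.Lib.MP_bc213e_ag.DC
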