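import Pool.Agent.Lib.MP_bc213e_ag.KBG.G1
import Pool.Agent.Lib.MP_bc213e_ag.DC.Mdl

/-! The equation of the hypersurface model and the formula of Euler. -/

namespace Pool.Agent.Lib.MP_bc213e_ag.DC

open Hyp KBG MvPolynomial IntermediateField Module

variable {K : Type} [Field K] [Algebra ℂ K] {n : ℕ}

/-- The coordinates of the hypersurface. -/
def ZZ (y : Fin n → K) (w : K) : Option (Fin n) → K := fun o => o.elim w y

/-- The field generated by `y`. -/
noncomputable abbrev FF (y : Fin n → K) : IntermediateField ℂ K := adjoin ℂ (Set.range y)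

variable {y : Fin n → K} {w : K}

theorem keul_div {ι S : Type} [SetLike S K] [SubringClass S K] {A : S} {Z : ι → K} {μ : ℕ}
    {r c : K} (hr : r ∈ PL ℂ Z μ) (h0 : ∀ z : ℂ, algebraMap ℂ K z ∈ A) (h1 : c⁻¹ ∈ A)
    (h2 : ∀ o, Z o / c ∈ A) : r / c ^ μ ∈ A := by
  obtain ⟨G, hG, rfl⟩ := mem_PL.1 hr
  rw [aeval_def, eval₂_eq, Finset.sum_div]
  refine sum_mem fun m hm => ?_
  obtain ⟨j, rfl⟩ := Nat.exists_eq_add_of_le ((le_totalDegree hm).trans hG)
  rw [mul_div_assoc, pow_add, ← div_div, Finsupp.sum, ← Finset.prod_pow_eq_pow_sum,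
    ← Finset.prod_div_distrib, div_eq_mul_inv, ← inv_pow]
  refine mul_mem (h0 _) (mul_mem (prod_mem fun i _ => ?_) (pow_mem h1 j))
  rw [← div_pow]
  exact pow_mem (h2 i) _

theorem PL_le_Bd (hw : w ∈ Bd y 1) (μ : ℕ) : PL ℂ (ZZ y w) μ ≤ Bd y μ := by
  intro r hr O c h1 h2 h3 h4
  refine keul_div hr h1 h3 ?_
  rintro (_ | l)
  · exact pow_one c ▸ hw O c h1 h2 h3 h4
  · exact h4 l

theorem aeval_mem_PL (w : K) {μ : ℕ} {p : MvPolynomial (Fin n) ℂ} (hp : p.totalDegree ≤ μ) :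
    aeval y p ∈ PL ℂ (ZZ y w) μ := by
  exact mem_PL.2 ⟨rename some p, (totalDegree_rename_le _ _).trans hp, aeval_rename _ _ _⟩

theorem PL_div_mem {μ : ℕ} {r c : K} (hr : r ∈ PL ℂ (ZZ y w) μ) {A : Subalgebra ℂ K}
    (h1 : c⁻¹ ∈ A) (h2 : ∀ o, ZZ y w o / c ∈ A) : r / c ^ μ ∈ A := by
  exact keul_div hr A.algebraMap_mem h1 h2

variable [FiniteDimensional (FF y) K]

theorem exists_eqn (hy : AlgebraicIndependent ℂ y) (hw : w ∈ Bd y 1)
    (prim : adjoin (FF y) {w} = ⊤) : ∃ P : MvPolynomial (Option (Fin n)) ℂ,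
      P.totalDegree ≤ finrank (FF y) K ∧ aeval (ZZ y w) P = 0 ∧
        aeval (ZZ y w) (pderiv none P) = dl (FF y) w := by
  choose p h1 h2 using minpoly_coeff_poly (isF_self y) hy hw
  have h3 : ∀ i, aeval (ZZ y w) (rename some (p i)) =
      algebraMap (FF y) K ((minpoly (FF y) w).coeff i) := fun i =>
    (aeval_rename _ _ _).trans (h2 i)
  have h4 : ZZ y w none = w := rfl
  refine ⟨∑ i ∈ Finset.range ((minpoly (FF y) w).natDegree + 1), rename some (p i) * X none ^ i,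
    totalDegree_finsetSum_le fun i hi => (totalDegree_mul _ _).trans ?_, ?_, ?_⟩
  · have h5 : _ ≤ 1 * ((minpoly (FF y) w).natDegree - i) :=
      (totalDegree_rename_le some (p i)).trans (h1 i)
    have h6 := Finset.mem_range.1 hi
    rw [totalDegree_X_pow, ← natDegree_minpoly_eq prim]
    omega
  · rw [← minpoly.aeval (FF y) w, Polynomial.aeval_eq_sum_range, map_sum]
    exact Finset.sum_congr rfl fun i _ => by
      rw [map_mul, h3, map_pow, aeval_X, h4, Algebra.smul_def]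
  · rw [dl]
    conv_rhs => rw [(minpoly (FF y) w).as_sum_range_C_mul_X_pow]
    rw [map_sum, map_sum, map_sum, map_sum]
    refine Finset.sum_congr rfl fun i _ => ?_
    have h5 : pderiv none (rename some (p i)) = 0 := pderiv_eq_zero_of_notMem_vars fun h => by
      obtain ⟨j, -, hj⟩ := mem_vars_rename _ _ h
      exact Option.some_ne_none j hj
    rw [pderiv_mul, h5, Polynomial.derivative_C_mul_X_pow, pderiv_pow, pderiv_X_self]
    simp [h3, h4, mul_assoc]

theorem dl_cond (hy : AlgebraicIndependent ℂ y) (hw : w ∈ Bd y 1) (prim : adjoin (FF y) {w} = ⊤)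
    {μ : ℕ} {r : K} (hr : r ∈ Bd y μ) :
    dl (FF y) w * r ∈ PL ℂ (ZZ y w) (finrank (FF y) K - 1 + μ) := by
  have : CharZero (FF y) := algebraRat.charZero _
  rw [euler prim r]
  refine sum_mem fun i hi => ?_
  obtain ⟨p, h1, h2⟩ := kl_trace y hy (mul_mem_Bd y hr (pow_mem_Bd y hw i))
  have h3 := g1_div (IsIntegral.of_finite (FF y) w) (fun j b => b ∈ PL ℂ (ZZ y w) j)
    (fun _ => zero_mem _) (fun i j b h h0 hb => add_mem ?_ ?_) i
  · have h4 := Finset.mem_range.1 hi
    rw [natDegree_minpoly_eq prim] at h3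
    exact PL_mono _ (by omega) (PL_mul (h2 ▸ aeval_mem_PL w h1) h3)
  · obtain ⟨q, h4, h5⟩ := minpoly_coeff_poly (isF_self y) hy hw (i + 1)
    rw [← h5]
    exact aeval_mem_PL w (h4.trans (by rw [← h]; omega))
  · rcases j with _ | j
    · rw [h0 rfl, zero_mul]
      exact zero_mem _
    · exact PL_mul hb (mem_PL.2 ⟨X none, (totalDegree_X _).le, aeval_X _ _⟩)

open scoped IntermediateField.algebraAdjoinAdjoin in
theorem trace_div_dl (hy : AlgebraicIndependent ℂ y)
    (hw : IsIntegral (Algebra.adjoin ℂ (Set.range y)) w) (prim : adjoin (FF y) {w} = ⊤) {z : K}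
    (hz : z ∈ Algebra.adjoin ℂ (Set.range (ZZ y w))) :
    ((Algebra.trace (FF y) K (z / dl (FF y) w) : FF y) : K) ∈ Algebra.adjoin ℂ (Set.range y) := by
  have : CharZero (FF y) := algebraRat.charZero _
  have : IsIntegrallyClosed (Algebra.adjoin ℂ (Set.range y)) :=
    IsIntegrallyClosed.of_equiv hy.aevalEquiv.toRingEquiv
  have h1 : z ∈ Algebra.adjoin (Algebra.adjoin ℂ (Set.range y)) {w} := by
    refine (Algebra.adjoin_le (S := (Algebra.adjoin (Algebra.adjoin ℂ (Set.range y))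
      {w}).restrictScalars ℂ) ?_) hz
    rintro _ ⟨_ | l, rfl⟩
    · exact Algebra.self_mem_adjoin_singleton _ w
    · exact Subalgebra.algebraMap_mem (Algebra.adjoin (Algebra.adjoin ℂ (Set.range y)) {w})
        ⟨y l, Algebra.subset_adjoin ⟨l, rfl⟩⟩
  have h2 := (traceForm_dualSubmodule_adjoin (Algebra.adjoin ℂ (Set.range y)) (FF y)
    ((adjoin_eq_top_iff_of_isAlgebraic fun a _ => Algebra.IsAlgebraic.isAlgebraic a).1 prim)
    hw).ge (Submodule.smul_mem_pointwise_smul z _ _ h1) 1 (Subalgebra.one_mem _)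
  obtain ⟨a, ha⟩ := Submodule.mem_one.1 h2
  rw [Algebra.traceForm_apply, mul_one, smul_eq_mul, ← div_eq_inv_mul] at ha
  rw [dl, ← ha]
  exact a.2

end Pool.Agent.Lib.MP_bc213e_ag.DC
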