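import Pool.Agent.Lib.MP_bc213e_ag.KBG.Eff
import Pool.Agent.Lib.MP_bc213e_ag.KBG.G1

/-! Jacobians at the prime divisors of a chart. -/

namespace Pool.Agent.Lib.MP_bc213e_ag.DC

open WithZero Hyp KBG

variable {K : Type} [Field K] [Algebra ℂ K] {n : ℕ} {D : Fin n → Derivation ℂ K K}

theorem hb_of_can {A : Subalgebra ℂ K} {g : K} (hg : g ≠ 0) {m : ℕ}
    (can : ∀ u : Fin n → K, (∀ b, u b ∈ A) → jac D u ^ m / g ∈ A) {w : Val K} (hw : PrimeDiv A w)
    (u : Fin n → K) (hu : ∀ b, w (u b) ≤ 1) : w (jac D u) ^ m ≤ w g := by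
  have key : ∀ (T : Finset (Fin n)) (u : Fin n → K), (∀ b, w (u b) ≤ 1) →
      (∀ b ∉ T, u b ∈ A) → w (jac D u) ^ m ≤ w g := by
    intro T
    induction T using Finset.induction_on with
    | empty =>
      intro u _ h
      have h1 := hw.2.1 _ (can u fun b => h b (Finset.notMem_empty b))
      rwa [map_div₀, div_le_one₀ (zero_lt_iff.2 ((Valuation.ne_zero_iff w).2 hg)), map_pow] at h1
    | insert b T _ ih =>
      intro u hu h
      obtain ⟨s, hs, h1, h2⟩ := hw.2.2 _ (hu b)
      have h3 : ∀ z ∈ A, w (jac D (Function.update u b z)) ^ m ≤ w g := fun z hz => by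
        refine ih _ (fun c => ?_) fun c hc => ?_ <;> by_cases e : c = b
        · rw [e, Function.update_self]
          exact hw.2.1 z hz
        · rw [Function.update_of_ne e]
          exact hu c
        · rwa [e, Function.update_self]
        · rw [Function.update_of_ne e]
          exact h c fun h4 => (Finset.mem_insert.1 h4).elim e hc
      have h4 := jac_update_mul D u b s (u b)
      rw [Function.update_eq_self, ← sub_eq_iff_eq_add] at h4
      rw [← one_mul (w (jac D u)), ← h1, ← map_mul, ← h4]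
      rcases le_max_iff.1 (w.map_sub (jac D (Function.update u b (s * u b)))
        (u b * jac D (Function.update u b s))) with h5 | h5
      · exact (pow_le_pow_left' h5 m).trans (h3 _ h2)
      · rw [map_mul] at h5
        exact (pow_le_pow_left' (h5.trans (mul_le_of_le_one_left' (hu b))) m).trans (h3 s hs)
  exact key Finset.univ u hu fun b hb => absurd (Finset.mem_univ b) hb

theorem eff_of_can {A : Subalgebra ℂ K} {g : K} (hg : g ≠ 0) {m : ℕ}
    (can : ∀ u : Fin n → K, (∀ b, u b ∈ A) → jac D u ^ m / g ∈ A) (w : Val K)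
    (hw : PrimeDiv A w) : ¬ LD D m w g (m + 1) := by
  rintro ⟨u, a, hu, hj, h⟩
  have hb := hb_of_can hg can hw
  have ha : w (u a) ≠ 0 := (Valuation.ne_zero_iff w).2 fun h0 => hj <| by
    have h1 := jac_update_mul D u a 0 0
    rwa [mul_zero, zero_mul, add_zero, ← h0, Function.update_eq_self, h0] at h1
  have hj' := pow_pos (zero_lt_iff.2 ((Valuation.ne_zero_iff w).2 hj)) m
  obtain ⟨r, hr⟩ : ∃ r : ℕ, w (u a) = exp (-(r : ℤ)) := by
    have h1 := hu a
    rw [← exp_log ha, ← exp_zero, exp_le_exp] at h1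
    exact ⟨(-log (w (u a))).toNat, by rw [Int.toNat_of_nonneg (by omega), neg_neg, exp_log ha]⟩
  have key : exp (-1) ^ m * w (jac D u) ^ m ≤ w g * w (u a) ^ m := by
    obtain ⟨π, hπ⟩ := hw.1
    have hπ1 : exp (-1 : ℤ) ≤ 1 := by
      rw [← exp_zero, exp_le_exp]
      omega
    rcases r with _ | e
    · rw [hr, Nat.cast_zero, neg_zero, exp_zero, one_pow, mul_one]
      exact (mul_le_of_le_one_left' (pow_le_one' hπ1 m)).trans (hb u hu)
    · have hp : w (π ^ (e + 1)) = w (u a) := by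
        rw [map_pow, hπ, hr, ← exp_nsmul]
        simp
      have h0 : π ^ (e + 1) ≠ 0 := (Valuation.ne_zero_iff w).1 (hp ▸ ha)
      have h1 := jac_ram D w hw.triv hb hu
        (p := MvPolynomial.X a) (j := a) (by simp) (π := π) (ε := u a / π ^ (e + 1)) (e := e)
        (hπ.trans_le hπ1) (by rw [map_div₀, hp, div_self ha]) (by
          rw [MvPolynomial.aeval_X, mul_div_cancel₀ _ h0])
      rw [← hp, map_pow, pow_succ', ← hπ, mul_pow, mul_left_comm, mul_comm (w g)]
      exact mul_le_mul_right h1 _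
  rw [map_div₀, map_mul, map_pow, map_pow, div_le_iff₀ hj'] at h
  have h2 := le_of_mul_le_mul_right (key.trans h) hj'
  rw [← exp_nsmul, exp_le_exp, nsmul_eq_mul] at h2
  omega

theorem jac_swap (D : Fin n → Derivation ℂ K K) (ξ : Fin (n + 1) → K) (a : Fin (n + 1))
    (h0 : ξ 0 ≠ 0) (ha : ξ a ≠ 0) :
    ξ a ^ (n + 1) * jac D (fun l => ξ (a.succAbove l) / ξ a) =
      (-1) ^ (a : ℕ) * (ξ 0 ^ (n + 1) * jac D (yy ξ)) := by
  have key : ∀ η : Fin (n + 1) → K, η 0 ≠ 0 → η 0 ^ (n + 1) * jac D (yy η) =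
      (Matrix.of (Fin.cons η fun r j => D r (η j)) : Matrix (Fin (n + 1)) (Fin (n + 1)) K).det :=
    fun η h => by
      rw [Matrix.det_succ_row_zero]
      exact jac_hom D η h
  have h1 := key (fun j => ξ (a.cycleRange.symm j)) (by rwa [Fin.cycleRange_symm_zero])
  have h2 := Matrix.det_permute' a.cycleRange.symm
    (Matrix.of (Fin.cons ξ fun r j => D r (ξ j)) : Matrix (Fin (n + 1)) (Fin (n + 1)) K)
  rw [Equiv.Perm.sign_symm, Fin.sign_cycleRange, ← key ξ h0] at h2
  have h3 : yy (fun j => ξ (a.cycleRange.symm j)) = fun l => ξ (a.succAbove l) / ξ a := by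
    funext l
    rw [yy, Fin.cycleRange_symm_zero, Fin.cycleRange_symm_succ]
  rw [h3, Fin.cycleRange_symm_zero] at h1
  rw [h1]
  refine Eq.trans ?_ (h2.trans (by simp))
  congr 1
  ext r j
  refine Fin.cases rfl (fun r => rfl) r

theorem Bd_of_int {κ : Type} (y : κ → K) {r : K}
    (hr : IsIntegral (Algebra.adjoin ℂ (Set.range y)) r) : ∃ μ, r ∈ Bd y μ := by
  have key : ∀ z ∈ Algebra.adjoin ℂ (Set.range y), ∃ μ, z ∈ Bd y μ := fun z hz => by
    induction hz using Algebra.adjoin_induction with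
    | mem z h => exact ⟨1, span_le_Bd y (Submodule.subset_span h)⟩
    | algebraMap c => exact ⟨0, fun O _ h _ _ _ => by simpa using h c⟩
    | add _ _ _ _ h1 h2 =>
      obtain ⟨μ, h1⟩ := h1
      obtain ⟨ν, h2⟩ := h2
      exact ⟨μ + ν, add_mem (Bd_mono y le_self_add h1) (Bd_mono y le_add_self h2)⟩
    | mul _ _ _ _ h1 h2 =>
      obtain ⟨μ, h1⟩ := h1
      obtain ⟨ν, h2⟩ := h2
      exact ⟨μ + ν, mul_mem_Bd y h1 h2⟩
  obtain ⟨p, hp, h0⟩ := hr
  choose m hm using fun i => key _ (p.coeff i).2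
  refine ⟨(Finset.range p.natDegree).sup m, fun O c h1 h2 h3 h4 => ?_⟩
  set μ := (Finset.range p.natDegree).sup m
  have hq := hp.map (algebraMap (Algebra.adjoin ℂ (Set.range y)) K)
  have h5 : (p.map (algebraMap _ K)).scaleRoots (c ^ μ)⁻¹ ∈ Polynomial.lifts (algebraMap O K) := by
    refine (Polynomial.lifts_iff_coeff_lifts _).2 fun i => ?_
    suffices h : ((p.map (algebraMap _ K)).scaleRoots (c ^ μ)⁻¹).coeff i ∈ O from ⟨⟨_, h⟩, rfl⟩
    rw [Polynomial.coeff_scaleRoots, hp.natDegree_map, Polynomial.coeff_map]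
    rcases lt_trichotomy i p.natDegree with h | h | h
    · rw [inv_pow, ← pow_mul, ← div_eq_mul_inv]
      refine Bd_mono y ?_ (hm i) O c h1 h2 h3 h4
      exact (Finset.le_sup (Finset.mem_range.2 h)).trans (Nat.le_mul_of_pos_right _ (by omega))
    · simp [h, hp.coeff_natDegree, O.one_mem]
    · simp [Polynomial.coeff_eq_zero_of_natDegree_lt h, O.zero_mem]
  obtain ⟨R, h6, -, h7⟩ := Polynomial.lifts_and_degree_eq_and_monic h5
    ((Polynomial.monic_scaleRoots_iff _).2 hq)
  have h8 : IsIntegral O (r / c ^ μ) := ⟨R, h7, by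
    rw [← Polynomial.eval_map, h6, div_eq_inv_mul, Polynomial.scaleRoots_eval_mul,
      Polynomial.eval_map, h0, mul_zero]⟩
  obtain ⟨t, ht⟩ := IsIntegrallyClosed.isIntegral_iff.1 h8
  exact ht ▸ t.2

end Pool.Agent.Lib.MP_bc213e_ag.DC
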