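import Pool.Agent.Lib.MP_bc213e_ag.KBG.AdjC
import Pool.Agent.Lib.MP_bc213e_ag.DC.KJac
import Pool.Agent.Lib.MP_bc213e_ag.DC.KEul

/-! Adjunction over an affine chart of projective space. -/

namespace Pool.Agent.Lib.MP_bc213e_ag.DC

open Pool.Agent.Lib.MP_6adaea_nt Hyp KBG MvPolynomial IntermediateField

variable {K ι : Type} [Field K] [Algebra ℂ K] {n : ℕ}

/-- Evaluation with values in the field generated by `y`. -/
noncomputable def evF (y : Fin n → K) : MvPolynomial (Fin n) ℂ →ₐ[ℂ] FF y :=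
  aeval fun l => ⟨y l, subset_adjoin _ _ ⟨l, rfl⟩⟩

variable {y : Fin n → K} {p : MvPolynomial (Fin n) ℂ} {P : Place ℂ (FF y)} {U : QVal K}

theorem evF_coe (f : MvPolynomial (Fin n) ℂ) : algebraMap (FF y) K (evF y f) = aeval y f := by
  have h : (IsScalarTower.toAlgHom ℂ (FF y) K).comp (evF y) = aeval y :=
    MvPolynomial.algHom_ext fun l => by simp [evF]
  exact DFunLike.congr_fun h f

theorem isFr_evF (hy : AlgebraicIndependent ℂ y) : IsFr (evF y) := by
  refine ⟨fun a b h => hy (by rw [← evF_coe, h, evF_coe]), fun x => ?_⟩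
  obtain ⟨a, b, h⟩ := (mem_adjoin_range_iff ℂ y x).1 x.2
  have h1 : x = evF y a / evF y b :=
    (algebraMap (FF y) K).injective (by rw [map_div₀, evF_coe, evF_coe]; exact h)
  by_cases hb : b = 0
  · exact ⟨0, 1, one_ne_zero, by simpa [hb] using h1⟩
  · exact ⟨a, b, hb, h1⟩

theorem kadj_mem (f : MvPolynomial (Fin n) ℂ) : aeval y f ∈ Algebra.adjoin ℂ (Set.range y) := by
  rw [Algebra.adjoin_range_eq_range_aeval]
  exact ⟨f, rfl⟩

theorem kadj_frac (hy : AlgebraicIndependent ℂ y) (hp : Prime p) (hP : IsFin (evF y) p P)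
    {c : FF y} (hc : P.Ge c 0) : ∃ a b, ¬ p ∣ b ∧ c = evF y a / evF y b := by
  have T := isFr_evF hy
  obtain ⟨a, b, hb, rfl⟩ := T.frac c
  obtain ⟨r, b', h4, rfl⟩ := WfDvdMonoid.max_power_factor' hb hp.not_isUnit
  have h5 : b' ≠ 0 := right_ne_zero_of_mul hb
  have h6 := (hP.ord_eq_zero h5).2 h4
  obtain ⟨a', rfl⟩ : p ^ r ∣ a := (hP.ge_iff T hp a r).1 (by
    have h7 := hc.mul (P.ge_ord (evF y (p ^ r * b')))
    rwa [div_mul_cancel₀ _ (T.ne hb), map_mul, map_pow,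
      P.ord_mul (pow_ne_zero _ (T.ne hp.ne_zero)) (T.ne h5), P.ord_pow, hP.ord_self hp, h6,
      zero_add, add_zero, mul_one] at h7)
  exact ⟨a', b', h4, by
    rw [map_mul, map_mul, mul_div_mul_left _ _ (T.ne (pow_ne_zero _ hp.ne_zero))]⟩

theorem kadj_ord (hU : U.Over P) (hP : IsFin (evF y) p P) {b : MvPolynomial (Fin n) ℂ}
    (hb : ¬ p ∣ b) : U.ord (aeval y b) = 0 := by
  rw [← evF_coe, hU, (hP.ord_eq_zero (f := b) fun h => hb (h ▸ dvd_zero p)).2 hb, Int.cast_zero]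

theorem kadj_ne (hy : AlgebraicIndependent ℂ y) {b : MvPolynomial (Fin n) ℂ} (hb : ¬ p ∣ b) :
    aeval y b ≠ 0 := (map_ne_zero_iff _ hy).2 fun h => hb (h ▸ dvd_zero p)

theorem kadj_lift {A : Subalgebra ℂ K} {Q : Polynomial K} (hQ : Q.Monic) (hc : ∀ j, Q.coeff j ∈ A)
    {z : K} (hz : Q.eval z = 0) : IsIntegral A z := by
  obtain ⟨R, h6, -, h7⟩ := Polynomial.lifts_and_degree_eq_and_monic
    ((Polynomial.lifts_iff_coeff_lifts (f := algebraMap A K) _).2 fun j => ⟨⟨_, hc j⟩, rfl⟩) hQ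
  exact ⟨R, h7, by rw [← Polynomial.eval_map, h6, hz]⟩

theorem kadj_int {A : Subalgebra ℂ K} {z : K} (hz : z ∈ A) : IsIntegral A z :=
  isIntegral_algebraMap (x := (⟨z, hz⟩ : A))

theorem kadj_char : CharZero (FF y) :=
  charZero_of_injective_algebraMap (algebraMap ℂ (FF y)).injective

theorem ge_of_int (hU : U.Over P) (hP : IsFin (evF y) p P) {z : K}
    (hz : IsIntegral (Algebra.adjoin ℂ (Set.range y)) z) : U.Ge z 0 := by
  refine U.ge_of_isIntegral (fun a => ?_) hz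
  obtain ⟨f, hf⟩ : (a : K) ∈ (aeval y : _ →ₐ[ℂ] K).range :=
    Algebra.adjoin_range_eq_range_aeval ℂ y ▸ a.2
  change U.Ge (a : K) 0
  rw [← hf]
  exact evF_coe (y := y) f ▸ hU.ge_zero.2 (hP.ge f)

theorem loc_F (hy : AlgebraicIndependent ℂ y) (hU : U.Over P) (hp : Prime p)
    (hP : IsFin (evF y) p P) {A : Subalgebra ℂ K} (hA : ∀ l, y l ∈ Loc A U) (c : FF y)
    (hc : U.Ge (algebraMap (FF y) K c) 0) : algebraMap (FF y) K c ∈ Loc A U := by
  have h3 : ∀ f, aeval y f ∈ Loc A U := fun f =>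
    Algebra.adjoin_le (S := Loc A U) (by rintro _ ⟨l, rfl⟩; exact hA l) (kadj_mem f)
  obtain ⟨a, b, hb, rfl⟩ := kadj_frac hy hp hP (hU.ge_zero.1 hc)
  rw [map_div₀, evF_coe, evF_coe]
  exact loc_div (h3 a) (h3 b) (kadj_ord hU hP hb)

variable [FiniteDimensional (FF y) K]

theorem int_of_ge (hy : AlgebraicIndependent ℂ y) {z : K}
    (hz : ∀ (p : MvPolynomial (Fin n) ℂ) (P : Place ℂ (FF y)) (U : QVal K), Prime p →
      IsFin (evF y) p P → U.Over P → U.Ge z 0) :
    IsIntegral (Algebra.adjoin ℂ (Set.range y)) z := by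
  have := kadj_char (y := y)
  refine kadj_lift ((minpoly.monic (Algebra.IsIntegral.isIntegral (R := FF y) z)).map
    (algebraMap (FF y) K)) (fun j => ?_) (by rw [Polynomial.eval_map_algebraMap, minpoly.aeval])
  obtain ⟨f, hf⟩ := (isFr_evF hy).hartogs (x := (minpoly (FF y) z).coeff j) fun p P hp hP => by
    obtain ⟨U, hU⟩ := exists_qval K P
    have h1 := adj_coeff (F := FF y) (U := U) (r := 0)
      (fun U' hU' => hz p P U' hp hP fun c => (hU' c).trans (hU c)) j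
    rw [zero_mul] at h1
    exact hU.ge_zero.1 h1
  rw [Polynomial.coeff_map, hf, evF_coe]
  exact kadj_mem f

theorem denom_int (hy : AlgebraicIndependent ℂ y) (hU : U.Over P) (hp : Prime p)
    (hP : IsFin (evF y) p P) {r : K} (hr : r ∈ conj_B (FF y) U) :
    ∃ s : MvPolynomial (Fin n) ℂ, ¬ p ∣ s ∧
      IsIntegral (Algebra.adjoin ℂ (Set.range y)) (aeval y s * r) := by
  classical
  have := kadj_char (y := y)
  have hQ := minpoly.monic (Algebra.IsIntegral.isIntegral (R := FF y) r)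
  have h0 := minpoly.aeval (FF y) r
  have h3 := adj_coeff (F := FF y) (U := U) (r := 0) hr
  simp only [zero_mul] at h3
  generalize minpoly (FF y) r = Q at hQ h0 h3
  choose a b h1 h2 using fun j => kadj_frac hy hp hP (hU.ge_zero.1 (h3 j))
  obtain ⟨d, hd⟩ : ∃ d, d = ∏ j ∈ Q.support, b j := ⟨_, rfl⟩
  refine ⟨d, hd ▸ fun h => ?_, kadj_lift ((Polynomial.monic_scaleRoots_iff (aeval y d)).2
    (hQ.map (algebraMap (FF y) K))) (fun j => ?_) (by
      rw [Polynomial.scaleRoots_eval_mul, Polynomial.eval_map_algebraMap, h0, mul_zero])⟩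
  · obtain ⟨j, -, hj⟩ := (hp.dvd_finsetProd_iff _).1 h
    exact h1 j hj
  rw [Polynomial.coeff_scaleRoots, Polynomial.coeff_map, hQ.natDegree_map]
  by_cases hj : j ∈ Q.support
  · rcases (Polynomial.le_natDegree_of_mem_supp j hj).lt_or_eq with h6 | h6
    · obtain ⟨e, he⟩ := Nat.exists_eq_succ_of_ne_zero (Nat.sub_ne_zero_of_lt h6)
      rw [he, pow_succ', ← mul_assoc]
      refine mul_mem ?_ (pow_mem (kadj_mem d) e)
      rw [hd, ← Finset.mul_prod_erase _ _ hj, map_mul, ← mul_assoc, h2, map_div₀, evF_coe, evF_coe,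
        div_mul_cancel₀ _ (kadj_ne hy (h1 j))]
      exact mul_mem (kadj_mem _) (kadj_mem _)
    · rw [h6, hQ.coeff_natDegree, Nat.sub_self, pow_zero, mul_one, map_one]
      exact one_mem _
  · rw [Polynomial.notMem_support_iff.1 hj, map_zero, zero_mul]
    exact zero_mem _

theorem cod_of_trace (hy : AlgebraicIndependent ℂ y) (hU : U.Over P) (hp : Prime p)
    (hP : IsFin (evF y) p P) {φ : K}
    (hφ : ∀ r, IsIntegral (Algebra.adjoin ℂ (Set.range y)) r →
      ((Algebra.trace (FF y) K (φ * r) : FF y) : K) ∈ Algebra.adjoin ℂ (Set.range y)) :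
    Cod (FF y) U φ := by
  intro r hr
  obtain ⟨s, h1, h2⟩ := denom_int hy hU hp hP hr
  have h3 : U.Ge (algebraMap (FF y) K (Algebra.trace (FF y) K (φ * (aeval y s * r)))) 0 :=
    ge_of_int hU hP (kadj_int (hφ _ h2))
  have h4 : φ * (aeval y s * r) = evF y s • (φ * r) := by
    rw [Algebra.smul_def, evF_coe, mul_left_comm]
  rwa [h4, map_smul, smul_eq_mul, map_mul, evF_coe, mul_comm, QVal.ge_mul_iff (kadj_ne hy h1),
    kadj_ord hU hP h1, sub_zero] at h3

theorem adj_aff [Finite ι] {x g : ι → Kˣ} (frac : ∀ i, IsFractionRing (chart x i) K)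
    (norm : ∀ i, IsIntegrallyClosed (chart x i)) {D : Fin n → Derivation ℂ K K} {m : ℕ} (hm : m ≠ 0)
    (can : ∀ i, ∀ u : Fin n → K, (∀ b, u b ∈ chart x i) → jac D u ^ m / g i ∈ chart x i)
    (hy : IsTranscendenceBasis ℂ y) {η : K} (h0 : η ≠ 0) (hη : η ∈ VV x)
    (hyη : ∀ l, y l * η ∈ VV x)
    (hx : ∀ i, IsIntegral (Algebra.adjoin ℂ (Set.range y)) ((x i : K) / η)) {φ : K}
    (hφ : ∀ r, IsIntegral (Algebra.adjoin ℂ (Set.range y)) r →
      ((Algebra.trace (FF y) K (φ * r) : FF y) : K) ∈ Algebra.adjoin ℂ (Set.range y))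
    {i : ι} {e : ℕ} (he : ∀ l, (g l : K) / g i * ((x i : K) / x l) ^ e ∈ chart x l) :
    IsIntegral (Algebra.adjoin ℂ (Set.range y))
      ((φ * jac D y) ^ m / g i * ((x i : K) / η) ^ e) := by
  refine int_of_ge hy.1 fun p P U hp hP hU => ?_
  have := kadj_char (y := y)
  have : Nonempty ι := ⟨i⟩
  obtain ⟨l, hl⟩ := Finite.exists_min fun l => U.ord (x l)
  have := frac l
  have := norm l
  have h1 : ∀ r ∈ chart x l, U.Ge r 0 := fun r hr => by
    obtain ⟨w, e, he, hw⟩ := exists_val hU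
    exact (val_le_one_iff he hw).1 (Basic_le w.val
      (fun c => (val_le_one_iff he hw).2 (hU.ge_const c)) x l
      (fun a => (val_le_iff he hw (x l).ne_zero).2 (.of_le (hl a))) r hr)
  have h2 := ge_of_int hU hP (hx l)
  have h3 : U.ord (η / x l) = 0 := by
    have h4 := h2.le (div_ne_zero (x l).ne_zero h0)
    have h5 := (h1 _ (vv_div_mem hη l)).le (div_ne_zero h0 (x l).ne_zero)
    rw [U.ord_div (x l).ne_zero h0] at h4
    rw [U.ord_div h0 (x l).ne_zero] at h5 ⊢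
    linarith
  have h4 := adj_fin (by simpa using TCI.trdeg_eq_card _ hy) D hm (g l).ne_zero
    (eff_of_can (g l).ne_zero (can l)) hU h1 (loc_F hy.1 hU hp hP fun a => by
      rw [← mul_div_cancel_right₀ (y a) h0, ← div_div_div_cancel_right₀ (x l).ne_zero]
      exact loc_div (le_loc (vv_div_mem (hyη a) l)) (le_loc (vv_div_mem hη l)) h3) (y := y)
    (fun a => ge_of_int hU hP (kadj_int (Algebra.subset_adjoin ⟨a, rfl⟩)))
    (fun f => ⟨evF y f, evF_coe f⟩) (cod_of_trace hy.1 hU hp hP hφ)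
  have h5 := (h4.mul₀ (h1 _ (he l))).mul₀ (h2.pow₀ e)
  rwa [mul_assoc, mul_assoc, ← mul_pow, div_mul_div_cancel₀ (x l).ne_zero, ← mul_assoc,
    div_mul_div_cancel₀ (g l).ne_zero] at h5

end Pool.Agent.Lib.MP_bc213e_ag.DC
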