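import Pool.Agent.Lib.MP_bc213e_ag.DC.KEul
import Pool.Agent.Lib.MP_bc213e_ag.KBN.Noeth

/-! The conductor of the hypersurface model. -/

namespace Pool.Agent.Lib.MP_bc213e_ag.DC

open Hyp KBG MvPolynomial IntermediateField Module

variable {K : Type} [Field K] [Algebra ℂ K] {n : ℕ}

/-- The graded pieces of the conductor. -/
def cond (y : Fin n → K) (w : K) (b : ℕ) : Submodule ℂ K where
  carrier := {θ | ∀ μ, ∀ r ∈ Bd y μ, θ * r ∈ PL ℂ (ZZ y w) (b + μ)}
  add_mem' := fun hf hg μ r hr => by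
    rw [add_mul]
    exact add_mem (hf μ r hr) (hg μ r hr)
  zero_mem' := fun μ r _ => by
    rw [zero_mul]
    exact zero_mem _
  smul_mem' := fun c f hf μ r hr => by
    rw [smul_mul_assoc]
    exact Submodule.smul_mem _ c (hf μ r hr)

open Pointwise in
theorem kcond_set {ι : Type} (μ : ℕ) :
    {s : ι →₀ ℕ | s.degree ≤ μ} = μ • {s : ι →₀ ℕ | s.degree ≤ 1} := by
  induction μ with
  | zero =>
    ext s
    simp [Finsupp.degree_eq_zero_iff]
  | succ μ ih =>
    rw [succ_nsmul, ← ih]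
    ext s
    constructor
    · intro hs
      by_cases h0 : s = 0
      · exact ⟨0, by simp, 0, by simp, by simp [h0]⟩
      · obtain ⟨i, hi⟩ := Finsupp.ne_iff.1 h0
        obtain ⟨t, rfl⟩ := exists_add_of_le
          (Finsupp.single_le_iff.2 (Nat.one_le_iff_ne_zero.2 hi) : Finsupp.single i 1 ≤ s)
        refine ⟨t, ?_, Finsupp.single i 1, by simp, add_comm _ _⟩
        simp only [Set.mem_ofPred_eq, map_add, Finsupp.degree_single] at hs ⊢
        omega
    · rintro ⟨a, ha, b, hb, rfl⟩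
      simp only [Set.mem_ofPred_eq, map_add] at ha hb ⊢
      omega

theorem PL_eq_pow {k A ι : Type} [CommRing k] [CommRing A] [Algebra k A] (Z : ι → A) (μ : ℕ) :
    PL k Z μ = PL k Z 1 ^ μ := by
  have h : restrictTotalDegree ι k μ = restrictTotalDegree ι k 1 ^ μ :=
    (congrArg (restrictSupport k) (kcond_set μ)).trans (restrictSupport_nsmul k μ _)
  rw [PL, PL, h, Submodule.map_pow]

theorem PL_fg {k A ι : Type} [Field k] [CommRing A] [Algebra k A] [Finite ι] (Z : ι → A) (μ : ℕ) :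
    (PL k Z μ).FG := by
  exact (Module.Finite.iff_fg.1 inferInstance).map _

variable {y : Fin n → K} {w : K}

theorem cond_le (b : ℕ) : cond y w b ≤ PL ℂ (ZZ y w) b := by
  intro θ hθ
  simpa using hθ 0 1 (one_mem_Bd y 0)

theorem mul_mem_cond {D b : ℕ} {r θ : K} (hr : r ∈ Bd y b) (hθ : θ ∈ cond y w D) :
    r * θ ∈ cond y w (D + b) := by
  intro μ s hs
  rw [mul_comm r, mul_assoc, add_assoc]
  exact hθ _ _ (mul_mem_Bd y hr hs)

theorem exists_cond [FiniteDimensional (FF y) K] (hy : AlgebraicIndependent ℂ y)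
    (hw : w ∈ Bd y 1) (prim : adjoin (FF y) {w} = ⊤) :
    ∃ (D c : ℕ) (th : Fin (c + 1) → K), finrank (FF y) K ≤ D ∧ th 0 ≠ 0 ∧
      (∀ i, th i ∈ cond y w D) ∧
        ∀ b, cond y w (D + b) ≤ PL ℂ (ZZ y w) b * Submodule.span ℂ (Set.range th) := by
  obtain ⟨μ₀, h⟩ := KBN.noeth_gen (PL_fg (k := ℂ) (ZZ y w) 1) (M₀ := 1)
    (Submodule.one_eq_span (R := ℂ) (A := K) ▸ Submodule.fg_span_singleton 1) (cond y w)
    (fun μ => by
      rw [mul_one, ← PL_eq_pow]
      exact cond_le μ)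
    fun μ => Submodule.mul_le.2 fun r hr θ hθ => mul_mem_cond (PL_le_Bd hw 1 hr) hθ
  obtain ⟨D, h1, h2⟩ : ∃ D, μ₀ ≤ D ∧ finrank (FF y) K ≤ D := ⟨_, le_max_left _ _, le_max_right _ _⟩
  have := isNoetherian_of_fg_of_noetherian _ (PL_fg (k := ℂ) (ZZ y w) D)
  obtain ⟨c, s, hs⟩ := Submodule.fg_iff_exists_fin_generating_family.1
    ((isNoetherian_submodule.1 this) _ (cond_le (y := y) (w := w) D))
  refine ⟨D, c, Fin.cons (dl (FF y) w) s, h2, dl_ne_zero w, fun i => ?_, fun b => ?_⟩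
  · refine Fin.cases (fun μ r hr => ?_) (fun j => ?_) i
    · exact PL_mono _ (by omega) (dl_cond hy hw prim hr)
    · exact hs ▸ Submodule.subset_span (Set.mem_range_self j)
  · rw [PL_eq_pow]
    refine (KBN.noeth_pow h h1 b).trans (mul_le_mul_right ?_ _)
    rw [← hs, Fin.range_cons]
    exact Submodule.span_mono (Set.subset_insert _ _)

theorem Bd_of_cond (hw : w ∈ Bd y 1) {D c : ℕ} {th : Fin (c + 1) → K} (h0 : th 0 ≠ 0)
    (h1 : ∀ i, th i ∈ cond y w D) (h2 : ∀ b, cond y w (D + b) ≤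
      PL ℂ (ZZ y w) b * Submodule.span ℂ (Set.range th)) {A : ℕ} {o : K}
    (ho : ∀ i, o * th i ∈ PL ℂ (ZZ y w) (A + D)) : o ∈ Bd y A := by
  have h3 : ∀ i, o * th i ∈ cond y w (D + A) := by
    intro i μ r hr
    rw [mul_assoc, mul_comm (th i)]
    refine Submodule.mul_induction_on (h2 μ (mul_mem_cond hr (h1 i))) (fun a ha b hb => ?_)
      fun a b ha hb => mul_add o a b ▸ add_mem ha hb
    have h4 : o * b ∈ PL ℂ (ZZ y w) (A + D) := by
      induction hb using Submodule.span_induction with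
      | mem z hz =>
        obtain ⟨j, rfl⟩ := hz
        exact ho j
      | zero => simp
      | add u v _ _ hu hv => exact mul_add o u v ▸ add_mem hu hv
      | smul z u _ hu =>
        rw [mul_smul_comm]
        exact Submodule.smul_mem _ z hu
    rw [mul_left_comm]
    exact PL_mono _ (by omega) (PL_mul ha h4)
  intro O e k1 k2 k3 k4
  obtain ⟨i, hi⟩ := Finite.exists_max fun j => O.valuation (th j)
  have h5 : O.valuation (th i) ≠ 0 :=
    (lt_of_lt_of_le (zero_lt_iff.2 ((map_ne_zero _).2 h0)) (hi 0)).ne'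
  have h6 : ∀ b ∈ Submodule.span ℂ (Set.range th), b / th i ∈ O := by
    intro b hb
    induction hb using Submodule.span_induction with
    | mem z hz =>
      obtain ⟨j, rfl⟩ := hz
      rw [← O.valuation_le_one_iff, map_div₀]
      exact div_le_one_of_le₀ (hi j) zero_le
    | zero => simp
    | add u v _ _ hu hv => exact add_div u v (th i) ▸ O.add_mem _ _ hu hv
    | smul z u _ hu =>
      rw [Algebra.smul_def, mul_div_assoc]
      exact O.mul_mem _ _ (k1 z) hu
  have h7 : o * th i / (e ^ A * th i) ∈ O := by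
    refine Submodule.mul_induction_on (C := fun z => z / (e ^ A * th i) ∈ O) (h2 A (h3 i))
      (fun a ha b hb => ?_) fun a b ha hb => add_div a b _ ▸ O.add_mem _ _ ha hb
    rw [mul_div_mul_comm]
    exact O.mul_mem _ _ (PL_le_Bd hw A ha O e k1 k2 k3 k4) (h6 b hb)
  rwa [mul_div_mul_right _ _ ((map_ne_zero _).1 h5)] at h7

end Pool.Agent.Lib.MP_bc213e_ag.DC
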