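import Pool.Agent.Lib.MP_bc213e_ag.KBD.Lift
import Pool.Agent.Lib.MP_bc213e_ag.KBG.G1

/-! Sections in the trivialisation of one chart. -/

namespace Pool.Agent.Lib.MP_bc213e_ag.DC

open Hyp KBB KBG

variable {K ι : Type} [Field K] [Algebra ℂ K]

/-- The sections of `t L + a H`, divided by the generator on the chart `j`. -/
def NS (x g : ι → Kˣ) (j : ι) (t : ℤ) (a : ℕ) : Submodule ℂ K :=
  (SecS x g t a).comap (LinearMap.mulRight ℂ (fr x g t a j))

variable {x g : ι → Kˣ} {j : ι}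

theorem mem_NS {t : ℤ} {a : ℕ} {s : K} : s ∈ NS x g j t a ↔ Sec x g t a (s * fr x g t a j) :=
  Iff.rfl

theorem NS_chart {t : ℤ} {a : ℕ} {s : K} (h : s ∈ NS x g j t a) : s ∈ chart x j := by
  have := sec_iff_fr.1 (mem_NS.1 h) j
  rwa [mul_div_cancel_right₀ _ (fr_ne _ _ _ _ _)] at this

theorem NS_mul {t t' : ℤ} {a a' : ℕ} {s s' : K} (h : s ∈ NS x g j t a) (h' : s' ∈ NS x g j t' a') :
    s * s' ∈ NS x g j (t + t') (a + a') := by
  rw [mem_NS, fr_add, mul_mul_mul_comm]
  exact KBD.sec_mul h h'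

theorem NS_pow {t : ℤ} {a : ℕ} {s : K} (h : s ∈ NS x g j t a) (i : ℕ) :
    s ^ i ∈ NS x g j (i * t) (i * a) := by
  have := KBD.sec_pow (mem_NS.1 h) i
  rwa [mul_pow, fr, mul_pow, ← zpow_natCast (_ ^ t), ← zpow_mul, ← pow_mul, mul_comm t,
    mul_comm a] at this

/-- The generators of `e H - L`. -/
def gam (x g : ι → Kˣ) (j : ι) (e : ℕ) (l : ι) : K := ((x l : K) / x j) ^ e * ((g j : K) / g l)

theorem gam_self (e : ℕ) : gam x g j e j = 1 := by
  simp [gam]

theorem exists_inv [Finite ι] (hc : Cart x g) :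
    ∃ e : ℕ, ∀ i l, (g l : K) / g i * ((x i : K) / x l) ^ e ∈ chart x l := by
  choose e he using fr_trans hc (-1) 0
  obtain ⟨E, hE⟩ := (Set.finite_range fun p : ι × ι => e p.1 p.2).bddAbove
  refine ⟨E, fun i l => ?_⟩
  obtain ⟨m, hm⟩ := Nat.exists_eq_add_of_le (hE ⟨(i, l), rfl⟩)
  have h := mul_mem (he i l) (pow_mem (Basic_mem x l i) m)
  rw [fr, fr, pow_zero, pow_zero, mul_one, mul_one, zpow_neg_one, zpow_neg_one, inv_div_inv,
    mul_assoc, ← pow_add] at h
  rwa [hm]

theorem gam_mem {e : ℕ} (he : ∀ i l, (g l : K) / g i * ((x i : K) / x l) ^ e ∈ chart x l) (l : ι) :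
    gam x g j e l ∈ NS x g j (-1) e := by
  intro i
  have : gam x g j e l * fr x g (-1) e j / ((g i : K) ^ (-1 : ℤ) * (x i : K) ^ e) =
      (g i : K) / g l * ((x l : K) / x i) ^ e := by
    rw [gam, fr, zpow_neg_one, zpow_neg_one, div_pow, div_pow]
    field_simp
  exact (congrArg (· ∈ chart x i) this).mpr (he l i)

theorem NS_of_gam {e i a : ℕ} {o : K} (h : ∀ l, o * gam x g j e l ^ i ∈ NS x g j 0 (a + i * e)) :
    o ∈ NS x g j i a := by
  intro l
  have : o * fr x g i a j / ((g l : K) ^ (i : ℤ) * (x l : K) ^ a) =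
      o * gam x g j e l ^ i * fr x g 0 (a + i * e) j / fr x g 0 (a + i * e) l := by
    rw [gam, fr_zero, fr_zero, fr, zpow_natCast, zpow_natCast, mul_pow, ← pow_mul, mul_comm e,
      div_pow, div_pow, pow_add, pow_add]
    field_simp
  exact (congrArg (· ∈ chart x l) this).mpr (h l l)

theorem NS_fd [Fintype ι] (hc : Cart x g) (hn : Nef x g) (t a : ℕ) :
    FiniteDimensional ℂ (NS x g j t a) := by
  have := KBD.secS_fd hc hn j t a
  refine .of_injective (((LinearMap.mulRight ℂ (fr x g t a j)).domRestrict _).codRestrict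
    (SecS x g t a) fun s => s.2) fun s s' e => ?_
  exact Subtype.ext (mul_right_cancel₀ (fr_ne x g t a j) (congrArg Subtype.val e))

variable [Finite ι] {κ : Type} {y : κ → K}

theorem NS_le_Bd (hx : ∀ i, (x i : K) / x j ∈ Bd y 1) (a : ℕ) : NS x g j 0 a ≤ Bd y a := by
  intro s hs O c h1 h2 h3 h4
  have : Nonempty ι := ⟨j⟩
  obtain ⟨i, hi⟩ := Finite.exists_max fun i => O.valuation (x i)
  have h5 := (O.valuation_le_one_iff _).1 (Basic_le O.valuation
    (fun z => (O.valuation_le_one_iff _).2 (h1 z)) x i hi _ (sec_iff_fr.1 (mem_NS.1 hs) i))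
  have h6 := mul_mem h5 (pow_mem (hx i O c h1 h2 h3 h4) a)
  have : s * fr x g 0 a j / fr x g 0 a i * ((x i : K) / x j / c ^ 1) ^ a = s / c ^ a := by
    rw [fr_zero, fr_zero, pow_one, div_pow, div_pow]
    field_simp
  rwa [this] at h6

theorem Bd_le_NS (frac : ∀ i, IsFractionRing (chart x i) K)
    (norm : ∀ i, IsIntegrallyClosed (chart x i)) (hy : ∀ l, y l * x j ∈ VV x) (a : ℕ) :
    Bd y a ≤ NS x g j 0 a := by
  intro s hs
  refine mem_NS.2 (sec_iff_fr.2 fun i => ?_)
  have := frac i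
  have := norm i
  have := chart_noeth x i
  refine hartogs fun w hw => ?_
  have hv : ∀ z ∈ VV x, z / x i ∈ chart x i := fun z hz => by
    induction hz using Submodule.span_induction with
    | mem r hr =>
      obtain ⟨l, rfl⟩ := hr
      exact Basic_mem x i l
    | zero => rw [zero_div]; exact zero_mem _
    | add a b _ _ ha hb => rw [add_div]; exact add_mem ha hb
    | smul c a _ ha => rw [smul_div_assoc]; exact Subalgebra.smul_mem _ ha c
  have hi := Basic_pos w (x i)
  have hj := Basic_pos w (x j)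
  have h := val_le_of_Bd hs w (fun z => hw.2.1 _ (Subalgebra.algebraMap_mem _ z))
    (c := (x i : K) / x j) (by
      have := hw.2.1 _ (Basic_mem x i j)
      rw [map_div₀, div_le_one₀ hi] at this
      rwa [map_div₀, one_le_div₀ hj]) fun l => by
      have := hw.2.1 _ (hv _ (hy l))
      rw [map_div₀, div_le_one₀ hi, map_mul] at this
      rwa [map_div₀, le_div_iff₀ hj]
  rw [map_div₀, div_pow, le_div_iff₀ (pow_pos hj a)] at h
  rwa [fr_zero, fr_zero, map_div₀, map_mul, map_pow, map_pow, div_le_one₀ (pow_pos hi a)]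

end Pool.Agent.Lib.MP_bc213e_ag.DC
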