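import Pool.Agent.Lib.MP_bc213e_ag.DC.KAdj
import Pool.Agent.Lib.MP_bc213e_ag.DC.KCond
import Pool.Agent.Lib.MP_bc213e_ag.DC.KNS
import Pool.Agent.Lib.MP_bc213e_ag.KBD.G5

/-! The adjoint sections. -/

namespace Pool.Agent.Lib.MP_bc213e_ag.DC

open Hyp KBB KBG MvPolynomial IntermediateField Module

variable {K ι : Type} [Field K] [Algebra ℂ K] {n : ℕ}

section

variable {ξ : Fin (n + 1) → K} [FiniteDimensional (FF (yy ξ)) K] {w θ : K} {Dg N : ℕ}

theorem km4_isF (hξ : ∀ l, ξ l ≠ 0) (a : Fin (n + 1)) :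
    IsF (yy ξ) (FF fun l => ξ (a.succAbove l) / ξ a) := fun z => by
  rw [swap_field ξ a (hξ 0) (hξ a)]
  exact isF_self _ z

theorem km4_tb (hξ : ∀ l, ξ l ≠ 0) (hy : IsTranscendenceBasis ℂ (yy ξ)) (a : Fin (n + 1)) :
    IsTranscendenceBasis ℂ fun l => ξ (a.succAbove l) / ξ a := by
  have := (km4_isF hξ a).fd
  exact tb_of_fd (by rw [← hy.cardinalMk_eq_trdeg, Cardinal.mk_fin]) _

theorem km4_int (hξ : ∀ l, ξ l ≠ 0) (a : Fin (n + 1)) {z : K} (hz : z / ξ 0 ∈ Bd (yy ξ) 1) :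
    IsIntegral (Algebra.adjoin ℂ (Set.range fun l => ξ (a.succAbove l) / ξ a)) (z / ξ a) :=
  KBD.integral_of_Bd (hξ 0) (hξ a) hz fun l hl => by
    obtain ⟨l, rfl⟩ := Fin.exists_succAbove_eq hl
    exact ⟨l, rfl⟩

/-- The codifferent on the chart `a` of projective space. -/
theorem trace_chart (hξ : ∀ l, ξ l ≠ 0) (hy : IsTranscendenceBasis ℂ (yy ξ))
    (hw : w ∈ Bd (yy ξ) 1) (prim : adjoin (FF (yy ξ)) {w} = ⊤) (hθ : θ ∈ cond (yy ξ) w Dg)
    (num : N + finrank (FF (yy ξ)) K = Dg + n + 2) (a : Fin (n + 1)) {r : K}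
    (hr : IsIntegral (Algebra.adjoin ℂ (Set.range fun l => ξ (a.succAbove l) / ξ a)) r) :
    ((Algebra.trace (FF fun l => ξ (a.succAbove l) / ξ a) K
      (θ / dl (FF (yy ξ)) w * ((ξ 0 / ξ a) ^ N * (ξ a / ξ 0) ^ (n + 1)) * r) :
        FF fun l => ξ (a.succAbove l) / ξ a) : K) ∈
      Algebra.adjoin ℂ (Set.range fun l => ξ (a.succAbove l) / ξ a) := by
  have hF := km4_isF hξ a
  have := hF.fd
  have h0 := hξ 0
  have ha := hξ a
  have hm : ∀ (A : Subalgebra ℂ K), (∀ l, ξ (a.succAbove l) / ξ a ∈ A) → ∀ l, ξ l / ξ a ∈ A :=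
    fun A h l => by
      rcases Fin.eq_self_or_eq_succAbove a l with rfl | ⟨l, rfl⟩
      · rw [div_self ha]
        exact one_mem _
      · exact h l
  let d : FF fun l => ξ (a.succAbove l) / ξ a := ⟨ξ 0 / ξ a,
    hm (FF fun l => ξ (a.succAbove l) / ξ a).toSubalgebra (fun l => subset_adjoin _ _ ⟨l, rfl⟩) 0⟩
  have hd : d ≠ 0 := fun h => div_ne_zero h0 ha (congrArg Subtype.val h)
  have ew : d • w = w * ξ 0 / ξ a := by
    rw [mul_div_assoc, mul_comm]
    rfl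
  have hN := natDegree_minpoly_eq (hF.prim prim)
  have p1 : adjoin (FF fun l => ξ (a.succAbove l) / ξ a) {d • w} = ⊤ := by
    rw [Field.primitive_element_iff_minpoly_natDegree_eq,
      IsIntegrallyClosed.minpoly_smul hd (IsIntegral.of_finite _ w),
      Polynomial.natDegree_scaleRoots, hN]
  obtain ⟨μ, h1⟩ := Bd_of_int _ hr
  have h2 := hm (Algebra.adjoin ℂ (Set.range (ZZ (fun l => ξ (a.succAbove l) / ξ a) (d • w))))
    fun l => Algebra.subset_adjoin ⟨some l, rfl⟩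
  have h3 := PL_div_mem (c := ξ a / ξ 0) (hθ μ _ (swap_Bd ξ a h0 ha h1))
    (by rw [inv_div]; exact h2 0) (by
      rintro (_ | l)
      · refine Algebra.subset_adjoin ⟨none, ew.trans ?_⟩
        rw [div_div_eq_mul_div]
        rfl
      · have h4 := h2 l.succ
        rwa [← div_div_div_cancel_right₀ h0] at h4)
  have h4 := trace_div_dl (km4_tb hξ hy a).1
    (by rw [ew]; exact km4_int hξ a (by rwa [mul_div_cancel_right₀ _ h0])) p1 h3
  obtain ⟨j, hj⟩ := Nat.exists_eq_succ_of_ne_zero (finrank_pos (R := FF (yy ξ)) (M := K)).ne'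
  rw [dl_smul hd, hN, hF.finrank_eq, hF.dl_eq, hj, Nat.succ_sub_one] at h4
  refine (congrArg (fun z => ((Algebra.trace (FF fun l => ξ (a.succAbove l) / ξ a) K z :
    FF fun l => ξ (a.succAbove l) / ξ a) : K) ∈ _) ?_).mp h4
  have e : algebraMap (FF fun l => ξ (a.succAbove l) / ξ a) K d = (ξ a / ξ 0)⁻¹ :=
    (inv_div _ _).symm
  rw [e, ← inv_div (ξ a) (ξ 0)]
  have hc := div_ne_zero ha h0
  generalize ξ a / ξ 0 = c at hc
  have e1 : c ^ j * c ^ N = c ^ (n + 1) * c ^ Dg := by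
    rw [← pow_add, ← pow_add]
    congr 1
    omega
  rw [pow_add, inv_pow, inv_pow, ← mul_assoc θ, mul_div_mul_right _ _ (pow_ne_zero μ hc),
    (eq_div_iff (pow_ne_zero Dg hc)).2 e1.symm]
  field_simp

end

theorem mem_chart_of_int [Finite ι] {x : ι → Kˣ} {i : ι} [IsFractionRing (chart x i) K]
    [IsIntegrallyClosed (chart x i)] {ξ : Fin (n + 1) → K} (hξ : ∀ l, ξ l ≠ 0)
    (mem : ∀ l, ξ l ∈ VV x) {z : K} {e : ℕ}
    (h : ∀ a : Fin (n + 1), IsIntegral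
      (Algebra.adjoin ℂ (Set.range fun l => ξ (a.succAbove l) / ξ a)) (z * ((x i : K) / ξ a) ^ e)) :
    z ∈ chart x i := by
  have := chart_noeth x i
  refine hartogs fun w hw => ?_
  obtain ⟨a, ha⟩ := Finite.exists_max fun l => w (ξ l)
  obtain ⟨μ, h1⟩ := Bd_of_int _ (h a)
  have h2 := h1 w.valuationSubring 1 hw.triv one_ne_zero (by rw [inv_one]; exact one_mem _)
    fun l => by
      rw [div_one, Valuation.mem_valuationSubring_iff, map_div₀]
      exact div_le_one_of_le₀ (ha _) zero_le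
  rw [one_pow, div_one, Valuation.mem_valuationSubring_iff] at h2
  have h3 := mul_le_one' h2 (pow_le_one' (hw.2.1 _ (vv_div_mem (mem a) i)) e)
  rwa [← map_pow, ← map_mul, mul_assoc, ← mul_pow, div_mul_div_cancel₀ (hξ a),
    div_self (x i).ne_zero, one_pow, mul_one] at h3

theorem adj_NS [Finite ι] {x g : ι → Kˣ} (frac : ∀ i, IsFractionRing (chart x i) K)
    (norm : ∀ i, IsIntegrallyClosed (chart x i)) {D : Fin n → Derivation ℂ K K} {m : ℕ} (hm : m ≠ 0)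
    (can : ∀ i, ∀ u : Fin n → K, (∀ b, u b ∈ chart x i) → jac D u ^ m / g i ∈ chart x i)
    (hc : Cart x g) {j : ι} {y : Fin n → K} [FiniteDimensional (FF y) K]
    (hy : IsTranscendenceBasis ℂ y) (mem : ∀ l, y l * x j ∈ VV x)
    (bd : ∀ i, (x i : K) / x j ∈ Bd y 1) {w θ : K} (hw : w ∈ Bd y 1)
    (prim : adjoin (FF y) {w} = ⊤) {Dg N : ℕ} (hθ : θ ∈ cond y w Dg)
    (num : N + finrank (FF y) K = Dg + n + 2) :
    θ ^ m * (jac D y ^ m / g j) / dl (FF y) w ^ m ∈ NS x g j 1 (m * N) := by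
  obtain ⟨ξ, h0, rfl⟩ : ∃ ξ : Fin (n + 1) → K, ξ 0 = x j ∧ yy ξ = y :=
    ⟨Fin.cons (x j) fun l => y l * x j, rfl,
      funext fun l => mul_div_cancel_right₀ (y l) (x j).ne_zero⟩
  rw [← h0] at mem bd
  have hξ : ∀ l, ξ l ≠ 0 := Fin.cases (h0 ▸ (x j).ne_zero) fun l =>
    (div_ne_zero_iff.1 (hy.1.ne_zero l)).1
  have hv : ∀ l, ξ l ∈ VV x := Fin.cases (h0 ▸ Submodule.subset_span ⟨j, rfl⟩) fun l => by
    have h1 := mem l
    rwa [yy, div_mul_cancel₀ _ (hξ 0)] at h1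
  obtain ⟨e, he⟩ := exists_inv hc
  intro i
  have := frac i
  have := norm i
  refine mem_chart_of_int hξ hv (e := e + m * N) fun a => ?_
  have := (km4_isF hξ a).fd
  have h1 := adj_aff frac norm hm can (km4_tb hξ hy a) (hξ a) (hv a)
    (fun l => by rw [div_mul_cancel₀ _ (hξ a)]; exact hv _) (fun i => km4_int hξ a (bd i))
    (fun r hr => trace_chart hξ hy hw prim hθ num a hr) (he i)
  refine (congrArg (IsIntegral _) ?_).mp (((isIntegral_one.neg.pow a).pow m).mul h1)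
  have h2 : ((-1 : K) ^ (a : ℕ)) * (-1) ^ (a : ℕ) = 1 := by
    rw [← mul_pow, neg_mul_neg, mul_one, one_pow]
  have h3 := hξ 0
  have h4 := hξ a
  have h5 := (x i).ne_zero
  have h6 := (g j).ne_zero
  rw [(eq_div_iff (pow_ne_zero (n + 1) h4)).2 ((mul_comm _ _).trans (jac_swap D ξ a h3 h4)), fr,
    ← h0, zpow_one, zpow_one, pow_add _ e, LinearMap.mulRight_apply]
  generalize (-1 : K) ^ (a : ℕ) = u at h2
  have h7 : (u * u) ^ m = 1 := by rw [h2, one_pow]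
  refine Eq.trans ?_ ((congrArg (· * _) h7).trans (one_mul _))
  simp only [div_pow, mul_pow, mul_comm m N, pow_mul _ N m]
  field_simp

end Pool.Agent.Lib.MP_bc213e_ag.DC
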