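import Pool.Agent.Lib.MP_bc213e_ag.DC.CarPS
import Pool.Agent.Lib.MP_bc213e_ag.Hyp.FT1

/-! The Cartier operator on a hypersurface. -/

namespace Pool.Agent.Lib.MP_bc213e_ag.DC

open MvPolynomial

variable {k A ι : Type} [Field k] [CommRing A] [Algebra k A] [Fintype ι] [DecidableEq ι]
  {p : ℕ} [Fact p.Prime] [CharP k p] [PerfectRing k p] [CharP A p]

/-- The lifted family of sections. -/
noncomputable def link_Y (Y : ι → A) (w : A) : ι ⊕ Unit → MvPowerSeries Unit A :=
  Sum.elim (fun i => MvPowerSeries.C (Y i)) fun _ => MvPowerSeries.C w + MvPowerSeries.X ()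

/-- The lifted point. -/
noncomputable def link_Z (Y : ι → A) (o : ι) (w : A) : ι → MvPowerSeries Unit A :=
  Function.update (fun i => MvPowerSeries.C (Y i)) o (MvPowerSeries.C w + MvPowerSeries.X ())

omit [Fintype ι] [DecidableEq ι] in
theorem link_mapDer_C (δ : Derivation k A A) (a : A) :
    mapDer Unit δ (MvPowerSeries.C a) = MvPowerSeries.C (δ a) := by
  refine MvPowerSeries.ext fun α => ?_
  rw [coeff_mapDer, MvPowerSeries.coeff_C, MvPowerSeries.coeff_C]
  split_ifs
  · rfl
  · exact map_zero δ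

theorem link_jac (d : ι → Derivation k A A) (Y : ι → A) (w : A) :
    Jac (psDer Unit d) (link_Y Y w) = MvPowerSeries.C (Jac d Y) := by
  have h : (Matrix.of fun a b => psDer Unit d a (link_Y Y w b)) =
      Matrix.fromBlocks
        ((MvPowerSeries.C : A →+* MvPowerSeries Unit A).mapMatrix (Matrix.of fun a b => d a (Y b)))
        (Matrix.of fun a _ => mapDer Unit (d a) (MvPowerSeries.C w + MvPowerSeries.X ())) 0 1 := by
    ext1 a b
    rcases a with a | a <;> rcases b with b | b
    · exact link_mapDer_C (d a) (Y b)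
    · rfl
    · exact MvPowerSeries.pderiv_C (r := Y b)
    · change MvPowerSeries.pderiv A () (MvPowerSeries.C w + MvPowerSeries.X ()) = 1
      rw [map_add, MvPowerSeries.pderiv_C, MvPowerSeries.pderiv_X_self, zero_add]
  unfold Jac
  rw [h, Matrix.det_fromBlocks_zero₂₁, Matrix.det_one, mul_one, ← RingHom.map_det]

omit [Fintype ι] in
theorem link_const (Y : ι → A) (o : ι) (w : A) (Q : MvPolynomial ι k) :
    MvPowerSeries.constantCoeff (aeval (link_Z Y o w) Q) = aeval (Function.update Y o w) Q := by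
  induction Q using MvPolynomial.induction_on with
  | C a =>
    rw [aeval_C, aeval_C, MvPowerSeries.algebraMap_apply, MvPowerSeries.constantCoeff_C]
  | add f g hf hg => rw [map_add, map_add, map_add, hf, hg]
  | mul_X f i hf =>
    rw [map_mul, map_mul, map_mul, hf, aeval_X, aeval_X]
    congr 1
    by_cases hi : i = o
    · subst hi
      simp [link_Z]
    · simp [link_Z, Function.update_of_ne hi]

omit [Fintype ι] in
theorem link_pderiv (Y : ι → A) (o : ι) (w : A) (Q : MvPolynomial ι k) :
    MvPowerSeries.pderiv A () (aeval (link_Z Y o w) Q) = aeval (link_Z Y o w) (pderiv o Q) := by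
  induction Q using MvPolynomial.induction_on with
  | C a =>
    rw [aeval_C, MvPowerSeries.algebraMap_apply, MvPowerSeries.pderiv_C, pderiv_C, map_zero]
  | add f g hf hg => rw [map_add, map_add, map_add, map_add, hf, hg]
  | mul_X f i hf =>
    rw [map_mul, Derivation.leibniz, hf, Derivation.leibniz, smul_eq_mul, smul_eq_mul, smul_eq_mul,
      smul_eq_mul, map_add, map_mul, map_mul, aeval_X]
    congr 2
    by_cases hi : i = o
    · subst hi
      rw [pderiv_X_self, map_one, link_Z, Function.update_self, map_add, MvPowerSeries.pderiv_C,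
        MvPowerSeries.pderiv_X_self, zero_add]
    · rw [pderiv_X_of_ne hi, map_zero, link_Z, Function.update_of_ne hi, MvPowerSeries.pderiv_C]

omit [Fintype ι] in
theorem link_factor (Y : ι → A) (o : ι) (w : A) {P : MvPolynomial ι k}
    (hP : aeval (Function.update Y o w) P = 0) :
    ∃ q : MvPowerSeries Unit A, aeval (link_Z Y o w) P = MvPowerSeries.X () * q ∧
      MvPowerSeries.constantCoeff q = aeval (Function.update Y o w) (pderiv o P) := by
  have h1 : (MvPowerSeries.X () : MvPowerSeries Unit A) ∣ aeval (link_Z Y o w) P := by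
    rw [MvPowerSeries.X_dvd_iff]
    intro m hm
    have hm0 : m = 0 := Finsupp.ext fun _ => hm
    rw [hm0, MvPowerSeries.coeff_zero_eq_constantCoeff_apply, link_const, hP]
  obtain ⟨q, hq⟩ := h1
  refine ⟨q, hq, ?_⟩
  rw [← link_const, ← link_pderiv, hq, Derivation.leibniz, MvPowerSeries.pderiv_X_self, smul_eq_mul,
    smul_eq_mul, map_add, map_mul, MvPowerSeries.constantCoeff_X, zero_mul, zero_add, mul_one]

theorem link_prod (Y : ι → A) (o : ι) (w : A) (α : ι → ℕ) (r : ℕ) :
    aeval (link_Z Y o w) (monomial (Finsupp.equivFunOnFinite.symm α) (1 : k)) *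
      MvPowerSeries.C (Y o) ^ r =
      ∏ j, link_Y Y w j ^ (Sum.elim (Function.update α o r) (fun _ => α o) j) := by
  rw [aeval_monomial, map_one, one_mul, Finsupp.prod_fintype _ _ (fun _ => pow_zero _),
    Fintype.prod_sum_type, ← Finset.mul_prod_erase _ _ (Finset.mem_univ o),
    ← Finset.mul_prod_erase _ _ (Finset.mem_univ o)]
  have h : ∏ x ∈ Finset.univ.erase o, link_Z Y o w x ^ (Finsupp.equivFunOnFinite.symm α) x =
      ∏ x ∈ Finset.univ.erase o, link_Y Y w (Sum.inl x) ^
        (Sum.elim (Function.update α o r) (fun _ => α o) (Sum.inl x : ι ⊕ Unit)) := by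
    refine Finset.prod_congr rfl fun x hx => ?_
    have hx' := (Finset.mem_erase.1 hx).1
    simp [link_Z, link_Y, Function.update_of_ne hx']
  rw [h]
  simp only [link_Z, link_Y, Function.update_self, Sum.elim_inl, Sum.elim_inr,
    Finsupp.equivFunOnFinite_symm_apply_apply, Finset.univ_unique, Finset.prod_singleton]
  ring

theorem link_sum (c' : Car k (MvPowerSeries Unit A) (ι ⊕ Unit) p) (Y : ι → A) (o : ι) (w : A)
    (G : MvPolynomial ι k) (r : ℕ) :
    c'.Φ (aeval (link_Z Y o w) G * MvPowerSeries.C (Y o) ^ r * Jac c'.der (link_Y Y w)) =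
      ∑ α ∈ Fintype.piFinset (fun _ : ι => Finset.range (p ^ 1)),
        aeval (link_Z Y o w) (Hyp.FT1comp p 1 α G) *
          c'.Φ ((∏ j, link_Y Y w j ^ (Sum.elim (Function.update α o r) (fun _ => α o) j)) *
            Jac c'.der (link_Y Y w)) := by
  have h := Hyp.FT1comp_sum p 1 G
  have h2 : G = ∑ α ∈ Fintype.piFinset (fun _ : ι => Finset.range (p ^ 1)),
      Hyp.FT1comp p 1 α G ^ p ^ 1 * monomial (Finsupp.equivFunOnFinite.symm α) 1 :=
    h.trans (Finset.sum_congr (Finset.ext fun α => by simp only [Fintype.mem_piFinset])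
      fun _ _ => rfl)
  conv_lhs => rw [h2]
  rw [map_sum, Finset.sum_mul, Finset.sum_mul, map_sum]
  refine Finset.sum_congr rfl fun α _ => ?_
  rw [← link_prod (k := k), ← c'.Φ_mul, map_mul (aeval (link_Z Y o w)), map_pow, pow_one]
  congr 1
  ring

theorem link_coeff (Y : ι → A) (o : ι) (w : A) {P : MvPolynomial ι k}
    (hP : aeval (Function.update Y o w) P = 0) (U : MvPolynomial ι k) (r : ℕ) (J : A) :
    MvPowerSeries.coeff (ex p 0) (aeval (link_Z Y o w) (P ^ (p - 1) * U) *
      MvPowerSeries.C (Y o) ^ r * MvPowerSeries.C J) =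
      aeval (Function.update Y o w) U *
        aeval (Function.update Y o w) (pderiv o P) ^ (p - 1) * Y o ^ r * J := by
  obtain ⟨q, hq, hq'⟩ := link_factor Y o w hP
  have he : ex p (0 : Unit →₀ ℕ) = Finsupp.single () (p - 1) + 0 := by
    ext
    simp [ex_apply]
  rw [map_mul (aeval (link_Z Y o w)), map_pow, hq, mul_pow, MvPowerSeries.X_pow_eq, mul_assoc, mul_assoc, mul_assoc, he,
    MvPowerSeries.coeff_add_monomial_mul, one_mul, MvPowerSeries.coeff_zero_eq_constantCoeff_apply]
  simp only [map_mul, map_pow, hq', link_const, MvPowerSeries.constantCoeff_C]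
  ring

omit [DecidableEq ι] in
theorem link_deg (G : MvPolynomial ι k) {N : ℕ}
    (hN : G.totalDegree < p * (N + 1) + Fintype.card ι * (p - 1)) :
    (Hyp.FT1comp p 1 (fun _ => p - 1) G).totalDegree ≤ N := by
  conv_lhs => rw [G.as_sum, map_sum]
  refine totalDegree_finsetSum_le fun m hm => ?_
  by_cases h : ∀ s, m s % p ^ 1 = p - 1
  · rw [Hyp.FT1comp_pos p 1 _ _ _ h]
    refine (totalDegree_monomial_le _ _).trans ?_
    have h1 := le_totalDegree hm
    rw [Finsupp.sum_fintype _ _ (fun _ => rfl)] at h1 ⊢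
    have h2 : ∑ s, m s = p * ∑ s, id (Hyp.FT1quo (p ^ 1) m s) + Fintype.card ι * (p - 1) := by
      rw [Finset.mul_sum, ← Finset.card_univ, ← smul_eq_mul (Finset.univ.card), ← Finset.sum_const,
        ← Finset.sum_add_distrib]
      refine Finset.sum_congr rfl fun s _ => ?_
      have h3 := Nat.div_add_mod (m s) (p ^ 1)
      rw [h s] at h3
      rw [id, Hyp.FT1quo_apply, ← h3, pow_one]
      rw [pow_one] at h3
      rw [h3]
      exact h3.symm
    have h4 : p * ∑ s, id (Hyp.FT1quo (p ^ 1) m s) < p * (N + 1) := by omega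
    exact Nat.lt_succ_iff.1 (Nat.lt_of_mul_lt_mul_left h4)
  · rw [Hyp.FT1comp_neg p 1 _ _ _ h]
    simp

theorem link_one (c : Car k A ι p) (Y : ι → A) (o : ι) (w : A) {P : MvPolynomial ι k}
    (hP : aeval (Function.update Y o w) P = 0) (U : MvPolynomial ι k) {N : ℕ}
    (hN : U.totalDegree + (p - 1) * P.totalDegree < p * (N + 1) + Fintype.card ι * (p - 1)) :
    ∃ G : MvPolynomial ι k, G.totalDegree ≤ N ∧
      c.Φ (aeval (Function.update Y o w) U *
        aeval (Function.update Y o w) (pderiv o P) ^ (p - 1) * Y o ^ (p - 1) * Jac c.der Y) =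
        Jac c.der Y * aeval (Function.update Y o w) G := by
  have hp : p.Prime := Fact.out
  obtain ⟨c', hd, hc⟩ := exists_ps c Unit
  refine ⟨Hyp.FT1comp p 1 (fun _ => p - 1) (P ^ (p - 1) * U), link_deg _ ?_, ?_⟩
  · have h1 := totalDegree_mul (P ^ (p - 1)) U
    have h2 := totalDegree_pow P (p - 1)
    omega
  · have h := link_sum c' Y o w (P ^ (p - 1) * U) (p - 1)
    rw [Finset.sum_eq_single (fun _ => p - 1)] at h
    · have he : (Sum.elim (Function.update (fun _ : ι => p - 1) o (p - 1)) (fun _ => p - 1) :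
          ι ⊕ Unit → ℕ) = fun _ => p - 1 := by
        funext j
        rcases j with j | j
        · simp
        · rfl
      rw [he, c'.lcar_one, hd, link_jac] at h
      have h3 := congrArg (MvPowerSeries.coeff 0) h
      rw [hc, link_coeff Y o w hP, MvPowerSeries.coeff_zero_eq_constantCoeff_apply,
        map_mul MvPowerSeries.constantCoeff, link_const, MvPowerSeries.constantCoeff_C] at h3
      rw [h3, mul_comm]
    · intro α hα hne
      obtain ⟨i, hi⟩ := Function.ne_iff.1 hne
      have h1 := Finset.mem_range.1 (Fintype.mem_piFinset.1 hα i)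
      rw [pow_one] at h1
      have h2 : ¬ p ∣ α i + 1 := fun hdv => by
        have := Nat.le_of_dvd (Nat.succ_pos _) hdv
        omega
      by_cases hio : i = o
      · subst hio
        rw [c'.lcar_zero _ _ (i := Sum.inr ()) h2, mul_zero]
      · rw [c'.lcar_zero _ _ (i := Sum.inl i) (by simpa [Function.update_of_ne hio] using h2),
          mul_zero]
    · intro hn
      refine absurd (Fintype.mem_piFinset.2 fun _ => Finset.mem_range.2 ?_) hn
      have := hp.pos
      rw [pow_one]
      omega

theorem link_zero (c : Car k A ι p) (Y : ι → A) (o : ι) (w : A) {P : MvPolynomial ι k}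
    (hP : aeval (Function.update Y o w) P = 0) (U : MvPolynomial ι k) {r : ℕ} (hr : ¬ p ∣ r + 1) :
    c.Φ (aeval (Function.update Y o w) U *
      aeval (Function.update Y o w) (pderiv o P) ^ (p - 1) * Y o ^ r * Jac c.der Y) = 0 := by
  obtain ⟨c', hd, hc⟩ := exists_ps c Unit
  have h := link_sum c' Y o w (P ^ (p - 1) * U) r
  rw [Finset.sum_eq_zero (fun α _ => by
    rw [c'.lcar_zero _ _ (i := Sum.inl o) (by simpa using hr), mul_zero]), hd, link_jac] at h
  have h3 := congrArg (MvPowerSeries.coeff 0) h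
  rwa [hc, link_coeff Y o w hP, map_zero] at h3

end Pool.Agent.Lib.MP_bc213e_ag.DC
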