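import Pool.Agent.Lib.MP_bc213e_ag.DC.F1
import Pool.Agent.Lib.MP_bc213e_ag.DC.F2
import Pool.Agent.Lib.MP_bc213e_ag.DC.F3

/-! The two consequences of the Cartier operator. -/

namespace Pool.Agent.Lib.MP_bc213e_ag.DD.Geo

open Filter

variable {K M ι : Type} [Field K] [Algebra ℂ K] [Field M] [Algebra ℂ M] [Algebra K M] {n : ℕ}
  {S : Su K M ι n} {Ω E : Type} [Field Ω] [Algebra ℂ Ω] [Field E] [Algebra ℂ E] [Algebra Ω E]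
  [IsScalarTower ℂ Ω E] {b φ : ℕ} (G : Geo S Ω E b φ) [IsScalarTower ℂ K M] [Fintype ι]
  [IsAlgClosed Ω] [CharZero E]

theorem t1 {c₀ e : ℕ} {j : ι} {ev : G.C j →ₐ[Ω] Ω} (T : G.Tau c₀ e j ev)
    {m a K₁ K₂ q₀ : ℕ} {α₁ α₂ γ : Fin b →₀ ℕ}
    (ha : 0 < a) (hK : 0 < K₁) (h₁ : G.W (K₁ * m) (K₁ * a) α₁ ≠ ⊥)
    (h₂ : G.W (K₂ * m) (K₂ * a) α₂ = G.R (K₂ * a)) (hγ : (q₀ + 1) • (γ + uno b) ≤ α₁ + α₂)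
    (hq : K₁ + K₂ ≤ q₀) (hc : S.m * (c₀ * (K₁ * a)) ≤ q₀)
    (he' : e * φ * (q₀ + 1) ≤ K₂ * a) :
    ∃ w ∈ G.W m a γ, MvPowerSeries.constantCoeff (T.τF (w / G.X j ^ a)) ≠ 0 :=
  G.f1 T ha hK h₁ h₂ hγ hq hc he'

theorem t2 {c₀ e : ℕ} (hT : ∀ (j : ι) (ev : G.C j →ₐ[Ω] Ω), Nonempty (G.Tau c₀ e j ev)) :
    ∃ a₁, ∀ (m a : ℕ) (α : Fin b →₀ ℕ), a₁ ≤ a →
      (∀ᶠ N : ℕ in atTop, G.W (N * m) (N * a) (N • (α + uno b)) = G.R (N * a)) →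
        G.W m a α = G.R a := by
  obtain ⟨a₁, h⟩ := G.cover hT
  obtain ⟨j, ev, T, hO⟩ := G.exists_top hT
  refine ⟨a₁, fun m a α ha H => le_antisymm (G.W_le_R m a α) ((h a ha).trans ?_)⟩
  refine Submodule.span_le.2 ?_
  rintro _ ⟨c, z, h1, h2, h3, h4⟩
  exact T.one hO H h1 h2 h3 h4

end Pool.Agent.Lib.MP_bc213e_ag.DD.Geo
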