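import Pool.Agent.Lib.MP_bc213e_ag.DC.Link
import Pool.Agent.Lib.MP_bc213e_ag.DC.Mdl

/-! The trace map preserves sections. -/

namespace Pool.Agent.Lib.MP_bc213e_ag.DC

open MvPolynomial

namespace Mdl

section

variable {k A ι J Cc : Type} [CommRing k] [CommRing A] [Algebra k A] [DecidableEq ι]
  (M : Mdl k A ι J Cc)

theorem RR_mono {b b' : ℕ} (h : b ≤ b') : M.RR b ≤ M.RR b' := by
  intro f hf c
  exact mul_le_mul' (PL_mono M.Z h) le_rfl (hf c)

theorem trp_span {b : ℕ} {f t : A} (hf : f ∈ M.RR b) (ht : t ∈ Submodule.span k (Set.range M.th)) :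
    f * t ∈ PL k M.Z b * Submodule.span k (Set.range M.th) := by
  induction ht using Submodule.span_induction with
  | mem t ht =>
    obtain ⟨c, rfl⟩ := ht
    exact hf c
  | zero =>
    rw [mul_zero]
    exact zero_mem _
  | add x y _ _ hx hy =>
    rw [mul_add]
    exact add_mem hx hy
  | smul r x _ hx =>
    rw [mul_smul_comm]
    exact Submodule.smul_mem _ r hx

theorem RR_mul {b b' : ℕ} {f g : A} (hf : f ∈ M.RR b) (hg : g ∈ M.RR b') :
    f * g ∈ M.RR (b + b') := by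
  intro c
  rw [mul_assoc]
  refine Submodule.mul_induction_on (hg c) (fun u hu t ht => ?_) fun x y hx hy => ?_
  · have h1 : u * (f * t) ∈ PL k M.Z b' * (PL k M.Z b * Submodule.span k (Set.range M.th)) :=
      Submodule.mul_mem_mul hu (M.trp_span hf ht)
    have h2 : PL k M.Z b' * PL k M.Z b ≤ PL k M.Z (b + b') :=
      Submodule.mul_le.2 fun x hx y hy => add_comm b' b ▸ PL_mul hx hy
    rw [← mul_assoc (PL k M.Z b')] at h1
    rw [mul_left_comm]
    exact mul_le_mul' h2 le_rfl h1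
  · rw [mul_add]
    exact add_mem hx hy

theorem one_mem_RR (b : ℕ) : 1 ∈ M.RR b := by
  intro c
  exact Submodule.mul_mem_mul (one_mem_PL M.Z b) (Submodule.subset_span ⟨c, rfl⟩)

theorem trp_pow {b : ℕ} {f : A} (hf : f ∈ M.RR b) (n : ℕ) : f ^ n ∈ M.RR (n * b) := by
  induction n with
  | zero =>
    rw [pow_zero]
    exact M.one_mem_RR _
  | succ n ih =>
    rw [pow_succ, add_mul, one_mul]
    exact M.RR_mul ih hf

theorem trp_PL (hD : ∀ c, M.th c ∈ PL k M.Z M.D) {b : ℕ} {f : A} (hf : f ∈ M.RR b) (c : Cc) :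
    f * M.th c ∈ PL k M.Z (b + M.D) := by
  have h1 : Submodule.span k (Set.range M.th) ≤ PL k M.Z M.D :=
    Submodule.span_le.2 (Set.range_subset_iff.2 hD)
  exact (Submodule.mul_le.2 fun x hx y hy => PL_mul hx (h1 hy)) (hf c)

theorem tot_mono {a a' m m' : ℕ} (ha : a ≤ a') (hm : m ≤ m') :
    M.tot (fun i => M.Sc i a) m ≤ M.tot (fun i => M.Sc i a') m' := by
  refine Submodule.span_mono ?_
  rintro _ ⟨i, hi, s, hs, rfl⟩
  exact ⟨i, hi.trans hm, s, fun j => M.RR_mono (Nat.add_le_add_right ha _) (hs j), rfl⟩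

theorem tot_mul {a a' m m' : ℕ} {f g : A} (hf : f ∈ M.tot (fun i => M.Sc i a) m)
    (hg : g ∈ M.tot (fun i => M.Sc i a') m') :
    f * g ∈ M.tot (fun i => M.Sc i (a + a')) (m + m') := by
  have h := Submodule.mul_mem_mul hf hg
  rw [tot, tot, Submodule.span_mul_span] at h
  refine Submodule.span_mono ?_ h
  rintro _ ⟨_, ⟨i, hi, s, hs, rfl⟩, _, ⟨i', hi', s', hs', rfl⟩, rfl⟩
  refine ⟨i + i', add_le_add hi hi', s * s', fun j => ?_, by ring⟩
  have h1 := M.RR_mul (hs j) (hs' j)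
  have h2 : a + i * M.e + (a' + i' * M.e) = a + a' + (i + i') * M.e := by ring
  have h3 : s * M.ga j ^ i * (s' * M.ga j ^ i') = s * s' * M.ga j ^ (i + i') := by ring
  rwa [h2, h3] at h1

theorem tot_prod {T : Type} (s : Finset T) {a m : T → ℕ} {f : T → A}
    (hf : ∀ t ∈ s, f t ∈ M.tot (fun i => M.Sc i (a t)) (m t)) :
    ∏ t ∈ s, f t ∈ M.tot (fun i => M.Sc i (∑ t ∈ s, a t)) (∑ t ∈ s, m t) := by
  classical
  induction s using Finset.induction_on with
  | empty =>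
    refine Submodule.subset_span ⟨0, Nat.zero_le _, 1, fun j => ?_, by simp⟩
    rw [pow_zero, mul_one]
    exact M.one_mem_RR _
  | insert t s ht ih =>
    rw [Finset.prod_insert ht, Finset.sum_insert ht, Finset.sum_insert ht]
    exact M.tot_mul (hf t (Finset.mem_insert_self _ _))
      (ih fun t' ht' => hf t' (Finset.mem_insert_of_mem ht'))

end

variable {k A ι J Cc : Type} [Field k] [CommRing A] [IsDomain A] [Algebra k A] [Fintype ι]
  [DecidableEq ι] {p : ℕ} [Fact p.Prime] [CharP k p] [PerfectRing k p] [CharP A p]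

theorem trp_id {R : Type} [CommRing R] (m n I : ℕ) (s σ w v θ t κ J : R)
    (h : σ * w ^ m = t ^ m * κ) (h' : θ * J ^ m = κ * v ^ (m + 1)) :
    (t * J) ^ (m * n + 1) * (θ ^ n * (s * v ^ I)) =
      s * σ ^ n * t * w ^ (m * n) * v ^ (I + n + m * n) * J := by
  have h1 := congrArg (· ^ n) h
  have h2 := congrArg (· ^ n) h'
  simp only [mul_pow, ← pow_mul] at h1 h2
  linear_combination (t ^ (m * n + 1) * J * s * v ^ I) * h2 -
    (t * J * s * v ^ (I + n + m * n)) * h1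

omit [PerfectRing k p] [CharP k p] [CharP A p] in
theorem trp_J (M : Mdl k A ι J Cc) {d : ι → Derivation k A A} (h : M.OK d) {n : ℕ}
    (hp : p = M.ix * n + 1) : Jac d M.Y ≠ 0 := fun h0 => by
  have h1 : M.ix ≠ 0 := fun h2 => (Fact.out : p.Prime).ne_one (by rw [hp, h2, zero_mul])
  have h2 := h.jac
  rw [h0, zero_pow h1, mul_zero] at h2
  exact mul_ne_zero h.κ0 (pow_ne_zero _ h.vu.ne_zero) h2.symm

theorem trp_one (M : Mdl k A ι J Cc) (c : Car k A ι p) (h : M.OK c.der) {n : ℕ}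
    (hp : p = M.ix * n + 1) {I i a : ℕ} (hI : I + n = p * i) {s : A} (hs : s ∈ M.Sc I (p * a)) :
    ∃ o ∈ M.Out i a, c.Φ (M.θ ^ n * (s * M.Y M.o ^ I)) = o * M.Y M.o ^ i := by
  have hq : p - 1 = M.ix * n := by omega
  have hu : IsUnit (M.v ^ i) := h.vu.pow _
  obtain ⟨o, ho⟩ := hu.dvd (a := c.Φ (M.θ ^ n * (s * M.v ^ I)))
  refine ⟨o, fun j t => ?_, ho.trans (mul_comm _ _)⟩
  obtain ⟨U, hU, hU'⟩ := mem_PL.1
    (M.trp_PL h.thD (M.RR_mul (hs j) (M.trp_pow (h.gasg j t) n)) t)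
  have hN : U.totalDegree + (p - 1) * M.P.totalDegree <
      p * (a + i * M.e + M.D + 1) + Fintype.card ι * (p - 1) := by
    have h1 := Nat.mul_le_mul_left (M.ix * n) h.deg
    have h2 := congrArg (M.ix * n * ·) h.num
    have h3 := congrArg (· * M.e) hI
    rw [hq]
    rw [hp] at hU h3 ⊢
    nlinarith
  obtain ⟨G, hG, hG'⟩ := link_one c M.Y M.o M.w h.rel U hN
  refine mem_PL.2 ⟨G, hG, ?_⟩
  change c.Φ (aeval M.Z U * M.Pw ^ (p - 1) * M.v ^ (p - 1) * _) = _ * aeval M.Z G at hG'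
  rw [hU', hq] at hG'
  have h1 : (M.ga j ^ i * (M.th t * Jac c.der M.Y)) ^ p * (M.θ ^ n * (s * M.v ^ I)) =
      (M.v ^ i) ^ p * (s * M.ga j ^ I * (M.ga j * M.sg t) ^ n * M.th t * M.Pw ^ (M.ix * n) *
        M.v ^ (M.ix * n) * Jac c.der M.Y) := by
    have h2 := trp_id _ n I s _ _ _ _ _ _ _ (h.sgP t) h.jac
    rw [← hp] at h2
    rw [mul_pow, mul_assoc, h2, ← pow_mul, ← pow_mul, mul_comm i p, ← hI]
    ring
  have h2 := congrArg c.Φ h1
  rw [c.Φ_mul, c.Φ_mul, hG', ho] at h2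
  refine mul_left_cancel₀ (mul_ne_zero hu.ne_zero (M.trp_J h hp)) ?_
  linear_combination -h2

theorem trp_zero (M : Mdl k A ι J Cc) (c : Car k A ι p) (h : M.OK c.der) {n : ℕ}
    (hp : p = M.ix * n + 1) {I b : ℕ} {s : A} (hs : s ∈ M.Sc I b) (hd : ¬ p ∣ I + n) :
    c.Φ (M.θ ^ n * (s * M.Y M.o ^ I)) = 0 := by
  have hq : p - 1 = M.ix * n := by omega
  obtain ⟨U, -, hU'⟩ := mem_PL.1
    (M.trp_PL h.thD (M.RR_mul (hs M.j0) (M.trp_pow (h.gasg M.j0 M.c0) n)) M.c0)
  rw [h.ga0, one_pow, mul_one, one_mul] at hU'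
  have hr : ¬ p ∣ I + n + M.ix * n + 1 := fun h1 => hd <| by
    rw [add_assoc, ← hp] at h1
    exact (Nat.dvd_add_left dvd_rfl).1 h1
  have hG := link_zero c M.Y M.o M.w h.rel U hr
  change c.Φ (aeval M.Z U * M.Pw ^ (p - 1) * M.v ^ _ * _) = 0 at hG
  rw [hU', hq] at hG
  have h1 := congrArg c.Φ (trp_id _ n I s _ _ _ _ _ _ _ (h.sgP M.c0) h.jac)
  rw [hG, ← hp, c.Φ_mul] at h1
  exact (mul_eq_zero.1 h1).resolve_left (mul_ne_zero h.th0 (M.trp_J h hp))

theorem trace (M : Mdl k A ι J Cc) (c : Car k A ι p) (h : M.OK c.der) {n : ℕ}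
    (hp : p = M.ix * n + 1) {m a : ℕ} {f : A} (hf : f ∈ M.tot (fun i => M.Sc i (p * a)) (p * m)) :
    c.Φ (M.θ ^ n * f) ∈ M.tot (fun i => M.Out i a) m := by
  induction hf using Submodule.span_induction with
  | mem f hf =>
    obtain ⟨I, hI, s, hs, rfl⟩ := hf
    by_cases hd : p ∣ I + n
    · obtain ⟨i, hi⟩ := hd
      have h1 : M.ix ≠ 0 := fun h2 => (Fact.out : p.Prime).ne_one (by rw [hp, h2, zero_mul])
      have h2 := Nat.le_mul_of_pos_left n (Nat.pos_of_ne_zero h1)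
      have him : i ≤ m := by
        by_contra hc
        have := Nat.mul_le_mul_left p (Nat.succ_le_of_lt (not_le.1 hc))
        rw [Nat.mul_succ] at this
        omega
      obtain ⟨o, ho, ho'⟩ := M.trp_one c h hp hi hs
      exact Submodule.subset_span ⟨i, him, o, ho, ho'⟩
    · rw [M.trp_zero c h hp hs hd]
      exact zero_mem _
  | zero =>
    rw [mul_zero, map_zero]
    exact zero_mem _
  | add f f' _ _ h1 h2 =>
    rw [mul_add, map_add]
    exact add_mem h1 h2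
  | smul r f _ h1 =>
    obtain ⟨r, rfl⟩ := (frobeniusEquiv k p).surjective r
    rw [frobeniusEquiv_apply, frobenius_def, Algebra.smul_def, map_pow, mul_left_comm, c.Φ_mul,
      ← Algebra.smul_def]
    exact Submodule.smul_mem _ r h1

end Mdl

end Pool.Agent.Lib.MP_bc213e_ag.DC
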