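import Pool.Agent.Lib.MP_bc213e_ag.DC.DatR
import Pool.Agent.Lib.MP_bc213e_ag.DC.TrP

/-! The transfer theorem. -/

namespace Pool.Agent.Lib.MP_bc213e_ag.DC

open MvPowerSeries Filter Jet

variable {Ω ρ σ J Cc : Type} [Field Ω] [Fintype ρ] [DecidableEq ρ] [Fintype σ] [DecidableEq σ]
  [Fintype J] [Fintype Cc] (T : Dat Ω ρ σ J Cc) (mo : MonomialOrder σ)

/-- The terms below `γ`. -/
noncomputable def ttLow (R ρ : Type) [CommRing R] (γ : σ →₀ ℕ) : SS R ρ σ →ₗ[R] SS R ρ σ where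
  toFun f := fun α => if mo.toSyn α < mo.toSyn γ then coeff α f else 0
  map_add' f g := by
    refine MvPowerSeries.ext fun α => ?_
    change (if mo.toSyn α < mo.toSyn γ then coeff α (f + g) else 0) =
      (if mo.toSyn α < mo.toSyn γ then coeff α f else 0) +
        (if mo.toSyn α < mo.toSyn γ then coeff α g else 0)
    split_ifs
    · rfl
    · exact (add_zero _).symm
  map_smul' c f := by
    refine MvPowerSeries.ext fun α => ?_
    change (if mo.toSyn α < mo.toSyn γ then coeff α (c • f) else 0) =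
      c • (if mo.toSyn α < mo.toSyn γ then coeff α f else 0)
    split_ifs
    · rfl
    · exact (smul_zero _).symm

omit [Fintype ρ] [DecidableEq ρ] [Fintype σ] [DecidableEq σ] in
theorem tt_coeff_low {R : Type} [CommRing R] (γ α : σ →₀ ℕ) (f : SS R ρ σ) :
    coeff α (ttLow mo R ρ γ f) = if mo.toSyn α < mo.toSyn γ then coeff α f else 0 := rfl

omit [Fintype ρ] [DecidableEq ρ] [Fintype σ] [DecidableEq σ] in
theorem tt_low_eq_zero {R : Type} [CommRing R] {γ : σ →₀ ℕ} {f : SS R ρ σ} :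
    ttLow mo R ρ γ f = 0 ↔ f ∈ Fil mo γ := by
  refine ⟨fun h β hβ => ?_, fun h => MvPowerSeries.ext fun α => ?_⟩
  · have h1 := tt_coeff_low mo γ β f
    rw [h, if_pos hβ, map_zero] at h1
    exact h1.symm
  · rw [tt_coeff_low, map_zero]
    split_ifs with hα
    · exact h α hα
    · rfl

omit [DecidableEq σ] in
theorem tt_ex_lt {p : ℕ} (hp : p ≠ 0) {α γ : σ →₀ ℕ} (h : mo.toSyn α < mo.toSyn γ) :
    mo.toSyn (ex p α) < mo.toSyn (ex p γ) := by
  rw [ex, ex, map_add, map_add, map_nsmul, map_nsmul]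
  exact add_lt_add_left (nsmul_lt_nsmul_right hp h) _

namespace Dat

theorem Wl_good (m a : ℕ) (γ : σ →₀ ℕ) :
    ∀ f ∈ (Wl mo (T.UU m a) γ).map (CL Ω ρ σ), f ∈ Good Ω ρ σ := by
  rintro _ ⟨w, hw, rfl⟩
  obtain ⟨φ, h1, -, rfl⟩ := (mem_Wl mo).1 hw
  exact (T.UU_good m a φ h1).mono fun r hr => C_coeff_mem_IS hr γ

theorem ev_Wl (m a : ℕ) (γ : σ →₀ ℕ) : ∀ᶠ r in RF Ω, ∀ g ∈ r.redS (T.UU m a), g ∈ Fil mo γ →
    (C (coeff γ g) : SS r.k ρ σ) ∈ r.redS ((Wl mo (T.UU m a) γ).map (CL Ω ρ σ)) := by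
  have := T.UU_fd m a
  have h0 : ∀ f ∈ T.UU m a, ttLow mo Ω ρ γ f ∈ Good Ω ρ σ := fun f hf =>
    (T.UU_good m a f hf).mono fun r hr => mem_IS.2 fun α β => by
      rw [tt_coeff_low]
      split_ifs
      · exact mem_IS.1 hr α β
      · rw [map_zero]
        exact zero_mem _
  filter_upwards [ev_inf (W' := ⊥) (T.UU_good m a) (fun f hf => by
    rw [(Submodule.mem_bot Ω).1 hf]
    exact zero_mem _) (ttLow mo Ω ρ γ) h0] with r hr g hg hγ
  have h1 : g ∈ r.redS (T.UU m a ⊓ (⊥ : Submodule Ω (SS Ω ρ σ)).comap (ttLow mo Ω ρ γ)) := by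
    refine hr (ttLow mo r.k ρ γ) (fun f _ => ?_) ⟨hg, ?_⟩
    · refine MvPowerSeries.ext fun α => MvPowerSeries.ext fun β => ?_
      rw [r.coeff_red, tt_coeff_low, tt_coeff_low]
      split_ifs
      · rfl
      · rw [map_zero, map_zero, r.sc_zero]
    · change ttLow mo r.k ρ γ g ∈ r.redS ⊥
      rw [(tt_low_eq_zero mo).2 hγ]
      exact zero_mem _
  clear hg hγ
  induction h1 using Submodule.span_induction with
  | mem x hx =>
    obtain ⟨φ, ⟨⟨h2, h3⟩, h4⟩, rfl⟩ := hx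
    rw [← Rd.red_C_coeff]
    exact r.red_mem_redS ⟨_, (mem_Wl mo).2 ⟨φ, h2, (tt_low_eq_zero mo).1 h3, rfl⟩, rfl⟩
      (C_coeff_mem_IS h4 γ)
  | zero =>
    rw [map_zero, map_zero]
    exact zero_mem _
  | add x y _ _ hx hy =>
    rw [map_add, map_add]
    exact add_mem hx hy
  | smul c x _ hx =>
    have h2 : (C (coeff γ (c • x)) : SS r.k ρ σ) = c • C (coeff γ x) :=
      (CL r.k ρ σ).map_smul c (coeff γ x)
    rw [h2]
    exact Submodule.smul_mem _ c hx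

theorem tt (m a : ℕ) (γ : σ →₀ ℕ) {B : Type} [Finite B] (f : B → SS Ω ρ σ) (K : B → ℕ)
    (hf : ∀ b, f b ∈ T.UU (K b * m) (K b * a)) :
    ∀ᶠ r in RF Ω, ∃ c : Car r.k (MvPowerSeries ρ r.k) ρ r.p, (c.der = fun i => pderiv r.k i) ∧
      (∀ g β, coeff β (c.Φ g) ^ r.p = coeff (ex r.p β) g) ∧
      ∀ n₀, r.p = T.M.ix * n₀ + 1 → ∀ (n : ℕ) (φ : Fin n → B), ∑ t, K (φ t) ≤ r.p →
        ∏ t, r.red (f (φ t)) ∈ Fil mo (ex r.p γ) →
        (C (c.Φ (constantCoeff (r.red T.M.θ) ^ n₀ * coeff (ex r.p γ) (∏ t, r.red (f (φ t))))) :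
          SS r.k ρ σ) ∈ r.redS ((Wl mo (T.UU m a) γ).map (CL Ω ρ σ)) := by
  filter_upwards [T.ev_ok, eventually_all.2 fun b => T.ev_in (hf b), T.ev_out_tot m a,
    T.ev_Wl mo m a γ] with r hok hin hout hW
  obtain ⟨c, hc, hc'⟩ := exists_base (p := r.p) r.k ρ
  obtain ⟨c', h1, h2⟩ := exists_ps c σ
  refine ⟨c, hc, hc', fun n₀ hp n φ hK hF => ?_⟩
  have h3 : c'.der = dS r.k ρ σ := by
    rw [h1, hc]
    rfl
  have h4 := (T.M.red r).tot_prod Finset.univ fun t _ => hin (φ t)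
  rw [← Finset.sum_mul, ← Finset.sum_mul] at h4
  have : IsDomain (SS r.k ρ σ) := NoZeroDivisors.to_isDomain _
  have hg := (T.M.red r).trace c' (h3 ▸ hok) hp
    ((T.M.red r).tot_mono (Nat.mul_le_mul_right a hK) (Nat.mul_le_mul_right m hK) h4)
  have h5 := hW _ (hout hg) fun α hα => by
    rw [h2, Ideal.mul_mem_left _ _ hF _ (tt_ex_lt mo r.pr.out.ne_zero hα), map_zero]
  have h8 := coeff_Fil_mul mo (mem_Fil_zero mo (r.red T.M.θ ^ n₀)) hF
  rw [zero_add, coeff_zero_eq_constantCoeff_apply, map_pow] at h8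
  rw [← h8, ← h2]
  exact h5

end Dat

end Pool.Agent.Lib.MP_bc213e_ag.DC
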